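import Mathlib
import Pool.Agent.Lib.MP_9277c3_lc.helper78.Defs

/-!
# Read-k-times branching programs: definitions
-/

namespace Pool.Agent.Lib.MP_9277c3_lc

/-- A nondeterministic branching program on words of length `n` over the alphabet `α`: a finite
directed acyclic graph on the nodes `0, ..., size - 1` (edges go from smaller to larger nodes) with
a source and a sink. An edge carries either no label (`none`) or a test `some (i, a)`: the letter at
position `i` is `a`. -/
structure NBP (α : Type) (n : ℕ) where
  size : ℕ
  edge : Fin size → Option (Fin n × α) → Fin size → Prop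
  acyclic : ∀ u l v, edge u l v → u < v
  source : Fin size
  sink : Fin size

namespace NBP

variable {α : Type} {n : ℕ} (B : NBP α n)

/-- `Walk u ls v`: there is a walk from `u` to `v` whose edges carry the labels `ls`. -/
inductive Walk : Fin B.size → List (Option (Fin n × α)) → Fin B.size → Prop
  | nil (u : Fin B.size) : Walk u [] u
  | cons (u : Fin B.size) (l : Option (Fin n × α)) (v : Fin B.size) (ls : List (Option (Fin n × α)))
      (w : Fin B.size) (h : B.edge u l v) (h' : Walk v ls w) : Walk u (l :: ls) w

/-- The program accepts `x`: the word `x` passes all tests on some walk from the source to the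
sink. -/
def Accepts (x : Fin n → α) : Prop :=
  ∃ ls, B.Walk B.source ls B.sink ∧ ∀ i a, some (i, a) ∈ ls → x i = a

/-- Syntactic read-`k`-times: each walk from the source to the sink contains at most `k` tests of
each position. -/
def ReadTimes (k : ℕ) : Prop :=
  ∀ ls, B.Walk B.source ls B.sink → ∀ i, ls.countP (fun l => l.map Prod.fst = some i) ≤ k

/-- Some walk from `a` to `b` contains a test of position `i`. -/
def Reads (a : Fin B.size) (i : Fin n) (b : Fin B.size) : Prop :=
  ∃ ls, B.Walk a ls b ∧ ∃ c, some (i, c) ∈ ls

end NBP

namespace RKT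

/-- The leaves of the complete binary tree of height `h`: words of `h` directions. -/
inductive Lf : ℕ → Type
  | nil : Lf 0
  | cons {h : ℕ} (a : Bool) (x : Lf h) : Lf (h + 1)
  deriving DecidableEq

/-- The leaves of a tree of height `h + 1`. -/
def Lf.equiv (h : ℕ) : Bool × Lf h ≃ Lf (h + 1) where
  toFun p := Lf.cons p.1 p.2
  invFun x := match x with
    | Lf.cons a y => (a, y)
  left_inv _ := rfl
  right_inv x := by cases x; rfl

instance instFinLf : ∀ h, Fintype (Lf h)
  | 0 => ⟨{Lf.nil}, fun x => by cases x; exact Finset.mem_singleton.mpr rfl⟩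
  | h + 1 => letI := instFinLf h; Fintype.ofEquiv _ (Lf.equiv h)

instance instInhLf : ∀ h, Inhabited (Lf h)
  | 0 => ⟨Lf.nil⟩
  | h + 1 => ⟨Lf.cons false (instInhLf h).default⟩

/-- The depth of the last common node on the paths from the root to two leaves. -/
def lca : (h : ℕ) → Lf h → Lf h → ℕ
  | 0, _, _ => 0
  | h + 1, Lf.cons a x, Lf.cons b y => if a = b then lca h x y + 1 else 0

/-- The value of the tree of height `h` with the values `w` at the leaves and the binary operation
`F` at all other nodes. -/
def ev {V : Type} (F : V → V → V) : (h : ℕ) → (Lf h → V) → V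
  | 0, w => w Lf.nil
  | h + 1, w => F (ev F h fun x => w (Lf.cons false x)) (ev F h fun x => w (Lf.cons true x))

/-- The operation `x y + 1`. -/
def op {R : Type} [CommRing R] (a b : R) : R := a * b + 1

/-- A chain for the leaf `l`: leaves `b 0, b' 0, b 1, b' 1, ..., b' (m-1)` which leave the path to
`l` at larger and larger depths. -/
def Chain (h m : ℕ) (l : Lf h) (b b' : ℕ → Lf h) : Prop :=
  (∀ i < m, lca h l (b i) < lca h l (b' i)) ∧ (∀ i < m, lca h l (b' i) < h) ∧
    ∀ i, i + 1 < m → lca h l (b' i) < lca h l (b (i + 1))

/-- The values `w`, except at the leaves `b' 0, ..., b' (m-1)`, where the values are those of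
`w'`. -/
def mix {V : Type} {h : ℕ} (m : ℕ) (b' : ℕ → Lf h) (w w' : Lf h → V) : Lf h → V :=
  fun x => if (∃ i, i ∈ Finset.range m ∧ x = b' i) then w' x else w x

end RKT

end Pool.Agent.Lib.MP_9277c3_lc
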