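import Pool.Agent.Lib.MP_9277c3_lc.RKT.M6

/-!
# Word lemma: windows and the main induction
-/

namespace Pool.Agent.Lib.MP_9277c3_lc.RKT

open Finset

/-- The number of cuts before `p`. -/
def gp (D : Finset ℕ) (p : ℕ) : ℕ := (D.filter fun d => d < p).card

theorem gp_eq {D : Finset ℕ} {p q : ℕ} (hpq : p ≤ q) (h : ∀ d ∈ D, ¬(p ≤ d ∧ d ≤ q)) :
    gp D p = gp D q := by
  unfold gp
  congr 1
  apply filter_congr
  intro d hd
  have := h d hd
  omega

theorem no_cut {D : Finset ℕ} {p q : ℕ} (hp : p ∉ D) (hq : q ∉ D)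
    (h : gp D p = gp D q) : ∀ d ∈ D, ¬(p ≤ d ∧ d ≤ q) := by
  rintro d hd ⟨h1, h2⟩
  have h3 : p ≠ d := fun e => hp (e ▸ hd)
  have h4 : d ≠ q := fun e => hq (e ▸ hd)
  have h5 : (D.filter fun d => d < p) ⊂ (D.filter fun d => d < q) := by
    rw [ssubset_iff_of_subset]
    · exact ⟨d, mem_filter.2 ⟨hd, by omega⟩, fun hd' => by
        have := (mem_filter.1 hd').2
        omega⟩
    · intro e he
      have := (mem_filter.1 he).2
      exact mem_filter.2 ⟨(mem_filter.1 he).1, by omega⟩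
  have := card_lt_card h5
  unfold gp at h
  omega

theorem gp_le (D : Finset ℕ) (p : ℕ) : gp D p ≤ D.card := card_filter_le _ _

/-- The elements of `O` in the window `w` of `D`. -/
def Win (D O : Finset ℕ) (w : ℕ) : Finset ℕ := O.filter fun p => p ∉ D ∧ gp D p = w

theorem mem_win {D O : Finset ℕ} {w p : ℕ} : p ∈ Win D O w ↔ p ∈ O ∧ p ∉ D ∧ gp D p = w :=
  mem_filter

/-- The first and the last element of a window. -/
def loW (D O : Finset ℕ) (w : ℕ) : ℕ := if h : (Win D O w).Nonempty then (Win D O w).min' h else 0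

/-- The first and the last element of a window. -/
def hiW (D O : Finset ℕ) (w : ℕ) : ℕ := if h : (Win D O w).Nonempty then (Win D O w).max' h else 0

theorem loW_mem {D O : Finset ℕ} {w : ℕ} (h : (Win D O w).Nonempty) : loW D O w ∈ Win D O w := by
  unfold loW
  rw [dif_pos h]
  exact min'_mem _ _

theorem hiW_mem {D O : Finset ℕ} {w : ℕ} (h : (Win D O w).Nonempty) : hiW D O w ∈ Win D O w := by
  unfold hiW
  rw [dif_pos h]
  exact max'_mem _ _

theorem loW_le {D O : Finset ℕ} {w p : ℕ} (h : p ∈ Win D O w) : loW D O w ≤ p := by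
  unfold loW
  rw [dif_pos ⟨p, h⟩]
  exact min'_le _ _ h

theorem le_hiW {D O : Finset ℕ} {w p : ℕ} (h : p ∈ Win D O w) : p ≤ hiW D O w := by
  unfold hiW
  rw [dif_pos ⟨p, h⟩]
  exact le_max' _ _ h

/-- The pairs of occurrences which are not separated by a cut. -/
def pairs (D O : Finset ℕ) : Finset (ℕ × ℕ) :=
  (O ×ˢ O).filter fun q => q.1 ≤ q.2 ∧ ∀ d ∈ D, ¬(q.1 ≤ d ∧ d ≤ q.2)

theorem pairs_lt {D O : Finset ℕ} {w t : ℕ} (h : (Win D O w).Nonempty) (h1 : loW D O w ≤ t)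
    (h2 : t ≤ hiW D O w) : (pairs (insert t D) O).card < (pairs D O).card := by
  apply card_lt_card
  rw [ssubset_iff_of_subset]
  · refine ⟨(loW D O w, hiW D O w), ?_, ?_⟩
    · have h3 := mem_win.1 (loW_mem h)
      have h4 := mem_win.1 (hiW_mem h)
      refine mem_filter.2 ⟨mem_product.2 ⟨h3.1, h4.1⟩, le_trans h1 h2, ?_⟩
      exact no_cut h3.2.1 h4.2.1 (by rw [h3.2.2, h4.2.2])
    · intro hm
      exact (mem_filter.1 hm).2.2 t (mem_insert_self _ _) ⟨h1, h2⟩
  · intro q hq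
    obtain ⟨h3, h4, h5⟩ := mem_filter.1 hq
    exact mem_filter.2 ⟨h3, h4, fun d hd => h5 d (mem_insert_of_mem hd)⟩

/-- The conclusion of the word lemma. -/
def Concl (C h T : ℕ) (occ : Lf h → Finset ℕ) : Prop :=
  ∃ (D : Finset ℕ) (col : ℕ → Bool) (l : Lf h) (m : ℕ) (b b' : ℕ → Lf h),
    D ⊆ Finset.Icc 1 T ∧ D.card ≤ C ∧ h ≤ C * (m + 1) ∧ Chain h m l b b' ∧
    (∀ p q, p ≤ q → (∀ d ∈ D, ¬(p ≤ d ∧ d ≤ q)) → col p = col q) ∧
    (∀ i < m, ∀ p ∈ occ (b i), p ∉ D → col p = true) ∧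
    ∀ i < m, ∀ p ∈ occ (b' i), p ∉ D → col p = false

theorem Concl.of_emb {C C' t h T : ℕ} {occ : Lf h → Finset ℕ} {f : Lf t → Lf h} (hf : Emb f)
    (hC : Concl C t T fun x => occ (f x)) (hCC : C ≤ C')
    (hh : ∀ m, t ≤ C * (m + 1) → h ≤ C' * (m + 1)) : Concl C' h T occ := by
  obtain ⟨D, col, l, m, b, b', h1, h2, h3, h4, h5, h6, h7⟩ := hC
  exact ⟨D, col, f l, m, fun i => f (b i), fun i => f (b' i), h1, le_trans h2 hCC, hh m h3,
    hf.chain h4, h5, h6, h7⟩

/-- The case in which all leaves occur in the same windows and no point meets many intervals. -/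
theorem uniform_case {h T c : ℕ} {occ : Lf h → Finset ℕ} (D W : Finset ℕ) (n B : ℕ)
    (hD : D ⊆ Icc 1 T) (hDc : D.card ≤ c) (hW : W.card ≤ c + 1)
    (hocc : ∀ x, occ x ⊆ Icc 1 T)
    (hun : ∀ x w, (Win D (occ x) w).Nonempty ↔ w ∈ W)
    (hn : 2 ^ 2 ^ W.card < n) (hB : B * n ≤ h)
    (hb : ∀ u : List Bool, u.length ≤ B * n → ∀ w ∈ W, ∀ t,
      4 * 4 ^ (n * (n * W.card)) *
        cnt (fun x => Under h u x ∧ loW D (occ x) w ≤ t ∧ t ≤ hiW D (occ x) w) ≤
        2 ^ (h - u.length)) (C : ℕ) (hC : 2 * c + 1 ≤ C)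
    (hh : ∀ m, B ≤ 2 ^ (n + 1) * (2 ^ W.card * m) → h ≤ C * (m + 1)) : Concl C h T occ := by
  classical
  obtain ⟨x, m, b, b', σ, h1, h2, h3⟩ := chain_of_small (fun w x => loW D (occ x) w)
    (fun w x => hiW D (occ x) w) W n B
    (fun w hw x => by
      have := (hun x w).2 hw
      exact loW_le (hiW_mem this)) hn hB hb
  set D' := D ∪ W.image (fun w => loW D (occ x) w) with hD'
  have hlo : ∀ w ∈ W, loW D (occ x) w ∈ D' := fun w hw =>
    mem_union_right _ (mem_image_of_mem _ hw)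
  refine ⟨D', fun p => if gp D p ∈ W then decide (p < loW D (occ x) (gp D p) ↔ gp D p ∈ σ)
    else true, x, m, b, b', ?_, ?_, hh m h1, h2, ?_, ?_, ?_⟩
  · apply union_subset hD
    intro p hp
    obtain ⟨w, hw, rfl⟩ := mem_image.1 hp
    exact hocc x (mem_win.1 (loW_mem ((hun x w).2 hw))).1
  · refine le_trans (card_union_le _ _) ?_
    have := card_image_le (s := W) (f := fun w => loW D (occ x) w)
    omega
  · intro p q hpq hno
    have e1 : gp D p = gp D q := gp_eq hpq fun d hd => hno d (mem_union_left _ hd)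
    beta_reduce
    rw [e1]
    by_cases hw : gp D q ∈ W
    · have h4 := hno _ (hlo _ hw)
      have h5 : p < loW D (occ x) (gp D q) ↔ q < loW D (occ x) (gp D q) := by omega
      rw [if_pos hw, if_pos hw]
      simp only [h5]
    · rw [if_neg hw, if_neg hw]
  · intro i hi p hp hpD
    have hpD' : p ∉ D := fun h => hpD (mem_union_left _ h)
    have hwin : p ∈ Win D (occ (b i)) (gp D p) := mem_win.2 ⟨hp, hpD', rfl⟩
    have hw : gp D p ∈ W := (hun _ _).1 ⟨p, hwin⟩
    have h4 := h3 i hi _ hw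
    have h5 := loW_le hwin
    have h6 := le_hiW hwin
    have h7 := loW_le (hiW_mem ((hun x _).2 hw))
    beta_reduce at h4 ⊢
    rw [if_pos hw, decide_eq_true_eq]
    by_cases hσ : gp D p ∈ σ
    · have := (h4.1 hσ).1
      exact ⟨fun _ => hσ, fun _ => by omega⟩
    · have := (h4.2 hσ).2
      exact ⟨fun h => by omega, fun h => absurd h hσ⟩
  · intro i hi p hp hpD
    have hpD' : p ∉ D := fun h => hpD (mem_union_left _ h)
    have hwin : p ∈ Win D (occ (b' i)) (gp D p) := mem_win.2 ⟨hp, hpD', rfl⟩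
    have hw : gp D p ∈ W := (hun _ _).1 ⟨p, hwin⟩
    have h4 := h3 i hi _ hw
    have h5 := loW_le hwin
    have h6 := le_hiW hwin
    have h7 := loW_le (hiW_mem ((hun x _).2 hw))
    beta_reduce at h4 ⊢
    rw [if_pos hw, decide_eq_false_iff_not]
    by_cases hσ : gp D p ∈ σ
    · have := (h4.1 hσ).2
      intro hiff
      have := hiff.2 hσ
      omega
    · have := (h4.2 hσ).1
      intro hiff
      exact hσ (hiff.1 (by omega))

/-- Passing to leaves which all occur in the same windows. -/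
theorem uniformize {h : ℕ} (occ : Lf h → Finset ℕ) (D : Finset ℕ) (c : ℕ) (hDc : D.card ≤ c) :
    ∃ (W : Finset ℕ) (t : ℕ) (f : Lf t → Lf h), W.card ≤ c + 1 ∧ Emb f ∧
      (∀ y w, (Win D (occ (f y)) w).Nonempty ↔ w ∈ W) ∧ h < 3 * (t + (c + 2)) := by
  classical
  let ty : Lf h → Finset ℕ := fun x => (range (c + 1)).filter fun w => (Win D (occ x) w).Nonempty
  have hty : ∀ x w, (Win D (occ x) w).Nonempty ↔ w ∈ ty x := by
    intro x w
    constructor
    · intro hw
      obtain ⟨p, hp⟩ := hw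
      have h1 := (mem_win.1 hp).2.2
      have h2 := gp_le D p
      exact mem_filter.2 ⟨mem_range.2 (by omega), ⟨p, hp⟩⟩
    · intro hw
      exact (mem_filter.1 hw).2
  obtain ⟨W, hWsub, hW⟩ : ∃ W ∈ (range (c + 1)).powerset,
      2 ^ h ≤ 2 ^ (c + 1) * cnt fun x => ty x = W := by
    by_contra hcon
    push Not at hcon
    have h1 := card_eq_sum_card_fiberwise (f := ty) (s := (univ : Finset (Lf h)))
      (t := (range (c + 1)).powerset) (fun x _ => mem_powerset.2 (filter_subset _ _))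
    have h2 : ∑ W ∈ (range (c + 1)).powerset, 2 ^ (c + 1) *
        ((univ : Finset (Lf h)).filter fun x => ty x = W).card <
        ∑ _W ∈ (range (c + 1)).powerset, 2 ^ h := by
      apply sum_lt_sum_of_nonempty ⟨∅, empty_mem_powerset _⟩
      intro W hW
      have h3 := hcon W hW
      have h4 : (cnt fun x => ty x = W) = ((univ : Finset (Lf h)).filter fun x => ty x = W).card := by
        rw [cnt_eq_sum, card_filter]
      rw [← h4]
      exact h3
    rw [← mul_sum, ← h1, card_univ, card_Lf, sum_const, card_powerset, card_range,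
      smul_eq_mul] at h2
    exact lt_irrefl _ h2
  have hne : ∃ x, ty x = W := by
    apply cnt_pos.1
    rcases Nat.eq_zero_or_pos (cnt fun x => ty x = W) with h0 | h0
    · rw [h0] at hW
      have : 0 < 2 ^ h := by positivity
      omega
    · exact h0
  obtain ⟨t, f, hf, hm, hc⟩ := embed h (fun x => ty x = W) hne
  refine ⟨W, t, f, ?_, hf, fun y w => ?_, ?_⟩
  · have := card_le_card (mem_powerset.1 hWsub)
    rwa [card_range] at this
  · rw [hty, hm y]
  · apply pow_bound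
    have h1 : (4 : ℕ) ^ h = 2 ^ h * 2 ^ h := by rw [← mul_pow]; norm_num
    have h2 : 2 ^ h * 2 ^ h ≤ 2 ^ (c + 1) * (2 ^ t * 3 ^ h) := by
      calc 2 ^ h * 2 ^ h ≤ (2 ^ (c + 1) * cnt fun x => ty x = W) * 2 ^ h := Nat.mul_le_mul_right _ hW
        _ = 2 ^ (c + 1) * ((cnt fun x => ty x = W) * 2 ^ h) := by ring
        _ ≤ _ := Nat.mul_le_mul_left _ hc
    have h3 : 0 < 2 ^ (c + 1) * (2 ^ t * 3 ^ h) := by positivity
    have h4 : 2 ^ (c + 2) * (2 ^ t * 3 ^ h) = 2 * (2 ^ (c + 1) * (2 ^ t * 3 ^ h)) := by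
      rw [pow_succ 2 (c + 1)]; ring
    rw [h1, h4]
    omega

theorem lin {A c t h m : ℕ} (h1 : t ≤ A * (m + 1)) (h2 : h < 3 * (t + c)) :
    h ≤ (3 * A + 3 * c) * (m + 1) := by
  have e : (3 * A + 3 * c) * (m + 1) = 3 * (A * (m + 1)) + 3 * c * m + 3 * c := by ring
  have : 0 ≤ 3 * c * m := Nat.zero_le _
  omega

/-- The statement for the induction. -/
def Q (ψ : ℕ) : Prop :=
  ∀ c : ℕ, ∃ C : ℕ, ∀ (h T : ℕ) (occ : Lf h → Finset ℕ) (D : Finset ℕ),
    D.card ≤ c → D ⊆ Icc 1 T → (∀ x, occ x ⊆ Icc 1 T) →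
    (∀ x, (pairs D (occ x)).card < ψ) → Concl C h T occ

theorem Q_succ {ψ : ℕ} (ih : Q ψ) : Q (ψ + 1) := by
  intro c
  obtain ⟨C₀, hC₀⟩ := ih (c + 1)
  set n := 2 ^ 2 ^ (c + 1) + 1 with hn
  set κ := 2 * (n * (n * (c + 1))) + 3 with hκ
  set CA := 2 * (3 * C₀ + 3 * κ) + 1 + C₀ with hCA
  set CB := 2 * (n * 2 ^ (n + 1) * 2 ^ (c + 1)) + (2 * n + 2 * c + 2) with hCB
  refine ⟨3 * (CA + CB) + 3 * (c + 2), ?_⟩
  intro h T occ D hDc hD hocc hps
  obtain ⟨W, t, f, hWc, hf, hun, hht⟩ := uniformize occ D c hDc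
  have hnW : 2 ^ 2 ^ W.card < n := by
    have : 2 ^ 2 ^ W.card ≤ 2 ^ 2 ^ (c + 1) :=
      Nat.pow_le_pow_right (by norm_num) (Nat.pow_le_pow_right (by norm_num) hWc)
    omega
  have hKW : 4 * 4 ^ (n * (n * W.card)) < 2 ^ κ := by
    have h1 : 4 ^ (n * (n * W.card)) ≤ 4 ^ (n * (n * (c + 1))) :=
      Nat.pow_le_pow_right (by norm_num) (Nat.mul_le_mul_left _ (Nat.mul_le_mul_left _ hWc))
    have h2 : (2 : ℕ) ^ κ = 8 * 4 ^ (n * (n * (c + 1))) := by
      rw [hκ, pow_add, pow_mul]; ring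
    have h3 : 0 < 4 ^ (n * (n * (c + 1))) := by positivity
    omega
  refine Concl.of_emb (C := CA + CB) hf ?_ (by omega) fun m hm => lin hm hht
  by_cases hdense : ∃ u : List Bool, u.length ≤ t / 2 ∧ ∃ w ∈ W, ∃ t₀, 2 ^ (t - u.length) <
      4 * 4 ^ (n * (n * W.card)) *
        cnt (fun x => Under t u x ∧ loW D (occ (f x)) w ≤ t₀ ∧ t₀ ≤ hiW D (occ (f x)) w)
  · obtain ⟨u, hu, w, hw, t₀, hlt⟩ := hdense
    set E : Lf t → Prop := fun x => Under t u x ∧ loW D (occ (f x)) w ≤ t₀ ∧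
      t₀ ≤ hiW D (occ (f x)) w with hE
    have hne : ∃ x, E x := by
      apply cnt_pos.1
      rcases Nat.eq_zero_or_pos (cnt E) with h0 | h0
      · rw [h0, Nat.mul_zero] at hlt; exact absurd hlt (Nat.not_lt_zero _)
      · exact h0
    obtain ⟨s, g, hg, hm, hc⟩ := embedNode u t E (by omega) (fun x hx => hx.1) hne
    have ha : t - u.length < 3 * (s + κ) := by
      apply pow_bound
      have h1 : (4 : ℕ) ^ (t - u.length) = 2 ^ (t - u.length) * 2 ^ (t - u.length) := by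
        rw [← mul_pow]; norm_num
      rw [h1]
      have hp : 0 < 2 ^ (t - u.length) := by positivity
      calc 2 ^ (t - u.length) * 2 ^ (t - u.length)
          < (4 * 4 ^ (n * (n * W.card)) * cnt E) * 2 ^ (t - u.length) :=
            Nat.mul_lt_mul_of_pos_right hlt hp
        _ = 4 * 4 ^ (n * (n * W.card)) * (cnt E * 2 ^ (t - u.length)) := by ring
        _ ≤ 4 * 4 ^ (n * (n * W.card)) * (2 ^ s * 3 ^ (t - u.length)) :=
            Nat.mul_le_mul_left _ hc
        _ ≤ 2 ^ κ * (2 ^ s * 3 ^ (t - u.length)) := Nat.mul_le_mul_right _ hKW.le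
    have hIH : Concl C₀ s T fun y => occ (f (g y)) := by
      apply hC₀ s T (fun y => occ (f (g y))) (insert t₀ D)
      · exact le_trans (card_insert_le _ _) (by omega)
      · obtain ⟨x, hx⟩ := hne
        intro d hd
        rcases mem_insert.1 hd with rfl | hd
        · have h1 := hocc (f x) (mem_win.1 (loW_mem ((hun x w).2 hw))).1
          have h2 := hocc (f x) (mem_win.1 (hiW_mem ((hun x w).2 hw))).1
          rw [mem_Icc] at h1 h2 ⊢
          exact ⟨le_trans h1.1 hx.2.1, le_trans hx.2.2 h2.2⟩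
        · exact hD hd
      · intro y; exact hocc _
      · intro y
        have h1 := pairs_lt ((hun (g y) w).2 hw) (hm y).2.1 (hm y).2.2
        have h2 := hps (f (g y))
        omega
    refine Concl.of_emb hg hIH (by omega) fun m hm' => ?_
    have h1 := lin hm' ha
    have h2 : t ≤ 2 * (t - u.length) + 1 := by omega
    have h3 : (CA + CB) * (m + 1) = 2 * ((3 * C₀ + 3 * κ) * (m + 1)) + (1 + C₀ + CB) * m +
      (1 + C₀ + CB) := by
      rw [hCA]; ring
    have h4 : 0 ≤ (1 + C₀ + CB) * m := Nat.zero_le _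
    omega
  · push Not at hdense
    have hB : t / 2 / n * n ≤ t / 2 := Nat.div_mul_le_self _ n
    apply uniform_case (c := c) D W n (t / 2 / n) hD hDc hWc (fun x => hocc _) hun hnW (by omega)
    · intro u hu w hw t₀
      exact hdense u (by omega) w hw t₀
    · omega
    · intro m hm
      have h1 : t / 2 < n * (t / 2 / n + 1) := Nat.lt_mul_div_succ _ (by rw [hn]; exact Nat.succ_pos _)
      have h2 : 2 ^ W.card ≤ 2 ^ (c + 1) := Nat.pow_le_pow_right (by norm_num) hWc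
      have h3 : t / 2 / n ≤ 2 ^ (n + 1) * (2 ^ (c + 1) * m) :=
        le_trans hm (Nat.mul_le_mul_left _ (Nat.mul_le_mul_right _ h2))
      have h4 : n * (t / 2 / n + 1) ≤ n * (2 ^ (n + 1) * (2 ^ (c + 1) * m) + 1) :=
        Nat.mul_le_mul_left _ (by omega)
      have h5 : n * (2 ^ (n + 1) * (2 ^ (c + 1) * m) + 1) =
        n * 2 ^ (n + 1) * 2 ^ (c + 1) * m + n := by ring
      have h6 : (CA + CB) * (m + 1) = 2 * (n * 2 ^ (n + 1) * 2 ^ (c + 1) * m) +
        2 * (n * 2 ^ (n + 1) * 2 ^ (c + 1)) + (2 * n + 2 * c + 2) * m + (2 * n + 2 * c + 2) +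
        CA * m + CA := by
        rw [hCB]; ring
      have h7 : 0 ≤ (2 * n + 2 * c + 2) * m := Nat.zero_le _
      have h8 : 0 ≤ CA * m := Nat.zero_le _
      omega

theorem Q_all (ψ : ℕ) : Q ψ := by
  induction ψ with
  | zero =>
    intro c
    refine ⟨0, fun h T occ D _ _ _ hps => ?_⟩
    exact absurd (hps default) (by omega)
  | succ ψ ih => exact Q_succ ih

theorem specM2 : SpecM2 := by
  intro k
  obtain ⟨C, hC⟩ := Q_all (k * k + 1) 0
  refine ⟨C, fun h T occ hk hocc => ?_⟩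
  apply hC h T occ ∅ (by simp) (by simp) hocc
  intro x
  refine Nat.lt_succ_of_le (le_trans (card_filter_le _ _) ?_)
  rw [card_product]
  exact Nat.mul_le_mul (hk x) (hk x)

end Pool.Agent.Lib.MP_9277c3_lc.RKT
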