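import Pool.Agent.Lib.MP_9277c3_lc.RKT.Spec

/-!
# Module M3: mixtures of nondegenerate values with a constant value at the root
-/

set_option autoImplicit false

namespace Pool.Agent.Lib.MP_9277c3_lc.RKT

open Finset

namespace M3M

/-- the restriction to a subtree -/
def sub {V : Type} {h : ℕ} (a : Bool) (w : Lf (h + 1) → V) : Lf h → V := fun x => w (Lf.cons a x)

/-- the first direction -/
def hd {h : ℕ} : Lf (h + 1) → Bool
  | Lf.cons a _ => a

/-- the remaining directions -/
def tl {h : ℕ} : Lf (h + 1) → Lf h
  | Lf.cons _ x => x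

theorem eq_cons {h : ℕ} (z : Lf (h + 1)) : z = Lf.cons (hd z) (tl z) := by
  cases z
  rfl

theorem lca_cons {h : ℕ} (a b : Bool) (x y : Lf h) :
    lca (h + 1) (Lf.cons a x) (Lf.cons b y) = if a = b then lca h x y + 1 else 0 := rfl

theorem of_lca_pos {h : ℕ} {a : Bool} {l' : Lf h} {z : Lf (h + 1)}
    (hz : 0 < lca (h + 1) (Lf.cons a l') z) :
    z = Lf.cons a (tl z) ∧ lca h l' (tl z) + 1 = lca (h + 1) (Lf.cons a l') z := by
  cases z with
  | cons b y =>
    rw [lca_cons] at hz ⊢
    by_cases hab : a = b
    · subst hab
      simp [tl]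
    · rw [if_neg hab] at hz
      omega

theorem of_lca_zero {h : ℕ} {a : Bool} {l' : Lf h} {z : Lf (h + 1)}
    (hz : lca (h + 1) (Lf.cons a l') z = 0) : z = Lf.cons (!a) (tl z) := by
  cases z with
  | cons b y =>
    rw [lca_cons] at hz
    by_cases hab : a = b
    · rw [if_pos hab] at hz
      omega
    · have : b = !a := by
        cases a <;> cases b <;> simp_all
      subst this
      rfl

section field

variable {F : Type} [Field F] [DecidableEq F]

theorem ev_succ {h : ℕ} (a : Bool) (w : Lf (h + 1) → F) :
    ev op (h + 1) w = ev op h (sub a w) * ev op h (sub (!a) w) + 1 := by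
  have h1 : ev op (h + 1) w = ev op h (sub false w) * ev op h (sub true w) + 1 := rfl
  rw [h1]
  cases a
  · rfl
  · simp only [Bool.not_true]
    ring

/-- the values of the tree, when one subtree is replaced by `1` -/
def KK : (h : ℕ) → (Lf h → F) → Finset F
  | 0, w => {w Lf.nil, 1}
  | h + 1, w => {1} ∪ (KK h (sub false w)).image (fun κ => ev op h (sub true w) * κ + 1) ∪
      (KK h (sub true w)).image (fun κ => ev op h (sub false w) * κ + 1)

theorem KK_up {h : ℕ} (a : Bool) (w : Lf (h + 1) → F) (κ : F) (hκ : κ ∈ KK h (sub a w)) :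
    ev op h (sub (!a) w) * κ + 1 ∈ KK (h + 1) w := by
  unfold KK
  cases a
  · apply mem_union_left
    apply mem_union_right
    exact mem_image.mpr ⟨κ, hκ, rfl⟩
  · apply mem_union_right
    exact mem_image.mpr ⟨κ, hκ, rfl⟩

theorem one_mem_KK : ∀ (h : ℕ) (w : Lf h → F), (1 : F) ∈ KK h w
  | 0, w => by simp [KK]
  | h + 1, w => by simp [KK]

theorem ev_mem_KK : ∀ (h : ℕ) (w : Lf h → F), ev op h w ∈ KK h w
  | 0, w => by simp [KK, ev]
  | h + 1, w => by
    have := KK_up false w _ (ev_mem_KK h (sub false w))
    rw [ev_succ false w, mul_comm]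
    exact this

/-- nondegenerate values -/
def GoodP : (h : ℕ) → (Lf h → F) → Prop
  | 0, w => w Lf.nil ≠ 0
  | h + 1, w => (∀ a, GoodP h (sub a w)) ∧ (0 : F) ∉ KK (h + 1) w

theorem GoodP.not_mem : ∀ {h : ℕ} {w : Lf h → F}, GoodP h w → (0 : F) ∉ KK h w
  | 0, w, hg => by
    intro h0
    simp only [KK, mem_insert, mem_singleton] at h0
    rcases h0 with h0 | h0
    · exact hg h0.symm
    · exact zero_ne_one h0
  | h + 1, w, hg => hg.2

theorem GoodP.ev_ne {h : ℕ} {w : Lf h → F} (hg : GoodP h w) : ev op h w ≠ 0 := by
  intro h0
  exact hg.not_mem (h0 ▸ ev_mem_KK h w)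

theorem inj_leaf : ∀ (h : ℕ) (w w' : Lf h → F) (x : Lf h), (∀ y, y ≠ x → w y = w' y) →
    GoodP h w → ev op h w = ev op h w' → w x = w' x
  | 0, w, w', x, _, _, he => by
    cases x
    exact he
  | h + 1, w, w', x, hne, hg, he => by
    cases x with
    | cons a y =>
      have h1 : sub (!a) w = sub (!a) w' := by
        funext z
        apply hne
        intro hz
        have : (!a) = a := by
          injection hz
        cases a <;> simp at this
      rw [ev_succ a w, ev_succ a w', ← h1] at he
      have h2 : ev op h (sub a w) = ev op h (sub a w') := by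
        have hc := (hg.1 (!a)).ev_ne
        exact mul_right_cancel₀ hc (add_right_cancel he)
      exact inj_leaf h (sub a w) (sub a w') y (fun z hz => hne _ (by
        intro hz'
        apply hz
        injection hz')) (hg.1 a) h2

/-! ### The bilinear forms -/

variable {I : Type}

/-- the mixture family of a full chain -/
def HypA (h m : ℕ) (b b' : ℕ → Lf h) (W : I → Lf h → F) (M : I → I → Lf h → F) : Prop :=
  (∀ i j, ∀ s < m, M i j (b s) = W i (b s)) ∧ (∀ i j, ∀ s < m, M i j (b' s) = W j (b' s)) ∧
    ∀ i j x, (∀ s < m, x ≠ b s ∧ x ≠ b' s) → M i j x = W i x ∧ W i x = W j x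

/-- the mixture family of a chain without its first element -/
def HypB (h m : ℕ) (b b' : ℕ → Lf h) (W : I → Lf h → F) (M : I → I → Lf h → F) : Prop :=
  (∀ i j, ∀ s < m, M i j (b s) = W i (b s)) ∧ (∀ i j, ∀ s < m + 1, M i j (b' s) = W j (b' s)) ∧
    ∀ i j x, (∀ s < m, x ≠ b s) → (∀ s < m + 1, x ≠ b' s) → M i j x = W i x ∧ W i x = W j x

/-- the form of a full chain -/
def ConA (h m : ℕ) (b b' : ℕ → Lf h) (W : I → Lf h → F) (M : I → I → Lf h → F) : Prop :=
  ∃ (κ : F) (α β : I → ℕ → F), (∀ i, κ ∈ KK h (W i)) ∧
    (∀ i j, ev op h (M i j) = ∑ s ∈ range m, α i s * β j s + κ) ∧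
    (∀ i j, (∀ s < m, α i s = α j s) → ∀ s < m, W i (b s) = W j (b s)) ∧
    ∀ i j, (∀ s < m, β i s = β j s) → ∀ s < m, W i (b' s) = W j (b' s)

/-- the form of a chain without its first element -/
def ConB (h m : ℕ) (b b' : ℕ → Lf h) (W : I → Lf h → F) (M : I → I → Lf h → F) : Prop :=
  ∃ (γ κ δ : F) (ψ : I → F) (α β : I → ℕ → F), γ ≠ 0 ∧ κ ≠ 0 ∧ (∀ i, ψ i ≠ 0) ∧
    (∀ i j, ev op h (M i j) = ψ j * (γ * (∑ s ∈ range m, α i s * β j s + κ)) + δ) ∧
    (∀ i j, (∀ s < m, α i s = α j s) → ∀ s < m, W i (b s) = W j (b s)) ∧
    ∀ i j, ψ i = ψ j → (∀ s < m, β i s = β j s) → ∀ s < m + 1, W i (b' s) = W j (b' s)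

/-- a chain without its first element -/
def Half (h m : ℕ) (l : Lf h) (b b' : ℕ → Lf h) : Prop :=
  (∀ i < m, lca h l (b' i) < lca h l (b i)) ∧ (∀ i < m, lca h l (b i) < lca h l (b' (i + 1))) ∧
    ∀ i < m + 1, lca h l (b' i) < h

theorem conA_zero (h : ℕ) (b b' : ℕ → Lf h) (W : I → Lf h → F) (M : I → I → Lf h → F) [Nonempty I]
    (hH : HypA h 0 b b' W M) : ConA h 0 b b' W M := by
  obtain ⟨i0⟩ := ‹Nonempty I›
  have hW : ∀ i, W i = W i0 := by
    intro i
    funext x
    exact (hH.2.2 i i0 x (by intro s hs; omega)).2
  have hM : ∀ i j, M i j = W i0 := by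
    intro i j
    funext x
    rw [(hH.2.2 i j x (by intro s hs; omega)).1, hW i]
  refine ⟨ev op h (W i0), fun _ _ => 0, fun _ _ => 0, ?_, ?_, ?_, ?_⟩
  · intro i
    rw [hW i]
    exact ev_mem_KK h _
  · intro i j
    rw [hM i j]
    simp
  · intro i j _ s hs
    omega
  · intro i j _ s hs
    omega

/-- (ii) nothing of a full chain hangs at the root -/
theorem conA_up (h m : ℕ) (a : Bool) (b b' : ℕ → Lf (h + 1)) (W : I → Lf (h + 1) → F)
    (M : I → I → Lf (h + 1) → F) [Nonempty I] (hG : ∀ i, GoodP (h + 1) (W i))
    (hH : HypA (h + 1) m b b' W M) (hb : ∀ s < m, b s = Lf.cons a (tl (b s)))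
    (hb' : ∀ s < m, b' s = Lf.cons a (tl (b' s)))
    (ih : HypA h m (fun s => tl (b s)) (fun s => tl (b' s)) (fun i => sub a (W i))
      (fun i j => sub a (M i j)) →
      ConA h m (fun s => tl (b s)) (fun s => tl (b' s)) (fun i => sub a (W i))
      (fun i j => sub a (M i j))) : ConA (h + 1) m b b' W M := by
  have hch : HypA h m (fun s => tl (b s)) (fun s => tl (b' s)) (fun i => sub a (W i))
      (fun i j => sub a (M i j)) := by
    refine ⟨?_, ?_, ?_⟩
    · intro i j s hs
      simp only [sub]
      rw [← hb s hs]
      exact hH.1 i j s hs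
    · intro i j s hs
      simp only [sub]
      rw [← hb' s hs]
      exact hH.2.1 i j s hs
    · intro i j x hx
      apply hH.2.2 i j
      intro s hs
      refine ⟨?_, ?_⟩
      · intro he
        apply (hx s hs).1
        exact congrArg tl he
      · intro he
        apply (hx s hs).2
        exact congrArg tl he
  obtain ⟨κ, α, β, h1, h2, h3, h4⟩ := ih hch
  obtain ⟨i0⟩ := ‹Nonempty I›
  have hoff : ∀ i j x, M i j (Lf.cons (!a) x) = W i (Lf.cons (!a) x) ∧
      W i (Lf.cons (!a) x) = W j (Lf.cons (!a) x) := by
    intro i j x
    apply hH.2.2 i j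
    intro s hs
    refine ⟨?_, ?_⟩
    · intro he
      rw [hb s hs] at he
      injection he with _ he
      cases a <;> simp at he
    · intro he
      rw [hb' s hs] at he
      injection he with _ he
      cases a <;> simp at he
  have hWo : ∀ i, sub (!a) (W i) = sub (!a) (W i0) := by
    intro i
    funext x
    exact (hoff i i0 x).2
  have hMo : ∀ i j, sub (!a) (M i j) = sub (!a) (W i0) := by
    intro i j
    rw [← hWo i]
    funext x
    exact (hoff i j x).1
  set c : F := ev op h (sub (!a) (W i0)) with hc
  have hc0 : c ≠ 0 := ((hG i0).1 (!a)).ev_ne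
  refine ⟨c * κ + 1, fun i s => c * α i s, β, ?_, ?_, ?_, ?_⟩
  · intro i
    have := KK_up a (W i) κ (h1 i)
    rw [hWo i] at this
    exact this
  · intro i j
    rw [ev_succ a, h2 i j, hMo i j, ← hc, add_mul, Finset.sum_mul]
    have : ∑ s ∈ range m, α i s * β j s * c = ∑ s ∈ range m, c * α i s * β j s := by
      apply Finset.sum_congr rfl
      intro s _
      ring
    rw [this]
    ring
  · intro i j hij s hs
    have := h3 i j (fun s hs => mul_left_cancel₀ hc0 (hij s hs)) s hs
    simp only [sub] at this
    rwa [← hb s hs] at this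
  · intro i j hij s hs
    have := h4 i j hij s hs
    simp only [sub] at this
    rwa [← hb' s hs] at this

/-- (iv) nothing of a half chain hangs at the root -/
theorem conB_up (h m : ℕ) (a : Bool) (b b' : ℕ → Lf (h + 1)) (W : I → Lf (h + 1) → F)
    (M : I → I → Lf (h + 1) → F) [Nonempty I] (hG : ∀ i, GoodP (h + 1) (W i))
    (hH : HypB (h + 1) m b b' W M) (hb : ∀ s < m, b s = Lf.cons a (tl (b s)))
    (hb' : ∀ s < m + 1, b' s = Lf.cons a (tl (b' s)))
    (ih : HypB h m (fun s => tl (b s)) (fun s => tl (b' s)) (fun i => sub a (W i))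
      (fun i j => sub a (M i j)) →
      ConB h m (fun s => tl (b s)) (fun s => tl (b' s)) (fun i => sub a (W i))
      (fun i j => sub a (M i j))) : ConB (h + 1) m b b' W M := by
  have hch : HypB h m (fun s => tl (b s)) (fun s => tl (b' s)) (fun i => sub a (W i))
      (fun i j => sub a (M i j)) := by
    refine ⟨?_, ?_, ?_⟩
    · intro i j s hs
      simp only [sub]
      rw [← hb s hs]
      exact hH.1 i j s hs
    · intro i j s hs
      simp only [sub]
      rw [← hb' s hs]
      exact hH.2.1 i j s hs
    · intro i j x hx hx'
      apply hH.2.2 i j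
      · intro s hs he
        apply hx s hs
        exact congrArg tl he
      · intro s hs he
        apply hx' s hs
        exact congrArg tl he
  obtain ⟨γ, κ, δ, ψ, α, β, g1, g2, g3, h2, h3, h4⟩ := ih hch
  obtain ⟨i0⟩ := ‹Nonempty I›
  have hoff : ∀ i j x, M i j (Lf.cons (!a) x) = W i (Lf.cons (!a) x) ∧
      W i (Lf.cons (!a) x) = W j (Lf.cons (!a) x) := by
    intro i j x
    apply hH.2.2 i j
    · intro s hs he
      rw [hb s hs] at he
      injection he with _ he
      cases a <;> simp at he
    · intro s hs he
      rw [hb' s hs] at he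
      injection he with _ he
      cases a <;> simp at he
  have hWo : ∀ i, sub (!a) (W i) = sub (!a) (W i0) := by
    intro i
    funext x
    exact (hoff i i0 x).2
  have hMo : ∀ i j, sub (!a) (M i j) = sub (!a) (W i0) := by
    intro i j
    rw [← hWo i]
    funext x
    exact (hoff i j x).1
  set c : F := ev op h (sub (!a) (W i0)) with hc
  have hc0 : c ≠ 0 := ((hG i0).1 (!a)).ev_ne
  refine ⟨c * γ, κ, c * δ + 1, ψ, α, β, mul_ne_zero hc0 g1, g2, g3, ?_, ?_, ?_⟩
  · intro i j
    rw [ev_succ a, h2 i j, hMo i j, ← hc]
    ring
  · intro i j hij s hs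
    have := h3 i j hij s hs
    simp only [sub] at this
    rwa [← hb s hs] at this
  · intro i j hψ hij s hs
    have := h4 i j hψ hij s hs
    simp only [sub] at this
    rwa [← hb' s hs] at this

/-- (iii) the first element of a half chain hangs at the root -/
theorem conB_step (h m : ℕ) (a : Bool) (b b' : ℕ → Lf (h + 1)) (W : I → Lf (h + 1) → F)
    (M : I → I → Lf (h + 1) → F) [Nonempty I] (hG : ∀ i, GoodP (h + 1) (W i))
    (hH : HypB (h + 1) m b b' W M) (hb : ∀ s < m, b s = Lf.cons a (tl (b s)))
    (hb' : ∀ s < m, b' (s + 1) = Lf.cons a (tl (b' (s + 1))))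
    (h0 : b' 0 = Lf.cons (!a) (tl (b' 0)))
    (ih : HypA h m (fun s => tl (b s)) (fun s => tl (b' (s + 1))) (fun i => sub a (W i))
      (fun i j => sub a (M i j)) →
      ConA h m (fun s => tl (b s)) (fun s => tl (b' (s + 1))) (fun i => sub a (W i))
      (fun i j => sub a (M i j))) : ConB (h + 1) m b b' W M := by
  have hna : ∀ x y : Lf h, (Lf.cons (!a) x : Lf (h + 1)) ≠ Lf.cons a y := by
    intro x y he
    injection he with _ he
    cases a <;> simp at he
  have hch : HypA h m (fun s => tl (b s)) (fun s => tl (b' (s + 1))) (fun i => sub a (W i))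
      (fun i j => sub a (M i j)) := by
    refine ⟨?_, ?_, ?_⟩
    · intro i j s hs
      simp only [sub]
      rw [← hb s hs]
      exact hH.1 i j s hs
    · intro i j s hs
      simp only [sub]
      rw [← hb' s hs]
      exact hH.2.1 i j (s + 1) (by omega)
    · intro i j x hx
      apply hH.2.2 i j
      · intro s hs he
        apply (hx s hs).1
        exact congrArg tl he
      · intro s hs he
        rcases Nat.eq_zero_or_pos s with hs0 | hs0
        · subst hs0
          rw [h0] at he
          exact hna _ _ he.symm
        · apply (hx (s - 1) (by omega)).2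
          simp only
          rw [show s - 1 + 1 = s by omega, ← he]
          rfl
  obtain ⟨κ, α, β, h1, h2, h3, h4⟩ := ih hch
  obtain ⟨i0⟩ := ‹Nonempty I›
  have hκ : κ ≠ 0 := by
    intro h0
    exact ((hG i0).1 a).not_mem (h0 ▸ h1 i0)
  have hMo : ∀ i j, sub (!a) (M i j) = sub (!a) (W j) := by
    intro i j
    funext x
    simp only [sub]
    by_cases hx : Lf.cons (!a) x = b' 0
    · rw [hx]
      exact hH.2.1 i j 0 (by omega)
    · have := hH.2.2 i j (Lf.cons (!a) x) (by
        intro s hs he
        rw [hb s hs] at he
        exact hna _ _ he) (by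
        intro s hs he
        rcases Nat.eq_zero_or_pos s with hs0 | hs0
        · subst hs0
          exact hx he
        · have e := hb' (s - 1) (by omega)
          rw [show s - 1 + 1 = s by omega] at e
          rw [e] at he
          exact hna _ _ he)
      rw [this.1, this.2]
  refine ⟨1, κ, 1, fun i => ev op h (sub (!a) (W i)), α, β, one_ne_zero, hκ, ?_, ?_, ?_, ?_⟩
  · intro i
    exact ((hG i).1 (!a)).ev_ne
  · intro i j
    rw [ev_succ a, h2 i j, hMo i j]
    ring
  · intro i j hij s hs
    have := h3 i j hij s hs
    simp only [sub] at this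
    rwa [← hb s hs] at this
  · intro i j hψ hij s hs
    rcases Nat.eq_zero_or_pos s with hs0 | hs0
    · subst hs0
      have := inj_leaf h (sub (!a) (W i)) (sub (!a) (W j)) (tl (b' 0)) (by
        intro y hy
        have := hH.2.2 i j (Lf.cons (!a) y) (by
          intro s hs he
          rw [hb s hs] at he
          exact hna _ _ he) (by
          intro s hs he
          rcases Nat.eq_zero_or_pos s with hs0 | hs0
          · subst hs0
            apply hy
            exact congrArg tl he
          · have e := hb' (s - 1) (by omega)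
            rw [show s - 1 + 1 = s by omega] at e
            rw [e] at he
            exact hna _ _ he)
        exact this.2) ((hG i).1 (!a)) hψ
      simp only [sub] at this
      rwa [← h0] at this
    · have := h4 i j hij (s - 1) (by omega)
      have e := hb' (s - 1) (by omega)
      simp only [sub] at this
      rw [show s - 1 + 1 = s by omega] at this e
      rwa [← e] at this

/-- (i) the first element of a full chain hangs at the root -/
theorem conA_step (h m : ℕ) (a : Bool) (b b' : ℕ → Lf (h + 1)) (W : I → Lf (h + 1) → F)
    (M : I → I → Lf (h + 1) → F) [Nonempty I] (hG : ∀ i, GoodP (h + 1) (W i))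
    (hH : HypA (h + 1) (m + 1) b b' W M) (hb : ∀ s < m, b (s + 1) = Lf.cons a (tl (b (s + 1))))
    (hb' : ∀ s < m + 1, b' s = Lf.cons a (tl (b' s)))
    (h0 : b 0 = Lf.cons (!a) (tl (b 0)))
    (ih : HypB h m (fun s => tl (b (s + 1))) (fun s => tl (b' s)) (fun i => sub a (W i))
      (fun i j => sub a (M i j)) →
      ConB h m (fun s => tl (b (s + 1))) (fun s => tl (b' s)) (fun i => sub a (W i))
      (fun i j => sub a (M i j))) : ConA (h + 1) (m + 1) b b' W M := by
  have hna : ∀ x y : Lf h, (Lf.cons (!a) x : Lf (h + 1)) ≠ Lf.cons a y := by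
    intro x y he
    injection he with _ he
    cases a <;> simp at he
  have hch : HypB h m (fun s => tl (b (s + 1))) (fun s => tl (b' s)) (fun i => sub a (W i))
      (fun i j => sub a (M i j)) := by
    refine ⟨?_, ?_, ?_⟩
    · intro i j s hs
      simp only [sub]
      rw [← hb s hs]
      exact hH.1 i j (s + 1) (by omega)
    · intro i j s hs
      simp only [sub]
      rw [← hb' s hs]
      exact hH.2.1 i j s (by omega)
    · intro i j x hx hx'
      apply hH.2.2 i j
      intro s hs
      refine ⟨?_, ?_⟩
      · intro he
        rcases Nat.eq_zero_or_pos s with hs0 | hs0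
        · subst hs0
          rw [h0] at he
          exact hna _ _ he.symm
        · apply hx (s - 1) (by omega)
          simp only
          rw [show s - 1 + 1 = s by omega, ← he]
          rfl
      · intro he
        apply hx' s hs
        exact congrArg tl he
  obtain ⟨γ, κ, δ, ψ, α, β, g1, g2, g3, h2, h3, h4⟩ := ih hch
  obtain ⟨i0⟩ := ‹Nonempty I›
  have hoff : ∀ i j y, Lf.cons (!a) y ≠ b 0 → M i j (Lf.cons (!a) y) = W i (Lf.cons (!a) y) ∧
      W i (Lf.cons (!a) y) = W j (Lf.cons (!a) y) := by
    intro i j y hy
    apply hH.2.2 i j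
    intro s hs
    refine ⟨?_, ?_⟩
    · intro he
      rcases Nat.eq_zero_or_pos s with hs0 | hs0
      · subst hs0
        exact hy he
      · have e := hb (s - 1) (by omega)
        rw [show s - 1 + 1 = s by omega] at e
        rw [e] at he
        exact hna _ _ he
    · intro he
      rw [hb' s hs] at he
      exact hna _ _ he
  have hMo : ∀ i j, sub (!a) (M i j) = sub (!a) (W i) := by
    intro i j
    funext x
    simp only [sub]
    by_cases hx : Lf.cons (!a) x = b 0
    · rw [hx]
      exact hH.1 i j 0 (by omega)
    · exact (hoff i j x hx).1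
  set φ : I → F := fun i => ev op h (sub (!a) (W i)) with hφ
  have hφ0 : ∀ i, φ i ≠ 0 := fun i => ((hG i).1 (!a)).ev_ne
  refine ⟨1, fun i s => if s < m then γ * φ i * α i s else φ i,
    fun i s => if s < m then ψ i * β i s else γ * κ * ψ i + δ, ?_, ?_, ?_, ?_⟩
  · intro i
    exact one_mem_KK _ _
  · intro i j
    have e1 : ev op h (sub (!a) (W i)) = φ i := rfl
    rw [ev_succ a, h2 i j, hMo i j, e1, Finset.sum_range_succ]
    simp only [lt_irrefl, if_false]
    have : ∑ s ∈ range m, (if s < m then γ * φ i * α i s else φ i) *
        (if s < m then ψ j * β j s else γ * κ * ψ j + δ) =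
        γ * φ i * ψ j * ∑ s ∈ range m, α i s * β j s := by
      rw [Finset.mul_sum]
      apply Finset.sum_congr rfl
      intro s hs
      rw [mem_range] at hs
      rw [if_pos hs, if_pos hs]
      ring
    rw [this]
    ring
  · intro i j hij s hs
    have e1 : φ i = φ j := by
      have := hij m (by omega)
      simpa using this
    rcases Nat.eq_zero_or_pos s with hs0 | hs0
    · subst hs0
      have := inj_leaf h (sub (!a) (W i)) (sub (!a) (W j)) (tl (b 0)) (by
        intro y hy
        refine (hoff i j y ?_).2
        intro he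
        apply hy
        exact congrArg tl he) ((hG i).1 (!a)) e1
      simp only [sub] at this
      rwa [← h0] at this
    · have := h3 i j (by
        intro s hs
        have := hij s (by omega)
        simp only [if_pos hs] at this
        rw [e1] at this
        exact mul_left_cancel₀ (mul_ne_zero g1 (hφ0 j)) this) (s - 1) (by omega)
      have e := hb (s - 1) (by omega)
      simp only [sub] at this
      rw [show s - 1 + 1 = s by omega] at this e
      rwa [← e] at this
  · intro i j hij s hs
    have e1 : ψ i = ψ j := by
      have := hij m (by omega)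
      simp only [lt_irrefl, if_false] at this
      exact mul_left_cancel₀ (mul_ne_zero g1 g2) (add_right_cancel this)
    have := h4 i j e1 (by
      intro s hs
      have := hij s (by omega)
      simp only [if_pos hs] at this
      rw [e1] at this
      exact mul_left_cancel₀ (g3 j) this) s hs
    simp only [sub] at this
    rwa [← hb' s hs] at this

theorem forms (h : ℕ) :
    (∀ (m : ℕ) (l : Lf h) (b b' : ℕ → Lf h) (W : I → Lf h → F) (M : I → I → Lf h → F), Nonempty I →
      Chain h m l b b' → (∀ i, GoodP h (W i)) → HypA h m b b' W M → ConA h m b b' W M) ∧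
    (∀ (m : ℕ) (l : Lf h) (b b' : ℕ → Lf h) (W : I → Lf h → F) (M : I → I → Lf h → F), Nonempty I →
      Half h m l b b' → (∀ i, GoodP h (W i)) → HypB h m b b' W M → ConB h m b b' W M) := by
  induction h with
  | zero =>
    constructor
    · intro m l b b' W M hI hC hG hH
      have hm : m = 0 := by
        by_contra hm
        have := hC.2.1 0 (by omega)
        omega
      subst hm
      exact conA_zero 0 b b' W M hH
    · intro m l b b' W M hI hC hG hH
      have := hC.2.2 0 (by omega)
      omega
  | succ h ih =>
    constructor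
    · intro m l b b' W M hI hC hG hH
      rcases Nat.eq_zero_or_pos m with hm | hm
      · subst hm
        exact conA_zero _ b b' W M hH
      · cases l with
        | cons a l' =>
          obtain ⟨c1, c2, c3⟩ := hC
          have pb' : ∀ s < m, 0 < lca (h + 1) (Lf.cons a l') (b' s) := fun s hs => by
            have := c1 s hs
            omega
          have pb : ∀ s, s + 1 < m → 0 < lca (h + 1) (Lf.cons a l') (b (s + 1)) := fun s hs => by
            have := c3 s hs
            omega
          rcases Nat.eq_zero_or_pos (lca (h + 1) (Lf.cons a l') (b 0)) with hz | hz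
          · obtain ⟨m', rfl⟩ : ∃ m', m = m' + 1 := ⟨m - 1, by omega⟩
            refine conA_step h m' a b b' W M hG hH
              (fun s hs => (of_lca_pos (pb s (by omega))).1)
              (fun s hs => (of_lca_pos (pb' s (by omega))).1) (of_lca_zero hz) ?_
            intro hB
            refine ih.2 m' l' _ _ _ _ hI ⟨?_, ?_, ?_⟩ (fun i => (hG i).1 a) hB
            · intro i hi
              have e1 := (of_lca_pos (pb' i (by omega))).2
              have e2 := (of_lca_pos (pb i (by omega))).2
              have e3 := c3 i (by omega)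
              simp only
              omega
            · intro i hi
              have e1 := (of_lca_pos (pb' (i + 1) (by omega))).2
              have e2 := (of_lca_pos (pb i (by omega))).2
              have e3 := c1 (i + 1) (by omega)
              simp only
              omega
            · intro i hi
              have e1 := (of_lca_pos (pb' i (by omega))).2
              have e3 := c2 i (by omega)
              simp only
              omega
          · have pb2 : ∀ s < m, 0 < lca (h + 1) (Lf.cons a l') (b s) := by
              intro s hs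
              rcases Nat.eq_zero_or_pos s with hs0 | hs0
              · subst hs0
                exact hz
              · have := pb (s - 1) (by omega)
                rwa [show s - 1 + 1 = s by omega] at this
            refine conA_up h m a b b' W M hG hH (fun s hs => (of_lca_pos (pb2 s hs)).1)
              (fun s hs => (of_lca_pos (pb' s hs)).1) ?_
            intro hA
            refine ih.1 m l' _ _ _ _ hI ⟨?_, ?_, ?_⟩ (fun i => (hG i).1 a) hA
            · intro i hi
              have e1 := (of_lca_pos (pb' i hi)).2
              have e2 := (of_lca_pos (pb2 i hi)).2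
              have e3 := c1 i hi
              simp only
              omega
            · intro i hi
              have e1 := (of_lca_pos (pb' i hi)).2
              have e3 := c2 i hi
              simp only
              omega
            · intro i hi
              have e1 := (of_lca_pos (pb' i (by omega))).2
              have e2 := (of_lca_pos (pb2 (i + 1) hi)).2
              have e3 := c3 i hi
              simp only
              omega
    · intro m l b b' W M hI hC hG hH
      cases l with
      | cons a l' =>
        obtain ⟨c1, c2, c3⟩ := hC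
        have pb : ∀ s < m, 0 < lca (h + 1) (Lf.cons a l') (b s) := fun s hs => by
          have := c1 s hs
          omega
        have pb' : ∀ s < m, 0 < lca (h + 1) (Lf.cons a l') (b' (s + 1)) := fun s hs => by
          have := c2 s hs
          omega
        rcases Nat.eq_zero_or_pos (lca (h + 1) (Lf.cons a l') (b' 0)) with hz | hz
        · refine conB_step h m a b b' W M hG hH (fun s hs => (of_lca_pos (pb s hs)).1)
            (fun s hs => (of_lca_pos (pb' s hs)).1) (of_lca_zero hz) ?_
          intro hA
          refine ih.1 m l' _ _ _ _ hI ⟨?_, ?_, ?_⟩ (fun i => (hG i).1 a) hA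
          · intro i hi
            have e1 := (of_lca_pos (pb' i hi)).2
            have e2 := (of_lca_pos (pb i hi)).2
            have e3 := c2 i hi
            simp only
            omega
          · intro i hi
            have e1 := (of_lca_pos (pb' i hi)).2
            have e3 := c3 (i + 1) (by omega)
            simp only
            omega
          · intro i hi
            have e1 := (of_lca_pos (pb' i (by omega))).2
            have e2 := (of_lca_pos (pb (i + 1) hi)).2
            have e3 := c1 (i + 1) hi
            simp only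
            omega
        · have pb2' : ∀ s < m + 1, 0 < lca (h + 1) (Lf.cons a l') (b' s) := by
            intro s hs
            rcases Nat.eq_zero_or_pos s with hs0 | hs0
            · subst hs0
              exact hz
            · have := pb' (s - 1) (by omega)
              rwa [show s - 1 + 1 = s by omega] at this
          refine conB_up h m a b b' W M hG hH (fun s hs => (of_lca_pos (pb s hs)).1)
            (fun s hs => (of_lca_pos (pb2' s hs)).1) ?_
          intro hB
          refine ih.2 m l' _ _ _ _ hI ⟨?_, ?_, ?_⟩ (fun i => (hG i).1 a) hB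
          · intro i hi
            have e1 := (of_lca_pos (pb2' i (by omega))).2
            have e2 := (of_lca_pos (pb i hi)).2
            have e3 := c1 i hi
            simp only
            omega
          · intro i hi
            have e1 := (of_lca_pos (pb2' (i + 1) (by omega))).2
            have e2 := (of_lca_pos (pb i hi)).2
            have e3 := c2 i hi
            simp only
            omega
          · intro i hi
            have e1 := (of_lca_pos (pb2' i hi)).2
            have e3 := c3 i hi
            simp only
            omega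

/-! ### Counting -/

theorem card_Lf (h : ℕ) : Fintype.card (Lf h) = 2 ^ h := by
  induction h with
  | zero => rfl
  | succ h ih =>
    rw [← Fintype.card_congr (Lf.equiv h), Fintype.card_prod, ih, Fintype.card_bool, pow_succ]
    ring

/-- the two halves of a family of values -/
def halves (V : Type) (h : ℕ) : (Lf (h + 1) → V) ≃ (Lf h → V) × (Lf h → V) where
  toFun w := (sub false w, sub true w)
  invFun p := fun x => match x with
    | Lf.cons false y => p.1 y
    | Lf.cons true y => p.2 y
  left_inv w := by
    funext x
    cases x with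
    | cons a y => cases a <;> rfl
  right_inv p := rfl

variable [Fintype F]

/-- the number of all families of values -/
def Q (F : Type) [Fintype F] (h : ℕ) : ℕ := Fintype.card (Lf h → F)

theorem Q_succ (h : ℕ) : Q F (h + 1) = Q F h * Q F h := by
  unfold Q
  rw [Fintype.card_congr (halves F h), Fintype.card_prod]

theorem card_halves {h : ℕ} (P : (Lf h → F) → (Lf h → F) → Prop)
    [DecidablePred (fun w : Lf (h + 1) → F => P (sub false w) (sub true w))]
    [∀ u v, Decidable (P u v)] :
    (univ.filter (fun w : Lf (h + 1) → F => P (sub false w) (sub true w))).card =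
      ∑ u : Lf h → F, (univ.filter (fun v : Lf h → F => P u v)).card := by
  have h1 : (univ.filter (fun w : Lf (h + 1) → F => P (sub false w) (sub true w))).card =
      (univ.filter (fun p : (Lf h → F) × (Lf h → F) => P p.1 p.2)).card := by
    apply Finset.card_equiv (halves F h)
    intro w
    simp only [mem_filter, mem_univ, true_and]
    rfl
  rw [h1]
  simp only [Finset.card_filter]
  rw [Fintype.sum_prod_type]

theorem card_halves' {h : ℕ} (P : (Lf h → F) → (Lf h → F) → Prop)
    [DecidablePred (fun w : Lf (h + 1) → F => P (sub false w) (sub true w))]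
    [∀ u v, Decidable (P u v)] :
    (univ.filter (fun w : Lf (h + 1) → F => P (sub false w) (sub true w))).card =
      ∑ v : Lf h → F, (univ.filter (fun u : Lf h → F => P u v)).card := by
  rw [card_halves]
  simp only [Finset.card_filter]
  rw [Finset.sum_comm]

open Classical in
theorem claim1 : ∀ (h : ℕ) (c : F),
    Fintype.card F * (univ.filter (fun w : Lf h → F => ev op h w = c)).card ≤ 2 ^ h * Q F h
  | 0, c => by
    have h1 : (univ.filter (fun w : Lf 0 → F => ev op 0 w = c)).card ≤ 1 := by
      rw [Finset.card_le_one]
      intro w hw w' hw'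
      rw [mem_filter] at hw hw'
      funext x
      cases x
      have e1 : w Lf.nil = c := hw.2
      have e2 : w' Lf.nil = c := hw'.2
      rw [e1, e2]
    have h2 : Q F 0 = Fintype.card F := by
      unfold Q
      rw [Fintype.card_fun, card_Lf]
      simp
    rw [h2]
    calc Fintype.card F * _ ≤ Fintype.card F * 1 := Nat.mul_le_mul_left _ h1
      _ = 2 ^ 0 * Fintype.card F := by ring
  | h + 1, c => by
    have key : ∀ u : Lf h → F, Fintype.card F *
        (univ.filter (fun v : Lf h → F => ev op h u * ev op h v + 1 = c)).card ≤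
        (if ev op h u = 0 then Fintype.card F * Q F h else 0) + 2 ^ h * Q F h := by
      intro u
      by_cases hu : ev op h u = 0
      · rw [if_pos hu]
        have : (univ.filter (fun v : Lf h → F => ev op h u * ev op h v + 1 = c)).card ≤ Q F h :=
          (card_filter_le _ _).trans (by rfl)
        calc _ ≤ Fintype.card F * Q F h := Nat.mul_le_mul_left _ this
          _ ≤ _ := Nat.le_add_right _ _
      · rw [if_neg hu, Nat.zero_add]
        refine le_trans (Nat.mul_le_mul_left _ (Finset.card_le_card ?_)) (claim1 h ((c - 1) / ev op h u))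
        intro v hv
        rw [mem_filter] at hv ⊢
        refine ⟨mem_univ _, ?_⟩
        rw [eq_div_iff hu, ← hv.2]
        ring
    have e : (univ.filter (fun w : Lf (h + 1) → F => ev op (h + 1) w = c)).card =
        ∑ u : Lf h → F, (univ.filter (fun v : Lf h → F => ev op h u * ev op h v + 1 = c)).card := by
      exact card_halves (fun (u v : Lf h → F) => ev op h u * ev op h v + 1 = c)
    rw [e, Finset.mul_sum]
    calc ∑ u : Lf h → F, Fintype.card F *
        (univ.filter (fun v : Lf h → F => ev op h u * ev op h v + 1 = c)).card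
        ≤ ∑ u : Lf h → F, ((if ev op h u = 0 then Fintype.card F * Q F h else 0) + 2 ^ h * Q F h) :=
          Finset.sum_le_sum (fun u _ => key u)
      _ = (Fintype.card F * (univ.filter (fun u : Lf h → F => ev op h u = 0)).card) * Q F h +
          2 ^ h * Q F h * Q F h := by
          rw [Finset.sum_add_distrib, ← Finset.sum_filter, Finset.sum_const, Finset.sum_const,
            smul_eq_mul, smul_eq_mul, card_univ]
          unfold Q
          ring
      _ ≤ (2 ^ h * Q F h) * Q F h + 2 ^ h * Q F h * Q F h :=
          Nat.add_le_add_right (Nat.mul_le_mul_right _ (claim1 h 0)) _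
      _ = 2 ^ (h + 1) * Q F (h + 1) := by
          rw [Q_succ]
          ring

theorem card_KK : ∀ (h : ℕ) (w : Lf h → F), (KK h w).card ≤ 3 * 2 ^ h - 1
  | 0, w => by
    unfold KK
    exact card_le_two
  | h + 1, w => by
    unfold KK
    have h1 := card_KK h (sub false w)
    have h2 := card_KK h (sub true w)
    have hp : 1 ≤ 2 ^ h := Nat.one_le_two_pow
    calc _ ≤ _ := card_union_le _ _
      _ ≤ (1 + (KK h (sub false w)).card) + (KK h (sub true w)).card := by
        apply Nat.add_le_add
        · refine (card_union_le _ _).trans ?_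
          apply Nat.add_le_add
          · simp
          · exact card_image_le
        · exact card_image_le
      _ ≤ 3 * 2 ^ (h + 1) - 1 := by
        rw [pow_succ]
        omega

open Classical in
theorem claim2 (h : ℕ) (u : Lf h → F) : Fintype.card F *
    (univ.filter (fun v : Lf h → F => ∃ κ ∈ KK h u, ev op h v * κ + 1 = 0)).card ≤
      3 * 2 ^ h * (2 ^ h * Q F h) := by
  have h1 : univ.filter (fun v : Lf h → F => ∃ κ ∈ KK h u, ev op h v * κ + 1 = 0) ⊆
      (KK h u).biUnion (fun κ => univ.filter (fun v : Lf h → F => ev op h v = -1 / κ)) := by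
    intro v hv
    rw [mem_filter] at hv
    obtain ⟨-, κ, hκ, he⟩ := hv
    rw [mem_biUnion]
    refine ⟨κ, hκ, ?_⟩
    rw [mem_filter]
    refine ⟨mem_univ _, ?_⟩
    have hκ0 : κ ≠ 0 := by
      rintro rfl
      simp at he
    rw [eq_div_iff hκ0]
    linear_combination he
  calc _ ≤ Fintype.card F * ∑ κ ∈ KK h u,
        (univ.filter (fun v : Lf h → F => ev op h v = -1 / κ)).card :=
        Nat.mul_le_mul_left _ ((card_le_card h1).trans card_biUnion_le)
    _ = ∑ κ ∈ KK h u, Fintype.card F *
        (univ.filter (fun v : Lf h → F => ev op h v = -1 / κ)).card := by rw [Finset.mul_sum]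
    _ ≤ ∑ κ ∈ KK h u, 2 ^ h * Q F h := Finset.sum_le_sum (fun κ _ => claim1 h _)
    _ = (KK h u).card * (2 ^ h * Q F h) := by rw [Finset.sum_const, smul_eq_mul]
    _ ≤ 3 * 2 ^ h * (2 ^ h * Q F h) := by
        apply Nat.mul_le_mul_right
        exact (card_KK h u).trans (Nat.sub_le _ _)

open Classical in
theorem claim3 : ∀ h : ℕ,
    Fintype.card F * (univ.filter (fun w : Lf h → F => ¬ GoodP h w)).card ≤ 3 * 4 ^ h * Q F h
  | 0 => by
    have h1 := claim1 (F := F) 0 0
    have h2 : (univ.filter (fun w : Lf 0 → F => ¬ GoodP 0 w)) =
        univ.filter (fun w : Lf 0 → F => ev op 0 w = 0) := by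
      ext w
      simp only [mem_filter, mem_univ, true_and, GoodP, not_not]
      rfl
    rw [h2]
    refine h1.trans ?_
    simp only [pow_zero]
    omega
  | h + 1 => by
    have hsub : univ.filter (fun w : Lf (h + 1) → F => ¬ GoodP (h + 1) w) ⊆
        ((univ.filter (fun w : Lf (h + 1) → F => ¬ GoodP h (sub false w))) ∪
        (univ.filter (fun w : Lf (h + 1) → F => ¬ GoodP h (sub true w)))) ∪
        ((univ.filter (fun w : Lf (h + 1) → F =>
          ∃ κ ∈ KK h (sub false w), ev op h (sub true w) * κ + 1 = 0)) ∪
        (univ.filter (fun w : Lf (h + 1) → F =>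
          ∃ κ ∈ KK h (sub true w), ev op h (sub false w) * κ + 1 = 0))) := by
      intro w hw
      rw [mem_filter] at hw
      have hw := hw.2
      simp only [mem_union, mem_filter, mem_univ, true_and]
      by_contra hcon
      push Not at hcon
      obtain ⟨⟨g1, g2⟩, g3, g4⟩ := hcon
      apply hw
      refine ⟨?_, ?_⟩
      · intro a
        cases a
        · exact g1
        · exact g2
      · intro h0
        unfold KK at h0
        rw [mem_union, mem_union, mem_singleton, mem_image, mem_image] at h0
        rcases h0 with (h0 | ⟨κ, hκ, he⟩) | ⟨κ, hκ, he⟩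
        · exact zero_ne_one h0
        · exact g3 κ hκ he
        · exact g4 κ hκ he
    have b1 : Fintype.card F * (univ.filter (fun w : Lf (h + 1) → F => ¬ GoodP h (sub false w))).card ≤
        3 * 4 ^ h * Q F h * Q F h := by
      have e : (univ.filter (fun w : Lf (h + 1) → F => ¬ GoodP h (sub false w))).card =
          ∑ _v : Lf h → F, (univ.filter (fun u : Lf h → F => ¬ GoodP h u)).card :=
        card_halves' (fun (u _ : Lf h → F) => ¬ GoodP h u)
      rw [e, Finset.sum_const, smul_eq_mul, card_univ]
      have := claim3 h
      calc _ = (Fintype.card F * (univ.filter (fun w : Lf h → F => ¬ GoodP h w)).card) * Q F h := by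
            unfold Q
            ring
        _ ≤ _ := Nat.mul_le_mul_right _ this
    have b2 : Fintype.card F * (univ.filter (fun w : Lf (h + 1) → F => ¬ GoodP h (sub true w))).card ≤
        3 * 4 ^ h * Q F h * Q F h := by
      have e : (univ.filter (fun w : Lf (h + 1) → F => ¬ GoodP h (sub true w))).card =
          ∑ _u : Lf h → F, (univ.filter (fun v : Lf h → F => ¬ GoodP h v)).card :=
        card_halves (fun (_ v : Lf h → F) => ¬ GoodP h v)
      rw [e, Finset.sum_const, smul_eq_mul, card_univ]
      have := claim3 h
      calc _ = (Fintype.card F * (univ.filter (fun w : Lf h → F => ¬ GoodP h w)).card) * Q F h := by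
            unfold Q
            ring
        _ ≤ _ := Nat.mul_le_mul_right _ this
    have b3 : Fintype.card F * (univ.filter (fun w : Lf (h + 1) → F =>
          ∃ κ ∈ KK h (sub false w), ev op h (sub true w) * κ + 1 = 0)).card ≤
        3 * 4 ^ h * Q F h * Q F h := by
      have e : (univ.filter (fun w : Lf (h + 1) → F =>
          ∃ κ ∈ KK h (sub false w), ev op h (sub true w) * κ + 1 = 0)).card =
          ∑ u : Lf h → F, (univ.filter (fun v : Lf h → F =>
            ∃ κ ∈ KK h u, ev op h v * κ + 1 = 0)).card :=
        card_halves (fun (u v : Lf h → F) => ∃ κ ∈ KK h u, ev op h v * κ + 1 = 0)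
      rw [e, Finset.mul_sum]
      calc _ ≤ ∑ _u : Lf h → F, 3 * 2 ^ h * (2 ^ h * Q F h) :=
            Finset.sum_le_sum (fun u _ => claim2 h u)
        _ = 3 * 4 ^ h * Q F h * Q F h := by
            rw [Finset.sum_const, smul_eq_mul, card_univ, show (4 : ℕ) = 2 * 2 by norm_num, mul_pow]
            unfold Q
            ring
    have b4 : Fintype.card F * (univ.filter (fun w : Lf (h + 1) → F =>
          ∃ κ ∈ KK h (sub true w), ev op h (sub false w) * κ + 1 = 0)).card ≤
        3 * 4 ^ h * Q F h * Q F h := by
      have e : (univ.filter (fun w : Lf (h + 1) → F =>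
          ∃ κ ∈ KK h (sub true w), ev op h (sub false w) * κ + 1 = 0)).card =
          ∑ v : Lf h → F, (univ.filter (fun u : Lf h → F =>
            ∃ κ ∈ KK h v, ev op h u * κ + 1 = 0)).card :=
        card_halves' (fun (u v : Lf h → F) => ∃ κ ∈ KK h v, ev op h u * κ + 1 = 0)
      rw [e, Finset.mul_sum]
      calc _ ≤ ∑ _u : Lf h → F, 3 * 2 ^ h * (2 ^ h * Q F h) :=
            Finset.sum_le_sum (fun u _ => claim2 h u)
        _ = 3 * 4 ^ h * Q F h * Q F h := by
            rw [Finset.sum_const, smul_eq_mul, card_univ, show (4 : ℕ) = 2 * 2 by norm_num, mul_pow]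
            unfold Q
            ring
    calc _ ≤ Fintype.card F * ((_ + _) + (_ + _)) :=
          Nat.mul_le_mul_left _ ((card_le_card hsub).trans ((card_union_le _ _).trans
            (Nat.add_le_add (card_union_le _ _) (card_union_le _ _))))
      _ ≤ 4 * (3 * 4 ^ h * Q F h * Q F h) := by
          rw [Nat.mul_add, Nat.mul_add, Nat.mul_add]
          omega
      _ = 3 * 4 ^ (h + 1) * Q F (h + 1) := by
          rw [Q_succ, pow_succ]
          ring

/-! ### Orthogonal sets -/

theorem orth (m : ℕ) (A B : Finset (Fin m → F))
    (hAB : ∀ a ∈ A, ∀ a' ∈ A, ∀ b ∈ B, dotProduct b (a - a') = 0) :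
    A.card * B.card ≤ Fintype.card F ^ m := by
  classical
  rcases A.eq_empty_or_nonempty with hA | ⟨a0, ha0⟩
  · subst hA
    simp
  set U : Submodule F (Fin m → F) := Submodule.span F ((fun a => a - a0) '' (A : Set (Fin m → F)))
    with hU
  have h1 : A.card ≤ Nat.card U := by
    rw [Nat.card_eq_fintype_card, ← Fintype.card_coe]
    apply Fintype.card_le_of_injective
      (fun a : A => (⟨a.1 - a0, Submodule.subset_span ⟨a.1, a.2, rfl⟩⟩ : U))
    intro a a' haa
    have := congrArg Subtype.val haa
    simp only at this
    exact Subtype.ext (sub_left_injective this)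
  have h2 : B.card ≤ Nat.card (Submodule.dualAnnihilator U) := by
    haveI : Fintype (Module.Dual F (Fin m → F)) :=
      Fintype.ofEquiv _ (dotProductEquiv F (Fin m)).toEquiv
    rw [Nat.card_eq_fintype_card, ← Fintype.card_coe]
    apply Fintype.card_le_of_injective
      (fun b : B => (⟨dotProductEquiv F (Fin m) b.1, by
        rw [Submodule.mem_dualAnnihilator]
        intro w hw
        refine Submodule.span_induction ?_ ?_ ?_ ?_ hw
        · rintro x ⟨a, ha, rfl⟩
          exact hAB a ha a0 ha0 b.1 b.2
        · exact map_zero _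
        · intro x y _ _ hx hy
          rw [map_add, hx, hy, add_zero]
        · intro c x _ hx
          rw [map_smul, hx, smul_zero]⟩ : Submodule.dualAnnihilator U))
    intro b b' hbb
    have := congrArg Subtype.val hbb
    simp only at this
    exact Subtype.ext ((dotProductEquiv F (Fin m)).injective this)
  have h3 : Nat.card U * Nat.card (Submodule.dualAnnihilator U) = Fintype.card F ^ m := by
    rw [Module.natCard_eq_pow_finrank (K := F) (V := U),
      Module.natCard_eq_pow_finrank (K := F) (V := (Submodule.dualAnnihilator U)), ← pow_add,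
      Subspace.finrank_add_finrank_dualAnnihilator_eq, Nat.card_eq_fintype_card]
    simp
  calc A.card * B.card ≤ Nat.card U * Nat.card (Submodule.dualAnnihilator U) :=
        Nat.mul_le_mul h1 h2
    _ = _ := h3

end field

end M3M

open M3M

theorem specM3 : SpecM3 := by
  classical
  intro q h hq h8 hqh
  have hq0 : 0 < q := hq.out.pos
  refine ⟨univ.filter (fun w : Lf h → ZMod q => GoodP h w), ?_, ?_⟩
  · have h3 := claim3 (F := ZMod q) h
    rw [ZMod.card] at h3
    have hQ : Q (ZMod q) h = q ^ 2 ^ h := by
      unfold Q
      rw [Fintype.card_fun, ZMod.card, card_Lf]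
    have hsum : (univ.filter (fun w : Lf h → ZMod q => GoodP h w)).card +
        (univ.filter (fun w : Lf h → ZMod q => ¬ GoodP h w)).card = Q (ZMod q) h := by
      rw [Finset.card_filter_add_card_filter_not]
      rfl
    have hb : 2 * (univ.filter (fun w : Lf h → ZMod q => ¬ GoodP h w)).card ≤ Q (ZMod q) h := by
      have e1 : 6 * 4 ^ h ≤ q := by
        have e2 : (2 : ℕ) ^ (4 * h) = 4 ^ h * 4 ^ h := by
          rw [← mul_pow, pow_mul]
          norm_num
        have e3 : 6 ≤ 4 ^ h := by
          calc 6 ≤ 4 ^ 2 := by norm_num
            _ ≤ 4 ^ h := Nat.pow_le_pow_right (by norm_num) (by omega)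
        calc 6 * 4 ^ h ≤ 4 ^ h * 4 ^ h := Nat.mul_le_mul_right _ e3
          _ = 2 ^ (4 * h) := e2.symm
          _ ≤ q := hqh
      have e4 : q * (2 * (univ.filter (fun w : Lf h → ZMod q => ¬ GoodP h w)).card) ≤
          q * Q (ZMod q) h := by
        calc _ = 2 * (q * (univ.filter (fun w : Lf h → ZMod q => ¬ GoodP h w)).card) := by ring
          _ ≤ 2 * (3 * 4 ^ h * Q (ZMod q) h) := Nat.mul_le_mul_left _ h3
          _ = (6 * 4 ^ h) * Q (ZMod q) h := by ring
          _ ≤ _ := Nat.mul_le_mul_right _ e1
      exact Nat.le_of_mul_le_mul_left e4 hq0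
    rw [← hQ]
    omega
  · intro m l b b' t S hC hS hag ht
    rcases S.eq_empty_or_nonempty with hS0 | ⟨w0, hw0⟩
    · subst hS0
      simp
    haveI : Nonempty S := ⟨⟨w0, hw0⟩⟩
    have hbm : ∀ s < m, ∀ r ≤ s, lca h l (b r) ≤ lca h l (b s) := by
      intro s
      induction s with
      | zero =>
        intro _ r hr
        have : r = 0 := by omega
        subst this
        exact le_rfl
      | succ s ih =>
        intro hs r hr
        rcases Nat.lt_or_ge r (s + 1) with h1 | h1
        · have e1 := ih (by omega) r (by omega)
          have e2 := hC.1 s (by omega)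
          have e3 := hC.2.2 s hs
          omega
        · have : r = s + 1 := by omega
          subst this
          exact le_rfl
    have hbm' : ∀ s < m, ∀ r ≤ s, lca h l (b' r) ≤ lca h l (b' s) := by
      intro s
      induction s with
      | zero =>
        intro _ r hr
        have : r = 0 := by omega
        subst this
        exact le_rfl
      | succ s ih =>
        intro hs r hr
        rcases Nat.lt_or_ge r (s + 1) with h1 | h1
        · have e1 := ih (by omega) r (by omega)
          have e2 := hC.1 (s + 1) (by omega)
          have e3 := hC.2.2 s hs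
          omega
        · have : r = s + 1 := by omega
          subst this
          exact le_rfl
    have hne : ∀ s < m, ∀ r < m, b s ≠ b' r := by
      intro s hs r hr he
      rcases Nat.lt_or_ge r s with h1 | h1
      · have e1 := hbm' (s - 1) (by omega) r (by omega)
        have e2 := hC.2.2 (s - 1) (by omega)
        rw [show s - 1 + 1 = s by omega, he] at e2
        omega
      · have e1 := hbm r hr s h1
        have e2 := hC.1 r hr
        rw [he] at e1
        omega
    have hH : HypA h m b b' (fun i : S => i.1) (fun i j : S => mix m b' i.1 j.1) := by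
      refine ⟨?_, ?_, ?_⟩
      · intro i j s hs
        change mix m b' i.1 j.1 (b s) = i.1 (b s)
        unfold mix
        rw [if_neg]
        rintro ⟨r, hr, he⟩
        exact hne s hs r (mem_range.mp hr) he
      · intro i j s hs
        change mix m b' i.1 j.1 (b' s) = j.1 (b' s)
        unfold mix
        rw [if_pos ⟨s, mem_range.mpr hs, rfl⟩]
      · intro i j x hx
        refine ⟨?_, hag i.1 i.2 j.1 j.2 x hx⟩
        change mix m b' i.1 j.1 x = i.1 x
        unfold mix
        rw [if_neg]
        rintro ⟨r, hr, he⟩
        exact (hx r (mem_range.mp hr)).2 he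
    obtain ⟨κ, α, β, h1, h2, h3, h4⟩ := (forms h).1 m l b b' (fun i : S => i.1)
      (fun i j : S => mix m b' i.1 j.1) inferInstance hC
      (fun i => (mem_filter.mp (hS i.2)).2) hH
    set A : Finset (Fin m → ZMod q) := univ.image (fun i : S => fun s : Fin m => α i s) with hA
    set B : Finset (Fin m → ZMod q) := univ.image (fun i : S => fun s : Fin m => β i s) with hB
    have hval : ∀ i j : S, t = ∑ s ∈ range m, α i s * β j s + κ := by
      intro i j
      rw [← h2 i j]
      exact (ht i.1 i.2 j.1 j.2).symm
    have hdot : ∀ i j : S, dotProduct (fun s : Fin m => β j s) (fun s : Fin m => α i s) =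
        ∑ s ∈ range m, α i s * β j s := by
      intro i j
      unfold dotProduct
      rw [Fin.sum_univ_eq_sum_range (fun s => β j s * α i s)]
      apply Finset.sum_congr rfl
      intro s _
      ring
    have hor := orth m A B (by
      intro a ha a' ha' b hb
      rw [hA, mem_image] at ha ha'
      rw [hB, mem_image] at hb
      obtain ⟨i, -, rfl⟩ := ha
      obtain ⟨i', -, rfl⟩ := ha'
      obtain ⟨j, -, rfl⟩ := hb
      rw [dotProduct_sub, hdot i j, hdot i' j]
      have e1 := hval i j
      have e2 := hval i' j
      linear_combination e2 - e1)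
    rw [ZMod.card] at hor
    refine le_trans ?_ hor
    rw [← Finset.card_product, ← Fintype.card_coe, ← Fintype.card_coe]
    apply Fintype.card_le_of_injective (fun i : S =>
      (⟨(fun s : Fin m => α i s, fun s : Fin m => β i s), by
        rw [mem_product]
        exact ⟨mem_image.mpr ⟨i, mem_univ _, rfl⟩, mem_image.mpr ⟨i, mem_univ _, rfl⟩⟩⟩ :
        {x // x ∈ A ×ˢ B}))
    intro i j hij
    have hij := congrArg Subtype.val hij
    simp only [Prod.mk.injEq] at hij
    have g1 : ∀ s < m, α i s = α j s := fun s hs => congrFun hij.1 ⟨s, hs⟩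
    have g2 : ∀ s < m, β i s = β j s := fun s hs => congrFun hij.2 ⟨s, hs⟩
    apply Subtype.ext
    funext x
    by_cases hx : ∀ s < m, x ≠ b s ∧ x ≠ b' s
    · exact hag i.1 i.2 j.1 j.2 x hx
    · push Not at hx
      obtain ⟨s, hs, hx⟩ := hx
      by_cases hxb : x = b s
      · rw [hxb]
        exact h3 i j g1 s hs
      · rw [hx hxb]
        exact h4 i j g2 s hs

end Pool.Agent.Lib.MP_9277c3_lc.RKT
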