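import Pool.Agent.Lib.MP_9277c3_lc.RKT.M4a

/-!
# Read-k-times branching programs: module M4, the encoding
-/

namespace Pool.Agent.Lib.MP_9277c3_lc.RKT.A4

open Pool.Agent.Lib.MP_9277c3_lc

/-- Symbolic letters: a constant letter, or the bit which says that the value of the leaf `x` is `c`. -/
inductive Sy (V : Type) (h : ℕ) : Type
  | const (s : Sg) : Sy V h
  | bit (x : Lf h) (c : V) : Sy V h

variable {V : Type} [DecidableEq V]

/-- The letter, if the values at the leaves are `w`. -/
def letter {h : ℕ} (w : Lf h → V) : Sy V h → Sg
  | .const s => s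
  | .bit x c => if w x = c then .one else .zero

/-- The leaf on which a letter depends. -/
def lf {h : ℕ} : Sy V h → Lf h
  | .const _ => default
  | .bit x _ => x

/-- The letter as a function of the value at its leaf. -/
def gg {h : ℕ} : Sy V h → V → Sg
  | .const s, _ => s
  | .bit _ d, c => if c = d then .one else .zero

theorem gg_lf {h : ℕ} (w : Lf h → V) (s : Sy V h) : gg s (w (lf s)) = letter w s := by
  cases s <;> rfl

/-- A symbolic letter of a subtree. -/
def lift {h : ℕ} (b : Bool) : Sy V h → Sy V (h + 1)
  | .const s => .const s
  | .bit x c => .bit (Lf.cons b x) c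

theorem letter_lift {h : ℕ} (w : Lf (h + 1) → V) (b : Bool) (s : Sy V h) :
    letter w (lift b s) = letter (fun x => w (Lf.cons b x)) s := by
  cases s <;> rfl

/-- The rows of the table of a function. -/
def rows (N : ℕ) (f : Fin N → Fin N → ℕ) : List (List ℕ) :=
  List.ofFn fun y => List.ofFn fun x => f x y

theorem run_table_rows {N : ℕ} (f : Fin N → Fin N → ℕ) (x y : Fin N) (γ : List Stk) :
    run (table (rows N f))
      (.ready, List.replicate y .a ++ .mark :: (List.replicate x .a ++ .mark :: γ)) =
        some (.ready, List.replicate (f x y) .a ++ .mark :: γ) := by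
  refine run_table (rows N f) y (List.ofFn fun x => f x y) x (f x y) γ ?_ ?_
  · rw [rows, List.getElem?_eq_getElem (by simp)]
    simp
  · rw [List.getElem?_eq_getElem (by simp)]
    simp

theorem length_rowW (r : List ℕ) (c : ℕ) (h : ∀ v ∈ r, v + 1 ≤ c) :
    (rowW r).length ≤ r.length * c := by
  induction r with
  | nil => simp [rowW]
  | cons v r ih =>
    have h1 := ih (fun v hv => h v (List.mem_cons_of_mem _ hv))
    have h2 := h v List.mem_cons_self
    have e : rowW (v :: r) = .sep :: (List.replicate v .zero ++ rowW r) := by
      simp [rowW]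
    rw [e]
    simp only [List.length_cons, List.length_append, List.length_replicate]
    nlinarith

theorem length_tabW (rs : List (List ℕ)) (c : ℕ) (h : ∀ r ∈ rs, (rowW r).length + 1 ≤ c) :
    (tabW rs).length ≤ rs.length * c := by
  induction rs with
  | nil => simp [tabW]
  | cons v r ih =>
    have h1 := ih (fun v hv => h v (List.mem_cons_of_mem _ hv))
    have h2 := h v List.mem_cons_self
    have e : tabW (v :: r) = .row :: (rowW v ++ tabW r) := by
      simp [tabW]
    rw [e]
    simp only [List.length_cons, List.length_append]
    nlinarith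

theorem length_table {N : ℕ} (f : Fin N → Fin N → ℕ) (hf : ∀ x y, f x y < N) :
    (table (rows N f)).length ≤ N * (N * N + 1) + 2 := by
  have h1 : (tabW (rows N f)).length ≤ (rows N f).length * (N * N + 1) := by
    refine length_tabW _ _ ?_
    intro r hr
    rw [rows, List.mem_ofFn] at hr
    obtain ⟨y, rfl⟩ := hr
    have := length_rowW (List.ofFn fun x => f x y) N (by
      intro v hv
      rw [List.mem_ofFn] at hv
      obtain ⟨x, rfl⟩ := hv
      exact hf x y)
    rw [List.length_ofFn] at this
    omega
  have h2 : (rows N f).length = N := by rw [rows, List.length_ofFn]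
  rw [h2] at h1
  rw [table, List.length_cons, List.length_append, List.length_singleton]
  omega

section
variable {N : ℕ} (e : V ≃ Fin N)

/-- The symbolic word of the tree of height `h` with the table `T` at each node. -/
def W (T : List Sg) : (h : ℕ) → List (Sy V h)
  | 0 => .const .beg ::
      (((List.finRange N).map fun j => Sy.bit Lf.nil (e.symm j)) ++ [.const .fin])
  | h + 1 => (W T h).map (lift false) ++ ((W T h).map (lift true) ++ T.map .const)

/-- The table of the operation `F`. -/
def tabF (F : V → V → V) : List Sg := table (rows N fun x y => (e (F (e.symm x) (e.symm y)) : ℕ))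

/-- The table of the test whether `F a b = t`. -/
def tabT (F : V → V → V) (t : V) : List Sg :=
  table (rows N fun x y => if F (e.symm x) (e.symm y) = t then 0 else 1)

theorem map_letter_lift {h : ℕ} (w : Lf (h + 1) → V) (b : Bool) (l : List (Sy V h)) :
    (l.map (lift b)).map (letter w) = l.map (letter fun x => w (Lf.cons b x)) := by
  rw [List.map_map]
  refine List.map_congr_left fun s _ => ?_
  exact letter_lift w b s

theorem map_letter_const {h : ℕ} (w : Lf h → V) (l : List Sg) :
    (l.map Sy.const).map (letter w) = l := by
  rw [List.map_map]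
  exact List.map_id'' (fun _ => rfl) l

theorem run_W (F : V → V → V) : ∀ (h : ℕ) (w : Lf h → V) (γ : List Stk), γ ≠ [] →
    run ((W e (tabF e F) h).map (letter w)) (.ready, γ) =
      some (.ready, List.replicate (e (ev F h w)) .a ++ .mark :: γ) := by
  intro h
  induction h with
  | zero =>
    intro w γ hγ
    have h1 := run_leaf (e (w Lf.nil)) N (e (w Lf.nil)).2 γ hγ
    have h2 : (W e (tabF e F) 0).map (letter w) =
        .beg :: (((List.range N).map fun j => if (e (w Lf.nil) : ℕ) = j then Sg.one else Sg.zero) ++
          [.fin]) := by
      rw [W, List.map_cons, List.map_append, List.map_map, ← List.map_coe_finRange_eq_range,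
        List.map_map]
      refine congrArg₂ _ rfl (congrArg₂ _ (List.map_congr_left fun j _ => ?_) rfl)
      simp only [Function.comp_apply, letter]
      have hj : w Lf.nil = e.symm j ↔ (e (w Lf.nil) : ℕ) = j := by
        rw [Equiv.eq_symm_apply, Fin.ext_iff]
      by_cases h3 : w Lf.nil = e.symm j
      · rw [if_pos h3, if_pos (hj.1 h3)]
      · rw [if_neg h3, if_neg (fun h4 => h3 (hj.2 h4))]
    rw [h2, h1]
    rfl
  | succ h ih =>
    intro w γ hγ
    rw [W, List.map_append, List.map_append, map_letter_lift, map_letter_lift, map_letter_const,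
      run_append, ih _ _ hγ]
    simp only [Option.bind_some]
    rw [run_append, ih _ _ (by simp)]
    simp only [Option.bind_some]
    rw [tabF, run_table_rows]
    simp only [Equiv.symm_apply_apply]
    rfl

theorem run_root (F : V → V → V) (t : V) (h : ℕ) (w : Lf (h + 1) → V) (γ : List Stk)
    (hγ : γ ≠ []) :
    run (((W e (tabF e F) h).map (lift false) ++
      ((W e (tabF e F) h).map (lift true) ++ (tabT e F t).map Sy.const)).map (letter w))
        (.ready, γ) =
      some (.ready, List.replicate (if ev F (h + 1) w = t then 0 else 1) .a ++ .mark :: γ) := by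
  rw [List.map_append, List.map_append, map_letter_lift, map_letter_lift, map_letter_const,
    run_append, run_W e F h _ _ hγ]
  simp only [Option.bind_some]
  rw [run_append, run_W e F h _ _ (by simp)]
  simp only [Option.bind_some]
  rw [tabT, run_table_rows]
  simp only [Equiv.symm_apply_apply]
  rfl

theorem length_W (T : List Sg) (K : ℕ) (hK : T.length ≤ K) (h : ℕ) :
    (W e T h).length + K ≤ 2 ^ h * (N + 2 + K) := by
  induction h with
  | zero => simp [W]
  | succ h ih =>
    rw [W, List.length_append, List.length_append, List.length_map, List.length_map,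
      List.length_map, pow_succ]
    nlinarith

/-- Each bit occurs at most once. -/
def U {h : ℕ} (l : List (Sy V h)) : Prop :=
  l.Pairwise fun s s' => ∀ x c, s = .bit x c → s' ≠ .bit x c

theorem U_lift {h : ℕ} {l : List (Sy V h)} (hl : U l) (b : Bool) : U (l.map (lift b)) := by
  rw [U, List.pairwise_map]
  refine hl.imp ?_
  intro s s' hs x c h1 h2
  cases s with
  | const s => simp [lift] at h1
  | bit y d =>
    cases s' with
    | const s => simp [lift] at h2
    | bit y' d' =>
      simp only [lift, Sy.bit.injEq] at h1 h2
      obtain ⟨h3, rfl⟩ := h1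
      obtain ⟨h4, rfl⟩ := h2
      have h5 : Lf.cons b y = Lf.cons b y' := h3.trans h4.symm
      rw [Lf.cons.injEq] at h5
      obtain ⟨-, rfl⟩ := h5
      exact hs y d' rfl rfl

theorem U_const {h : ℕ} (l : List Sg) : U (l.map (Sy.const (V := V) (h := h))) := by
  rw [U, List.pairwise_map]
  refine List.pairwise_of_forall_mem_list ?_
  intro s _ s' _ x c h1
  simp at h1

theorem U_glue {h : ℕ} {l : List (Sy V h)} (hl : U l) (T : List Sg) :
    U (l.map (lift false) ++ (l.map (lift true) ++ T.map .const)) := by
  rw [U, List.pairwise_append, List.pairwise_append]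
  refine ⟨U_lift hl false, ⟨U_lift hl true, U_const T, ?_⟩, ?_⟩
  · intro s _ s' hs' x c h1 h2
    rw [List.mem_map] at hs'
    obtain ⟨a, -, rfl⟩ := hs'
    simp at h2
  · intro s hs s' hs' x c h1 h2
    rw [List.mem_append] at hs'
    rcases hs' with hs' | hs'
    · rw [List.mem_map] at hs hs'
      obtain ⟨a, -, rfl⟩ := hs
      obtain ⟨a', -, rfl⟩ := hs'
      cases a with
      | const s => simp [lift] at h1
      | bit y d =>
        cases a' with
        | const s => simp [lift] at h2
        | bit y' d' =>
          simp only [lift, Sy.bit.injEq] at h1 h2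
          have h5 : Lf.cons false y = Lf.cons true y' := h1.1.trans h2.1.symm
          rw [Lf.cons.injEq] at h5
          exact Bool.noConfusion h5.1
    · rw [List.mem_map] at hs'
      obtain ⟨a, -, rfl⟩ := hs'
      simp at h2

theorem U_W (T : List Sg) (h : ℕ) : U (W e T h) := by
  induction h with
  | zero =>
    rw [U, W, List.pairwise_cons]
    refine ⟨fun s _ x c h => by simp at h, ?_⟩
    rw [List.pairwise_append, List.pairwise_map]
    refine ⟨?_, List.pairwise_singleton _ _, ?_⟩
    · refine (List.nodup_finRange N).imp ?_
      intro i j hij x c h1 h2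
      simp only [Sy.bit.injEq] at h1 h2
      exact hij (e.symm.injective (h1.2.trans h2.2.symm))
    · intro s _ s' hs' x c h1 h2
      rw [List.mem_singleton] at hs'
      subst hs'
      simp at h2
  | succ h ih => exact U_glue ih T

theorem mem_W (T : List Sg) (h : ℕ) : ∀ (x : Lf h) (c : V), Sy.bit x c ∈ W e T h := by
  induction h with
  | zero =>
    intro x c
    rw [W]
    refine List.mem_cons_of_mem _ (List.mem_append_left _ ?_)
    rw [List.mem_map]
    exact ⟨e c, List.mem_finRange _, by rw [e.symm_apply_apply]; cases x; rfl⟩
  | succ h ih =>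
    intro x' c
    cases x' with
    | cons b x =>
      have h1 : (W e T h).map (lift b) ⊆ W e T (h + 1) := by
        rw [W]
        cases b
        · exact List.subset_append_left _ _
        · exact List.Subset.trans (List.subset_append_left _ _) (List.subset_append_right _ _)
      exact h1 (List.mem_map.2 ⟨_, ih x c, rfl⟩)

theorem mem_glue (T T' : List Sg) (h : ℕ) (x : Lf (h + 1)) (c : V) :
    Sy.bit x c ∈ (W e T h).map (lift false) ++ ((W e T h).map (lift true) ++ T'.map .const) := by
  cases x with
  | cons b x =>
    have h1 : (W e T h).map (lift b) ⊆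
        (W e T h).map (lift false) ++ ((W e T h).map (lift true) ++ T'.map .const) := by
      cases b
      · exact List.subset_append_left _ _
      · exact List.Subset.trans (List.subset_append_left _ _) (List.subset_append_right _ _)
    exact h1 (List.mem_map.2 ⟨_, mem_W e T h x c, rfl⟩)

/-- The word has no letter `acc`. -/
theorem acc_table (rs : List (List ℕ)) : Sg.acc ∉ table rs := by
  rw [table, List.mem_cons, List.mem_append, List.mem_singleton]
  rintro (h | h | h)
  · simp at h
  · rcases mem_tabW h with h | h | h <;> simp at h
  · simp at h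

theorem acc_W (T : List Sg) (hT : Sg.acc ∉ T) (h : ℕ) : Sy.const .acc ∉ W e T h := by
  induction h with
  | zero =>
    rw [W, List.mem_cons, List.mem_append, List.mem_map, List.mem_singleton]
    rintro (h | ⟨j, -, h⟩ | h) <;> simp at h
  | succ h ih =>
    have h1 : ∀ b, Sy.const .acc ∉ (W e T h).map (lift b) := by
      intro b hb
      rw [List.mem_map] at hb
      obtain ⟨s, hs, h2⟩ := hb
      cases s with
      | const s =>
        simp only [lift, Sy.const.injEq] at h2
        subst h2
        exact ih hs
      | bit x c => simp [lift] at h2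
    rw [W, List.mem_append, List.mem_append]
    rintro (h | h | h)
    · exact h1 _ h
    · exact h1 _ h
    · rw [List.mem_map] at h
      obtain ⟨s, hs, h2⟩ := h
      simp only [Sy.const.injEq] at h2
      subst h2
      exact hT hs

theorem acc_letter {h : ℕ} (l : List (Sy V h)) (hl : Sy.const .acc ∉ l) (w : Lf h → V) :
    Sg.acc ∉ l.map (letter w) := by
  intro h
  rw [List.mem_map] at h
  obtain ⟨s, hs, h2⟩ := h
  cases s with
  | const s =>
    simp only [letter] at h2
    subst h2
    exact hl hs
  | bit x c =>
    simp only [letter] at h2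
    split_ifs at h2

end

theorem specM4 : SpecM4 := by
  classical
  refine ⟨Sg, Fintype.ofFinite _, M, M_right, ?_⟩
  intro V _ _ h n F t hh hV hn
  obtain ⟨h, rfl⟩ : ∃ h', h = h' + 1 := ⟨h - 1, by omega⟩
  obtain ⟨N, hN⟩ : ∃ N, N = Fintype.card V := ⟨_, rfl⟩
  let e : V ≃ Fin N := (Fintype.equivFinOfCardEq hN.symm)
  rw [← hN] at hV hn
  set core : List (Sy V (h + 1)) := (W e (tabF e F) h).map (lift false) ++
    ((W e (tabF e F) h).map (lift true) ++ (tabT e F t).map .const) with hcore
  have hlen : core.length + 1 ≤ n := by
    have h1 : (tabF e F).length ≤ N * (N * N + 1) + 2 := length_table _ fun x y => Fin.is_lt _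
    have h2 : (tabT e F t).length ≤ N * (N * N + 1) + 2 := by
      refine length_table _ fun x y => ?_
      split_ifs <;> omega
    have h3 := length_W e (tabF e F) _ h1 h
    have h4 : core.length = (W e (tabF e F) h).length + ((W e (tabF e F) h).length +
        (tabT e F t).length) := by
      rw [hcore, List.length_append, List.length_append, List.length_map, List.length_map,
        List.length_map]
    have h5 : 1 ≤ 2 ^ h := Nat.one_le_two_pow
    have h6 : N + 2 + (N * (N * N + 1) + 2) ≤ (N + 2) ^ 3 := by
      ring_nf
      nlinarith [sq_nonneg N]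
    have h7 : 2 ^ h * (N + 2 + (N * (N * N + 1) + 2)) ≤ 2 ^ h * (N + 2) ^ 3 :=
      Nat.mul_le_mul_left _ h6
    rw [pow_succ] at hn
    have h8 : 2 ^ h * 2 * (N + 2) ^ 3 = 2 * (2 ^ h * (N + 2) ^ 3) := by ring
    rw [h8] at hn
    omega
  set full : List (Sy V (h + 1)) := core ++ (.const .acc :: List.replicate (n - core.length - 1)
    (.const .zero)) with hfull
  have hfl : full.length = n := by
    rw [hfull, List.length_append, List.length_cons, List.length_replicate]
    omega
  have hU : U full := by
    have h1 : (Sy.const .acc :: List.replicate (n - core.length - 1)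
        (Sy.const (V := V) (h := h + 1) .zero)) =
        (Sg.acc :: List.replicate (n - core.length - 1) Sg.zero).map Sy.const := by
      simp
    rw [hfull, h1, U, List.pairwise_append]
    refine ⟨U_glue (U_W e _ h) _, U_const _, ?_⟩
    intro s _ s' hs' x c h1 h2
    rw [List.mem_map] at hs'
    obtain ⟨a, -, rfl⟩ := hs'
    simp at h2
  have hmem : ∀ x c, Sy.bit x c ∈ full := fun x c =>
    List.mem_append_left _ (mem_glue e (tabF e F) (tabT e F t) h x c)
  have hpos : ∀ (x : Lf (h + 1)) (c : V), ∃ i : Fin n,
      full[(i : ℕ)]'(by rw [hfl]; exact i.2) = Sy.bit x c := by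
    intro x c
    obtain ⟨i, hi, h1⟩ := List.getElem_of_mem (hmem x c)
    exact ⟨⟨i, by omega⟩, h1⟩
  choose pos hpos using hpos
  have hget : ∀ i : Fin n, (i : ℕ) < full.length := fun i => by rw [hfl]; exact i.2
  refine ⟨fun i => lf (full[(i : ℕ)]'(hget i)), pos, fun i c => gg (full[(i : ℕ)]'(hget i)) c,
    ?_, ?_⟩
  · intro i c c' hcc
    have huniq : ∀ x d, full[(i : ℕ)]'(hget i) = Sy.bit x d → i = pos x d := by
      intro x d hxd
      have h1 := hpos x d
      rcases lt_trichotomy i (pos x d) with h2 | h2 | h2
      · exact absurd h1 (List.pairwise_iff_getElem.1 hU i (pos x d) (hget _) (hget _) h2 x d hxd)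
      · exact h2
      · exact absurd hxd (List.pairwise_iff_getElem.1 hU (pos x d) i (hget _) (hget _) h2 x d h1)
    have hcc' : gg (full[(i : ℕ)]'(hget i)) c ≠ gg (full[(i : ℕ)]'(hget i)) c' := hcc
    clear hcc
    change i = pos (lf (full[(i : ℕ)]'(hget i))) c ∨ i = pos (lf (full[(i : ℕ)]'(hget i))) c'
    generalize full[(i : ℕ)]'(hget i) = s at hcc' huniq ⊢
    cases s with
    | const s => exact absurd rfl hcc'
    | bit x d =>
      simp only [gg] at hcc'
      by_cases h1 : c = d
      · left
        rw [h1]
        exact huniq x d rfl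
      · by_cases h2 : c' = d
        · right
          rw [h2]
          exact huniq x d rfl
        · rw [if_neg h1, if_neg h2] at hcc'
          exact absurd rfl hcc'
  · intro w
    have h1 : (List.ofFn fun i : Fin n => gg (full[(i : ℕ)]'(hget i))
        (w (lf (full[(i : ℕ)]'(hget i))))) = full.map (letter w) := by
      refine List.ext_getElem (by simp [hfl]) ?_
      intro i h2 h3
      rw [List.getElem_ofFn, List.getElem_map]
      exact gg_lf w _
    rw [h1]
    have h2 := run_root e F t h w [.bottom] (by simp)
    rw [← hcore] at h2
    have h3 : Sy.const .acc ∉ core := by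
      have := acc_W e (tabT e F t) (acc_table _) 0
      rw [hcore, List.mem_append, List.mem_append]
      have h1 : ∀ b, Sy.const .acc ∉ (W e (tabF e F) h).map (lift b) := by
        intro b hb
        rw [List.mem_map] at hb
        obtain ⟨s, hs, h2⟩ := hb
        cases s with
        | const s =>
          simp only [lift, Sy.const.injEq] at h2
          subst h2
          exact acc_W e _ (acc_table _) h hs
        | bit x c => simp [lift] at h2
      rintro (h | h | h)
      · exact h1 _ h
      · exact h1 _ h
      · rw [List.mem_map] at h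
        obtain ⟨s, hs, h2⟩ := h
        simp only [Sy.const.injEq] at h2
        subst h2
        exact acc_table _ hs
    rw [hfull, List.map_append, List.map_cons]
    have h4 := accepts_word (core.map (letter w)) ((List.replicate (n - core.length - 1)
      (Sy.const .zero)).map (letter w)) (acc_letter core h3 w) _ _ h2
    refine h4.trans ?_
    split_ifs with h5
    · simpa using h5
    · simpa using h5

end Pool.Agent.Lib.MP_9277c3_lc.RKT.A4
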