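import Pool.Agent.Lib.MP_9277c3_lc.RKT.Spec

/-!
# Read-k-times branching programs: module M4, the automaton
-/

namespace Pool.Agent.Lib.MP_9277c3_lc.RKT.A4

open Pool.Agent.Lib.MP_9277c3_lc

/-- The input alphabet. -/
inductive Sg : Type
  | zero | one | beg | tab | sep | row | fin | acc
  deriving DecidableEq

/-- The states. -/
inductive St : Type
  | ready | leaf | skip | popY | popX | push | done
  deriving DecidableEq

/-- The stack symbols. -/
inductive Stk : Type
  | bottom | mark | a
  deriving DecidableEq

/-- The moves: state, letter, top symbol. -/
def delta : St → Sg → Stk → Option (St × List Stk)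
  | .ready, .beg, X => some (.leaf, [.mark, X])
  | .ready, .tab, X => some (.popY, [X])
  | .ready, .acc, .mark => some (.done, [.mark])
  | .leaf, .zero, X => some (.leaf, [.a, X])
  | .leaf, .one, X => some (.skip, [X])
  | .skip, .zero, X => some (.skip, [X])
  | .skip, .one, X => some (.skip, [X])
  | .skip, .sep, X => some (.skip, [X])
  | .skip, .row, X => some (.skip, [X])
  | .skip, .fin, X => some (.ready, [X])
  | .popY, .zero, X => some (.popY, [X])
  | .popY, .sep, X => some (.popY, [X])
  | .popY, .row, .a => some (.popY, [])
  | .popY, .row, .mark => some (.popX, [])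
  | .popX, .zero, X => some (.popX, [X])
  | .popX, .sep, .a => some (.popX, [])
  | .popX, .sep, .mark => some (.push, [.mark])
  | .push, .zero, X => some (.push, [.a, X])
  | .push, .sep, X => some (.skip, [X])
  | .push, .row, X => some (.skip, [X])
  | .push, .fin, X => some (.ready, [X])
  | _, _, _ => none

instance : Finite Sg := by
  refine Finite.of_injective (β := Fin 8)
    (fun q => match q with
      | .zero => 0 | .one => 1 | .beg => 2 | .tab => 3 | .sep => 4 | .row => 5 | .fin => 6
      | .acc => 7) ?_
  intro q q' h
  cases q <;> cases q' <;> first | rfl | (exact absurd h (by decide))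

instance : Finite St := by
  refine Finite.of_injective (β := Fin 7)
    (fun q => match q with
      | .ready => 0 | .leaf => 1 | .skip => 2 | .popY => 3 | .popX => 4 | .push => 5 | .done => 6) ?_
  intro q q' h
  cases q <;> cases q' <;> first | rfl | (exact absurd h (by decide))

instance : Finite Stk := by
  refine Finite.of_injective (β := Fin 3)
    (fun q => match q with
      | .bottom => 0 | .mark => 1 | .a => 2) ?_
  intro q q' h
  cases q <;> cases q' <;> first | rfl | (exact absurd h (by decide))

/-- The automaton: in every step the head moves to the right. -/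
def M : DPDA Sg where
  State := St
  Stack := Stk
  finite_state := inferInstance
  finite_stack := inferInstance
  start := .ready
  bottom := .bottom
  accepting q _ := q = .done
  next q c X := match c with
    | .letter s => (delta q s X).map (fun r => (r.1, Move.right, r.2))
    | _ => none

theorem M_right (q : M.State) (c : Cell Sg) (X : M.Stack) (q' : M.State) (mv : Move)
    (β : List M.Stack) (h : M.next q c X = some (q', mv, β)) : mv = Move.right := by
  cases c with
  | left => simp [M] at h
  | right => simp [M] at h
  | letter s =>
    simp only [M, Option.map_eq_some_iff, Prod.mk.injEq] at h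
    obtain ⟨r, -, -, h, -⟩ := h
    exact h.symm

/-- The run on a list of letters. -/
def run : List Sg → St × List Stk → Option (St × List Stk)
  | [], c => some c
  | s :: l, (q, X :: γ) => (delta q s X).bind (fun r => run l (r.1, r.2 ++ γ))
  | _ :: _, (_, []) => none

@[simp] theorem run_nil (c : St × List Stk) : run [] c = some c := by
  simp [run]

@[simp] theorem run_cons (s : Sg) (l : List Sg) (q : St) (X : Stk) (γ : List Stk) :
    run (s :: l) (q, X :: γ) = (delta q s X).bind (fun r => run l (r.1, r.2 ++ γ)) := rfl

@[simp] theorem run_cons_nil (s : Sg) (l : List Sg) (q : St) :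
    run (s :: l) (q, []) = none := rfl

theorem run_append (l l' : List Sg) : ∀ c : St × List Stk,
    run (l ++ l') c = (run l c).bind (run l') := by
  induction l with
  | nil => intro c; simp
  | cons s l ih =>
    rintro ⟨q, _ | ⟨X, γ⟩⟩
    · simp
    · simp only [List.cons_append, run_cons]
      cases delta q s X with
      | none => rfl
      | some r => simpa using ih _

theorem steps_run (x : List Sg) : ∀ (t i : ℕ) (q : St) (γ : List Stk)
    (c' : St × ℕ × List Stk), M.Steps x t (q, i + 1, γ) c' →
      run ((x.drop i).take t) (q, γ) = some (c'.1, c'.2.2) := by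
  intro t
  induction t with
  | zero =>
    intro i q γ c' h
    cases h
    simp
  | succ t ih =>
    intro i q γ c' h
    cases h with
    | head _ _ c₁ _ h1 h2 =>
      cases h1 with
      | mk _ _ X γ q' mv β h =>
        have hc : ∃ s, x[i]? = some s ∧ cell x (i + 1) = Cell.letter s := by
          cases hs : x[i]? with
          | none =>
            rw [show cell x (i + 1) = Cell.right by simp [cell, hs]] at h
            simp [M] at h
          | some s => exact ⟨s, rfl, by simp [cell, hs]⟩
        obtain ⟨s, hs, hcs⟩ := hc
        have hmv := M_right _ _ _ _ _ _ h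
        subst hmv
        rw [hcs] at h
        simp only [M, Option.map_eq_some_iff, Prod.mk.injEq, true_and] at h
        obtain ⟨⟨q₂, β₂⟩, h3, h4, h5⟩ := h
        simp only at h4 h5
        subst h4 h5
        have hi : i < x.length := by
          by_contra hcon
          rw [List.getElem?_eq_none (by omega)] at hs
          simp at hs
        have hmove : Move.right.apply x.length (i + 1) = i + 1 + 1 := by
          simp only [Move.apply]
          omega
        rw [hmove] at h2
        have h6 := ih (i + 1) _ _ _ h2
        have h7 : x.drop i = s :: x.drop (i + 1) := by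
          rw [List.drop_eq_getElem_cons hi]
          congr 1
          rw [List.getElem?_eq_getElem hi] at hs
          simpa using hs
        rw [h7, List.take_succ_cons]
        change run (s :: List.take t (List.drop (i + 1) x))
          (q, (show Stk from X) :: (show List Stk from γ)) = _
        rw [run_cons, h3]
        exact h6

theorem run_steps (x : List Sg) : ∀ (t i : ℕ) (q : St) (γ : List Stk) (q' : St)
    (γ' : List Stk), i + t ≤ x.length → run ((x.drop i).take t) (q, γ) = some (q', γ') →
      M.Steps x t (q, i + 1, γ) (q', i + 1 + t, γ') := by
  intro t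
  induction t with
  | zero =>
    intro i q γ q' γ' _ h
    simp only [List.take_zero, run_nil, Option.some.injEq, Prod.mk.injEq] at h
    obtain ⟨rfl, rfl⟩ := h
    exact DPDA.Steps.refl _
  | succ t ih =>
    intro i q γ q' γ' hit h
    have hi : i < x.length := by omega
    have h7 : x.drop i = x[i] :: x.drop (i + 1) := List.drop_eq_getElem_cons hi
    rw [h7, List.take_succ_cons] at h
    cases γ with
    | nil => simp at h
    | cons X γ =>
      rw [run_cons] at h
      cases h3 : delta q x[i] X with
      | none => rw [h3] at h; simp at h
      | some r =>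
        rw [h3] at h
        simp only [Option.bind_some] at h
        have h4 := ih (i + 1) _ _ _ _ (by omega) h
        refine DPDA.Steps.head t _ (r.1, i + 1 + 1, r.2 ++ γ) _ ?_ ?_
        · have hmove : Move.right.apply x.length (i + 1) = i + 1 + 1 := by
            simp only [Move.apply]
            omega
          have := DPDA.Step.mk (M := M) (x := x) q (i + 1) X γ r.1 Move.right r.2 (by
            have hcs : cell x (i + 1) = Cell.letter x[i] := by
              simp [cell, List.getElem?_eq_getElem hi]
            rw [hcs]
            simp [M, h3])
          rw [hmove] at this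
          exact this
        · have : i + 1 + (t + 1) = i + 1 + 1 + t := by omega
          rw [this]
          exact h4

theorem accepts_iff (x : List Sg) : M.Accepts x ↔
    ∃ t, t ≤ x.length ∧ ∃ γ, run (x.take t) (.ready, [.bottom]) = some (.done, γ) := by
  constructor
  · rintro ⟨t, l, q, i, γ, h1, -, h2⟩
    have h2' : q = St.done := h2
    subst h2'
    have h3 := steps_run x t 0 _ _ _ h1
    simp only [List.drop_zero] at h3
    by_cases ht : t ≤ x.length
    · exact ⟨t, ht, γ, h3⟩
    · refine ⟨x.length, le_rfl, γ, ?_⟩
      rw [List.take_of_length_le (by omega)] at h3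
      rw [List.take_length]
      exact h3
  · rintro ⟨t, ht, γ, h⟩
    have h' : run ((x.drop 0).take t) (.ready, [.bottom]) = some (.done, γ) := by
      simpa using h
    have h1 := run_steps x t 0 _ _ _ _ (by omega) h'
    exact ⟨t, _, _, _, _, h1, rfl, rfl⟩

/-- Without the letter `acc` the state `done` is not reached. -/
theorem run_ne_done (l : List Sg) (hl : Sg.acc ∉ l) : ∀ (q : St) (γ : List Stk), q ≠ .done →
    ∀ c, run l (q, γ) = some c → c.1 ≠ .done := by
  induction l with
  | nil =>
    intro q γ hq c h
    simp only [run_nil, Option.some.injEq] at h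
    subst h
    exact hq
  | cons s l ih =>
    intro q γ hq c h
    have hl' : Sg.acc ∉ l := fun h' => hl (List.mem_cons_of_mem _ h')
    have hs : s ≠ Sg.acc := fun h' => hl (h' ▸ List.mem_cons_self)
    cases γ with
    | nil => simp at h
    | cons X γ =>
      rw [run_cons] at h
      cases h3 : delta q s X with
      | none => rw [h3] at h; simp at h
      | some r =>
        rw [h3] at h
        simp only [Option.bind_some] at h
        refine ih hl' _ _ ?_ _ h
        intro hr
        obtain ⟨r1, r2⟩ := r
        simp only at hr
        subst hr
        cases q <;> cases s <;> cases X <;> simp_all [delta]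

theorem accepts_word (l r : List Sg) (hl : Sg.acc ∉ l) (v : ℕ) (γ : List Stk)
    (h : run l (.ready, [.bottom]) = some (.ready, List.replicate v .a ++ .mark :: γ)) :
    M.Accepts (l ++ Sg.acc :: r) ↔ v = 0 := by
  rw [accepts_iff]
  constructor
  · rintro ⟨t, -, γ', h'⟩
    by_cases ht : t ≤ l.length
    · exfalso
      rw [List.take_append_of_le_length ht] at h'
      exact run_ne_done _ (fun h'' => hl (List.mem_of_mem_take h'')) _ _ (by decide) _ h' rfl
    · rw [List.take_append, run_append, List.take_of_length_le (by omega), h] at h'
      obtain ⟨d, hd⟩ : ∃ d, t - l.length = d + 1 := ⟨t - l.length - 1, by omega⟩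
      rw [hd, List.take_succ_cons] at h'
      cases v with
      | zero => rfl
      | succ v =>
        rw [List.replicate_succ, List.cons_append] at h'
        simp [delta] at h'
  · rintro rfl
    refine ⟨l.length + 1, by simp, .mark :: γ, ?_⟩
    have : (l ++ Sg.acc :: r).take (l.length + 1) = l ++ [Sg.acc] := by
      rw [List.take_append]
      simp
    rw [this, run_append, h]
    simp [delta]

/-! ### Runs on the parts of a word -/

theorem run_skip (l : List Sg) (hl : ∀ s ∈ l, s = .zero ∨ s = .one ∨ s = .sep ∨ s = .row)
    (X : Stk) (γ : List Stk) : run l (.skip, X :: γ) = some (.skip, X :: γ) := by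
  induction l with
  | nil => simp
  | cons s l ih =>
    have h1 := ih (fun s hs => hl s (List.mem_cons_of_mem _ hs))
    rcases hl s List.mem_cons_self with rfl | rfl | rfl | rfl <;> simpa [delta] using h1

theorem run_popY (l : List Sg) (hl : ∀ s ∈ l, s = .zero ∨ s = .sep)
    (X : Stk) (γ : List Stk) : run l (.popY, X :: γ) = some (.popY, X :: γ) := by
  induction l with
  | nil => simp
  | cons s l ih =>
    have h1 := ih (fun s hs => hl s (List.mem_cons_of_mem _ hs))
    rcases hl s List.mem_cons_self with rfl | rfl <;> simpa [delta] using h1

theorem run_popX_zeros (v : ℕ) (X : Stk) (γ : List Stk) :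
    run (List.replicate v .zero) (.popX, X :: γ) = some (.popX, X :: γ) := by
  induction v with
  | zero => simp
  | succ v ih => simpa [List.replicate_succ, delta] using ih

theorem run_push_zeros (v : ℕ) : ∀ (X : Stk) (γ : List Stk),
    run (List.replicate v .zero) (.push, X :: γ) =
      some (.push, List.replicate v .a ++ X :: γ) := by
  induction v with
  | zero => intro X γ; simp
  | succ v ih =>
    intro X γ
    rw [List.replicate_succ, run_cons]
    simp only [delta, Option.bind_some, List.cons_append, List.nil_append]
    rw [ih, List.replicate_succ', List.append_assoc]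
    rfl

/-- The word of a row of a table. -/
def rowW (r : List ℕ) : List Sg := r.flatMap fun v => .sep :: List.replicate v .zero

/-- The word of a list of rows. -/
def tabW (rows : List (List ℕ)) : List Sg := rows.flatMap fun r => .row :: rowW r

theorem mem_rowW {r : List ℕ} {s : Sg} (h : s ∈ rowW r) : s = .zero ∨ s = .sep := by
  rw [rowW, List.mem_flatMap] at h
  obtain ⟨v, -, h⟩ := h
  rw [List.mem_cons, List.mem_replicate] at h
  rcases h with h | ⟨-, h⟩
  · exact Or.inr h
  · exact Or.inl h

theorem mem_tabW {rows : List (List ℕ)} {s : Sg} (h : s ∈ tabW rows) :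
    s = .zero ∨ s = .sep ∨ s = .row := by
  rw [tabW, List.mem_flatMap] at h
  obtain ⟨r, -, h⟩ := h
  rw [List.mem_cons] at h
  rcases h with h | h
  · exact Or.inr (Or.inr h)
  · rcases mem_rowW h with h | h
    · exact Or.inl h
    · exact Or.inr (Or.inl h)

theorem run_popX_row (r : List ℕ) : ∀ (x v : ℕ) (γ : List Stk), r[x]? = some v →
    ∃ q : St, (q = .push ∨ q = .skip) ∧
      run (rowW r) (.popX, List.replicate x .a ++ .mark :: γ) =
        some (q, List.replicate v .a ++ .mark :: γ) := by
  induction r with
  | nil => intro x v γ h; simp at h
  | cons v₀ r ih =>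
    intro x v γ h
    have e : rowW (v₀ :: r) = .sep :: (List.replicate v₀ .zero ++ rowW r) := by
      simp [rowW]
    rw [e]
    cases x with
    | zero =>
      simp only [List.getElem?_cons_zero, Option.some.injEq] at h
      subst h
      simp only [List.replicate_zero, List.nil_append, run_cons, delta, Option.bind_some,
        List.cons_append]
      rw [run_append, run_push_zeros]
      simp only [Option.bind_some]
      cases r with
      | nil => exact ⟨.push, Or.inl rfl, by simp [rowW]⟩
      | cons v₁ r =>
        refine ⟨.skip, Or.inr rfl, ?_⟩
        have e1 : rowW (v₁ :: r) = .sep :: (List.replicate v₁ .zero ++ rowW r) := by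
          simp [rowW]
        rw [e1]
        obtain ⟨X, γ', hX⟩ : ∃ X γ', List.replicate v₀ Stk.a ++ Stk.mark :: γ = X :: γ' := by
          cases v₀ with
          | zero => exact ⟨_, _, rfl⟩
          | succ v => exact ⟨_, _, rfl⟩
        rw [hX, run_cons]
        simp only [delta, Option.bind_some, List.cons_append, List.nil_append]
        refine run_skip _ ?_ _ _
        intro s hs
        rw [List.mem_append, List.mem_replicate] at hs
        rcases hs with ⟨-, rfl⟩ | hs
        · exact Or.inl rfl
        · rcases mem_rowW hs with rfl | rfl
          · exact Or.inl rfl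
          · exact Or.inr (Or.inr (Or.inl rfl))
    | succ x =>
      simp only [List.getElem?_cons_succ] at h
      obtain ⟨q, hq, h1⟩ := ih x v γ h
      refine ⟨q, hq, ?_⟩
      rw [List.replicate_succ, List.cons_append, run_cons]
      simp only [delta, Option.bind_some, List.nil_append]
      obtain ⟨X, γ', hX⟩ : ∃ X γ', List.replicate x Stk.a ++ Stk.mark :: γ = X :: γ' := by
        cases x with
        | zero => exact ⟨_, _, rfl⟩
        | succ v => exact ⟨_, _, rfl⟩
      rw [hX] at h1 ⊢
      rw [run_append, run_popX_zeros]
      exact h1

theorem run_after (rows : List (List ℕ)) (q : St) (hq : q = .push ∨ q = .skip) (X : Stk)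
    (γ : List Stk) : run (tabW rows ++ [.fin]) (q, X :: γ) = some (.ready, X :: γ) := by
  cases rows with
  | nil => rcases hq with rfl | rfl <;> simp [tabW, delta]
  | cons r rows =>
    have e : tabW (r :: rows) ++ [.fin] = .row :: ((rowW r ++ tabW rows) ++ [.fin]) := by
      simp [tabW]
    have h1 : run ((rowW r ++ tabW rows) ++ [.fin]) (.skip, X :: γ) =
        some (.ready, X :: γ) := by
      rw [run_append, run_skip]
      · simp [delta]
      · intro s hs
        rw [List.mem_append] at hs
        rcases hs with hs | hs
        · rcases mem_rowW hs with rfl | rfl <;> simp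
        · rcases mem_tabW hs with rfl | rfl | rfl <;> simp
    rw [e]
    rcases hq with rfl | rfl <;> simpa [delta] using h1

theorem run_popY_tab (rows : List (List ℕ)) : ∀ (y : ℕ) (r : List ℕ) (x v : ℕ) (γ : List Stk),
    rows[y]? = some r → r[x]? = some v →
      run (tabW rows ++ [.fin])
        (.popY, List.replicate y .a ++ .mark :: (List.replicate x .a ++ .mark :: γ)) =
          some (.ready, List.replicate v .a ++ .mark :: γ) := by
  induction rows with
  | nil => intro y r x v γ h; simp at h
  | cons r₀ rows ih =>
    intro y r x v γ h h'
    have e : tabW (r₀ :: rows) ++ [.fin] = .row :: (rowW r₀ ++ (tabW rows ++ [.fin])) := by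
      simp [tabW]
    rw [e]
    cases y with
    | zero =>
      simp only [List.getElem?_cons_zero, Option.some.injEq] at h
      subst h
      simp only [List.replicate_zero, List.nil_append, run_cons, delta, Option.bind_some]
      obtain ⟨q, hq, h1⟩ := run_popX_row r₀ x v γ h'
      rw [run_append, h1]
      simp only [Option.bind_some]
      obtain ⟨X, γ', hX⟩ : ∃ X γ', List.replicate v Stk.a ++ Stk.mark :: γ = X :: γ' := by
        cases v with
        | zero => exact ⟨_, _, rfl⟩
        | succ v => exact ⟨_, _, rfl⟩
      rw [hX]
      exact run_after rows q hq X γ'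
    | succ y =>
      simp only [List.getElem?_cons_succ] at h
      have h1 := ih y r x v γ h h'
      rw [List.replicate_succ, List.cons_append, run_cons]
      simp only [delta, Option.bind_some, List.nil_append]
      obtain ⟨X, γ', hX⟩ : ∃ X γ', List.replicate y Stk.a ++
          Stk.mark :: (List.replicate x Stk.a ++ Stk.mark :: γ) = X :: γ' := by
        cases y with
        | zero => exact ⟨_, _, rfl⟩
        | succ v => exact ⟨_, _, rfl⟩
      rw [hX] at h1 ⊢
      rw [run_append, run_popY _ (fun s hs => mem_rowW hs)]
      exact h1

/-- The word of a table. -/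
def table (rows : List (List ℕ)) : List Sg := .tab :: (tabW rows ++ [.fin])

theorem run_table (rows : List (List ℕ)) (y : ℕ) (r : List ℕ) (x v : ℕ) (γ : List Stk)
    (h : rows[y]? = some r) (h' : r[x]? = some v) :
    run (table rows)
      (.ready, List.replicate y .a ++ .mark :: (List.replicate x .a ++ .mark :: γ)) =
        some (.ready, List.replicate v .a ++ .mark :: γ) := by
  have h1 := run_popY_tab rows y r x v γ h h'
  obtain ⟨X, γ', hX⟩ : ∃ X γ', List.replicate y Stk.a ++
      Stk.mark :: (List.replicate x Stk.a ++ Stk.mark :: γ) = X :: γ' := by
    cases y with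
    | zero => exact ⟨_, _, rfl⟩
    | succ v => exact ⟨_, _, rfl⟩
  rw [hX] at h1 ⊢
  rw [table, run_cons]
  simp only [delta, Option.bind_some, List.cons_append, List.nil_append]
  exact h1

theorem run_bits (v m : ℕ) : ∀ (s : ℕ) (γ : List Stk), s ≤ v → v < s + m → γ ≠ [] →
    run ((List.range' s m).map fun j => if v = j then Sg.one else Sg.zero)
      (.leaf, List.replicate s .a ++ γ) = some (.skip, List.replicate v .a ++ γ) := by
  induction m with
  | zero => intro s γ h1 h2; omega
  | succ m ih =>
    intro s γ h1 h2 h3
    obtain ⟨X, γ', hX⟩ : ∃ X γ', List.replicate s Stk.a ++ γ = X :: γ' := by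
      cases s with
      | zero =>
        cases γ with
        | nil => exact absurd rfl h3
        | cons X γ => exact ⟨_, _, rfl⟩
      | succ v => exact ⟨_, _, rfl⟩
    rw [List.range'_succ, List.map_cons]
    rcases Nat.lt_or_ge s v with h4 | h4
    · rw [if_neg (by omega), hX, run_cons]
      simp only [delta, Option.bind_some, List.cons_append, List.nil_append]
      rw [← hX]
      have := ih (s + 1) γ (by omega) (by omega) h3
      rw [List.replicate_succ, List.cons_append] at this
      exact this
    · have h5 : v = s := by omega
      subst h5
      rw [if_pos rfl, hX, run_cons]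
      simp only [delta, Option.bind_some, List.cons_append, List.nil_append]
      refine run_skip _ ?_ _ _
      intro s hs
      rw [List.mem_map] at hs
      obtain ⟨j, -, rfl⟩ := hs
      split_ifs <;> simp

theorem run_leaf (v N : ℕ) (hv : v < N) (γ : List Stk) (hγ : γ ≠ []) :
    run (.beg :: (((List.range N).map fun j => if v = j then Sg.one else Sg.zero) ++ [.fin]))
      (.ready, γ) = some (.ready, List.replicate v .a ++ .mark :: γ) := by
  obtain ⟨X, γ', rfl⟩ : ∃ X γ', γ = X :: γ' := by
    cases γ with
    | nil => exact absurd rfl hγ
    | cons X γ => exact ⟨_, _, rfl⟩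
  rw [run_cons]
  simp only [delta, Option.bind_some, List.cons_append, List.nil_append]
  have h1 := run_bits v N 0 (.mark :: X :: γ') (by omega) (by omega) (by simp)
  rw [List.replicate_zero, List.nil_append, ← List.range_eq_range'] at h1
  rw [run_append, h1]
  obtain ⟨Y, δ, hY⟩ : ∃ Y δ, List.replicate v Stk.a ++ Stk.mark :: X :: γ' = Y :: δ := by
    cases v with
    | zero => exact ⟨_, _, rfl⟩
    | succ v => exact ⟨_, _, rfl⟩
  rw [hY]
  simp [delta]

end Pool.Agent.Lib.MP_9277c3_lc.RKT.A4
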