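import Pool.Agent.Lib.MP_9277c3_lc.RKT.Spec

section
/-!
# Read-k-times branching programs: module M1 (virtual occurrences)
-/
namespace Pool.Agent.Lib.MP_9277c3_lc

namespace NBP

variable {α : Type} {n : ℕ} {B : NBP α n}

theorem Walk.append {a b c : Fin B.size} {l l' : List (Option (Fin n × α))}
    (h : B.Walk a l b) (h' : B.Walk b l' c) : B.Walk a (l ++ l') c := by
  induction h with
  | nil u => exact h'
  | cons u x v ls w h _ ih => exact Walk.cons _ _ _ _ _ h (ih h')

theorem Walk.le {a b : Fin B.size} {l : List (Option (Fin n × α))} (h : B.Walk a l b) :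
    a ≤ b := by
  induction h with
  | nil u => exact le_refl _
  | cons u x v ls w h _ ih => exact (B.acyclic _ _ _ h).le.trans ih

theorem Walk.lt {a b : Fin B.size} {x : Option (Fin n × α)} {l : List (Option (Fin n × α))}
    (h : B.Walk a (x :: l) b) : a < b := by
  cases h with
  | cons u x v ls w h h' => exact (B.acyclic _ _ _ h).trans_le h'.le

theorem not_reads_self (a : Fin B.size) (i : Fin n) : ¬ B.Reads a i a := by
  rintro ⟨ls, h, c, hc⟩
  cases ls with
  | nil => simp at hc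
  | cons x l => exact absurd h.lt (lt_irrefl _)

/-- The nodes of a walk. -/
theorem Walk.nodes {a b : Fin B.size} {ls : List (Option (Fin n × α))} (h : B.Walk a ls b) :
    ∃ u : ℕ → Fin B.size, u 0 = a ∧ u ls.length = b ∧
      ∀ p (hp : p < ls.length), B.edge (u p) ls[p] (u (p + 1)) := by
  induction h with
  | nil u => exact ⟨fun _ => u, rfl, rfl, fun p hp => absurd hp (by simp)⟩
  | cons u x v ls w h _ ih =>
    obtain ⟨f, h0, h1, h2⟩ := ih
    refine ⟨fun p => match p with | 0 => u | p + 1 => f p, rfl, h1, ?_⟩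
    intro p hp
    cases p with
    | zero =>
      simp only [List.getElem_cons_zero]
      rw [h0]
      exact h
    | succ p =>
      simp only [List.getElem_cons_succ]
      exact h2 p (by simpa using hp)

theorem walk_of_edges {T : ℕ} {u : ℕ → Fin B.size} {lab : ℕ → Option (Fin n × α)}
    (h : ∀ p, 1 ≤ p → p ≤ T → B.edge (u (p - 1)) (lab p) (u p)) :
    ∀ d p, p + d ≤ T → ∃ ls, B.Walk (u p) ls (u (p + d)) := by
  intro d
  induction d with
  | zero => exact fun p _ => ⟨[], Walk.nil _⟩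
  | succ d ih =>
    intro p hp
    obtain ⟨ls, h1⟩ := ih (p + 1) (by omega)
    have h2 := h (p + 1) (by omega) (by omega)
    rw [Nat.add_sub_cancel] at h2
    refine ⟨lab (p + 1) :: ls, Walk.cons _ _ _ _ _ h2 ?_⟩
    have e : p + 1 + d = p + (d + 1) := by omega
    rw [← e]
    exact h1

end NBP

namespace RKT

theorem specM1 : SpecM1 := by
  classical
  intro α n k B hB x hx
  obtain ⟨ls, hw, hc⟩ := hx
  obtain ⟨u, h0, hT, hedge⟩ := hw.nodes
  let lab : ℕ → Option (Fin n × α) := fun p => if hp : p - 1 < ls.length then ls[p - 1] else none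
  have hlab : ∀ p, 1 ≤ p → p ≤ ls.length → B.edge (u (p - 1)) (lab p) (u p) := by
    intro p h1 h2
    have hp : p - 1 < ls.length := by omega
    have := hedge (p - 1) hp
    rw [show p - 1 + 1 = p by omega] at this
    simp only [lab, dif_pos hp]
    exact this
  have hwalk : ∀ a b, a ≤ b → b ≤ ls.length → ∃ l, B.Walk (u a) l (u b) := by
    intro a b hab hb
    obtain ⟨l, hl⟩ := NBP.walk_of_edges hlab (b - a) a (by omega)
    rw [show a + (b - a) = b by omega] at hl
    exact ⟨l, hl⟩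
  have hpre : ∀ a a' b i, a ≤ a' → a' ≤ ls.length → B.Reads (u a') i (u b) →
      B.Reads (u a) i (u b) := by
    rintro a a' b i h1 h2 ⟨l, hl, c, hc⟩
    obtain ⟨l', hl'⟩ := hwalk a a' h1 h2
    exact ⟨l' ++ l, hl'.append hl, c, List.mem_append_right _ hc⟩
  have key : ∀ (i : Fin n) (m e : ℕ), e ≤ ls.length → ls.length - e = m →
      ∃ O : Finset ℕ, O ⊆ Finset.Icc (e + 1) ls.length ∧
        (∃ l, B.Walk (u e) l (u ls.length) ∧
          O.card ≤ l.countP (fun l => l.map Prod.fst = some i)) ∧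
        ∀ a b, e ≤ a → a ≤ b → b ≤ ls.length → B.Reads (u a) i (u b) →
          ∃ p ∈ O, a < p ∧ p ≤ b := by
    intro i m
    induction m using Nat.strong_induction_on with
    | _ m ih =>
      intro e he hm
      have hlt : ∀ a b, e ≤ a → a ≤ b → B.Reads (u a) i (u b) → e < b := by
        intro a b h1 h2 h3
        rcases Nat.lt_or_ge e b with h | h
        · exact h
        · have e1 : a = b := by omega
          subst e1
          exact absurd h3 (NBP.not_reads_self _ _)
      by_cases hex : ∃ p, e < p ∧ p ≤ ls.length ∧ B.Reads (u e) i (u p)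
      · have hmin := fun p h => Nat.find_min' hex (m := p) h
        obtain ⟨p1, p2, l1, hl1, c, hcl⟩ := Nat.find_spec hex
        set p := Nat.find hex with hp
        obtain ⟨O, o1, ⟨l2, hl2, o2⟩, o3⟩ := ih (ls.length - p) (by omega) p p2 rfl
        refine ⟨insert p O, ?_, ⟨l1 ++ l2, hl1.append hl2, ?_⟩, ?_⟩
        · intro q hq
          rw [Finset.mem_insert] at hq
          rw [Finset.mem_Icc]
          rcases hq with rfl | hq
          · omega
          · have := Finset.mem_Icc.1 (o1 hq)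
            omega
        · rw [List.countP_append]
          have h1 : 0 < l1.countP (fun l => l.map Prod.fst = some i) := by
            rw [List.countP_pos_iff]
            exact ⟨_, hcl, by simp⟩
          have := Finset.card_insert_le p O
          omega
        · intro a b h1 h2 h3 h4
          rcases Nat.lt_or_ge a p with h5 | h5
          · refine ⟨p, Finset.mem_insert_self _ _, h5, ?_⟩
            exact hmin b ⟨hlt a b h1 h2 h4, h3, hpre e a b i h1 (h2.trans h3) h4⟩
          · obtain ⟨q, hq, hq2⟩ := o3 a b h5 h2 h3 h4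
            exact ⟨q, Finset.mem_insert_of_mem hq, hq2⟩
      · obtain ⟨l, hl⟩ := hwalk e ls.length he le_rfl
        refine ⟨∅, Finset.empty_subset _, ⟨l, hl, by simp⟩, ?_⟩
        intro a b h1 h2 h3 h4
        exact absurd ⟨b, hlt a b h1 h2 h4, h3, hpre e a b i h1 (h2.trans h3) h4⟩ hex
  choose O o1 o2 o3 using fun i => key i ls.length 0 (Nat.zero_le _) (by simp)
  refine ⟨ls.length, u, lab, O, h0, hT, hlab, ?_, ?_, ?_, ?_⟩
  · intro p h1 h2 i a h3
    have hp : p - 1 < ls.length := by omega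
    simp only [lab, dif_pos hp] at h3
    exact hc i a (h3 ▸ List.getElem_mem hp)
  · intro i
    simpa using o1 i
  · intro i
    obtain ⟨l, hl, hcard⟩ := o2 i
    rw [h0, hT] at hl
    exact hcard.trans (hB l hl i)
  · intro a b i hab hb h
    exact o3 i a b (Nat.zero_le _) hab hb h

end RKT

end Pool.Agent.Lib.MP_9277c3_lc
end

section
/-!
# Word lemma, part a: nodes and embedded trees
-/
namespace Pool.Agent.Lib.MP_9277c3_lc.RKT

open Finset

/-- The number of `x` with `P x`. -/
noncomputable def cnt {X : Type} (P : X → Prop) : ℕ := {x | P x}.ncard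

section cnt

variable {X : Type} [Fintype X]

theorem cnt_mono {P Q : X → Prop} (h : ∀ x, P x → Q x) : cnt P ≤ cnt Q :=
  Set.ncard_le_ncard (fun x hx => h x hx) (Set.toFinite _)

theorem cnt_congr {P Q : X → Prop} (h : ∀ x, P x ↔ Q x) : cnt P = cnt Q :=
  le_antisymm (cnt_mono fun x => (h x).1) (cnt_mono fun x => (h x).2)

theorem cnt_true : cnt (fun _ : X => True) = Fintype.card X := by
  unfold cnt
  rw [Set.ofPred_true, Set.ncard_univ, Nat.card_eq_fintype_card]

theorem cnt_eq_zero {P : X → Prop} : cnt P = 0 ↔ ∀ x, ¬P x := by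
  unfold cnt
  rw [Set.ncard_eq_zero (Set.toFinite _), Set.eq_empty_iff_forall_notMem]
  rfl

theorem cnt_pos {P : X → Prop} : 0 < cnt P ↔ ∃ x, P x := by
  rw [Nat.pos_iff_ne_zero, Ne, cnt_eq_zero]
  push Not
  rfl

omit [Fintype X] in
theorem cnt_or_le (P Q : X → Prop) : cnt (fun x => P x ∨ Q x) ≤ cnt P + cnt Q :=
  Set.ncard_union_le {x | P x} {x | Q x}

theorem cnt_add_not (P Q : X → Prop) :
    cnt (fun x => P x ∧ Q x) + cnt (fun x => P x ∧ ¬Q x) = cnt P := by
  unfold cnt
  rw [← Set.ncard_union_eq (s := {x | P x ∧ Q x}) (t := {x | P x ∧ ¬Q x}) ?_ (Set.toFinite _)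
    (Set.toFinite _)]
  · congr 1
    ext x
    simp only [Set.mem_union, Set.mem_ofPred_eq]
    tauto
  · rw [Set.disjoint_left]
    intro x hx hx'
    exact hx'.2 hx.2

end cnt

/-- The leaf `x` is below the node `v`. -/
def Under : (h : ℕ) → List Bool → Lf h → Prop
  | _, [], _ => True
  | 0, _ :: _, _ => False
  | h + 1, a :: v, Lf.cons b x => b = a ∧ Under h v x

theorem card_Lf : ∀ h, Fintype.card (Lf h) = 2 ^ h
  | 0 => rfl
  | h + 1 => by
    rw [← Fintype.card_congr (Lf.equiv h), Fintype.card_prod, Fintype.card_bool, card_Lf h,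
      pow_succ]
    ring

theorem cnt_split {h : ℕ} (P : Lf (h + 1) → Prop) :
    cnt P = cnt (fun y : Lf h => P (Lf.cons false y)) +
      cnt (fun y : Lf h => P (Lf.cons true y)) := by
  unfold cnt
  have hu : {x | P x} = (Lf.cons false '' {y : Lf h | P (Lf.cons false y)}) ∪
      (Lf.cons true '' {y : Lf h | P (Lf.cons true y)}) := by
    ext x
    cases x with
    | cons a y => cases a <;> simp
  rw [hu, Set.ncard_union_eq ?_ (Set.toFinite _) (Set.toFinite _),
    Set.ncard_image_of_injective _ fun x y hxy => (Lf.cons.inj hxy).2,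
    Set.ncard_image_of_injective _ fun x y hxy => (Lf.cons.inj hxy).2]
  rw [Set.disjoint_left]
  rintro x ⟨y, _, rfl⟩ ⟨z, _, hz⟩
  exact absurd (Lf.cons.inj hz).1 (by decide)

theorem cnt_cons {h : ℕ} (a : Bool) (P : Lf (h + 1) → Prop) (hP : ∀ b y, P (Lf.cons b y) → b = a) :
    cnt P = cnt (fun y : Lf h => P (Lf.cons a y)) := by
  rw [cnt_split]
  cases a
  · have : cnt (fun y : Lf h => P (Lf.cons true y)) = 0 := by
      rw [cnt_eq_zero]; intro y hy; exact absurd (hP _ _ hy) (by decide)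
    rw [this, add_zero]
  · have : cnt (fun y : Lf h => P (Lf.cons false y)) = 0 := by
      rw [cnt_eq_zero]; intro y hy; exact absurd (hP _ _ hy) (by decide)
    rw [this, zero_add]

theorem cnt_under : ∀ (h : ℕ) (v : List Bool), v.length ≤ h →
    cnt (fun x : Lf h => Under h v x) = 2 ^ (h - v.length)
  | h, [], _ => by
    have : cnt (fun x : Lf h => Under h [] x) = cnt (fun _ : Lf h => True) :=
      cnt_congr fun x => by simp [Under]
    rw [this, cnt_true, card_Lf]; simp
  | 0, _ :: _, hv => by simp at hv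
  | h + 1, a :: v, hv => by
    have hv' : v.length ≤ h := by simpa using hv
    rw [cnt_cons a _ fun b y hy => hy.1]
    have : cnt (fun y : Lf h => Under (h + 1) (a :: v) (Lf.cons a y)) =
        cnt (fun y : Lf h => Under h v y) := cnt_congr fun x => by simp [Under]
    rw [this, cnt_under h v hv']
    simp

/-- If `P` has density at least `1 / c` below each node of depth `d`, then also in the whole
tree. -/
theorem density_sum (c : ℕ) : ∀ (d h : ℕ) (P : Lf h → Prop), d ≤ h →
    (∀ v : List Bool, v.length = d → 2 ^ (h - d) ≤ c * cnt (fun x : Lf h => Under h v x ∧ P x)) →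
    2 ^ h ≤ c * cnt P
  | 0, h, P, _, hP => by
    have := hP [] rfl
    rw [Nat.sub_zero] at this
    exact le_trans this (Nat.mul_le_mul_left c (cnt_mono fun x hx => hx.2))
  | d + 1, 0, P, hd, _ => by simp at hd
  | d + 1, h + 1, P, hd, hP => by
    have hd' : d ≤ h := by simpa using hd
    have key : ∀ a : Bool, 2 ^ h ≤ c * cnt (fun y : Lf h => P (Lf.cons a y)) := by
      intro a
      apply density_sum c d h (fun y => P (Lf.cons a y)) hd'
      intro v hv
      have h1 := hP (a :: v) (by simp [hv])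
      rw [cnt_cons a _ fun b y hy => hy.1.1] at h1
      have h2 : h + 1 - (d + 1) = h - d := by omega
      rw [h2] at h1
      exact le_trans h1 (Nat.mul_le_mul_left c (cnt_mono fun x hx => ⟨hx.1.2, hx.2⟩))
    rw [cnt_split]
    have h1 := key false
    have h2 := key true
    rw [pow_succ, mul_add]
    omega

theorem lca_zero (x y : Lf 0) : lca 0 x y = 0 := by cases x; cases y; rfl

theorem lca_cons {h : ℕ} (a b : Bool) (x y : Lf h) :
    lca (h + 1) (Lf.cons a x) (Lf.cons b y) = if a = b then lca h x y + 1 else 0 := rfl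

theorem lca_self : ∀ (h : ℕ) (x : Lf h), lca h x x = h
  | 0, x => lca_zero x x
  | h + 1, Lf.cons a x => by simp [lca_cons, lca_self h x]

theorem lca_le : ∀ (h : ℕ) (x y : Lf h), lca h x y ≤ h
  | 0, x, y => (lca_zero x y).le
  | h + 1, Lf.cons a x, Lf.cons b y => by
    rw [lca_cons]
    split_ifs
    · exact Nat.succ_le_succ (lca_le h x y)
    · exact Nat.zero_le _

theorem lca_under : ∀ (h : ℕ) (v u u' : List Bool) (a b : Bool) (x y : Lf h), a ≠ b →
    Under h (v ++ a :: u) x → Under h (v ++ b :: u') y → lca h x y = v.length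
  | 0, [], _, _, _, _, _, _, _, hx, _ => by simp [Under] at hx
  | 0, _ :: _, _, _, _, _, _, _, _, hx, _ => by simp [Under] at hx
  | h + 1, [], u, u', a, b, Lf.cons a' x, Lf.cons b' y, hab, hx, hy => by
    simp only [List.nil_append, Under] at hx hy
    have : a' ≠ b' := by rw [hx.1, hy.1]; exact hab
    simp [lca_cons, this]
  | h + 1, c :: v, u, u', a, b, Lf.cons a' x, Lf.cons b' y, hab, hx, hy => by
    simp only [List.cons_append, Under] at hx hy
    have : a' = b' := by rw [hx.1, hy.1]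
    have ih := lca_under h v u u' a b x y hab hx.2 hy.2
    simp [lca_cons, this, ih]

/-- Embeddings of complete binary trees. -/
def Emb {t h : ℕ} (f : Lf t → Lf h) : Prop :=
  (∀ x y z, lca t x y < lca t x z → lca h (f x) (f y) < lca h (f x) (f z)) ∧
    ∀ x y, lca t x y < t → lca h (f x) (f y) < h

theorem Emb.comp {t s h : ℕ} {f : Lf s → Lf h} {g : Lf t → Lf s} (hf : Emb f) (hg : Emb g) :
    Emb (fun x => f (g x)) :=
  ⟨fun x y z hx => hf.1 _ _ _ (hg.1 x y z hx), fun x y hx => hf.2 _ _ (hg.2 x y hx)⟩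

theorem Emb.chain {t h : ℕ} {f : Lf t → Lf h} (hf : Emb f) {m : ℕ} {l : Lf t} {b b' : ℕ → Lf t}
    (hc : Chain t m l b b') : Chain h m (f l) (fun i => f (b i)) (fun i => f (b' i)) :=
  ⟨fun i hi => hf.1 _ _ _ (hc.1 i hi), fun i hi => hf.2 _ _ (hc.2.1 i hi),
    fun i hi => hf.1 _ _ _ (hc.2.2 i hi)⟩

theorem Emb.cons {t h : ℕ} {f : Lf t → Lf h} (hf : Emb f) (a : Bool) :
    Emb (fun y => Lf.cons a (f y)) := by
  refine ⟨fun x y z hx => ?_, fun x y hx => ?_⟩
  · simpa [lca_cons] using hf.1 x y z hx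
  · simpa [lca_cons] using hf.2 x y hx

/-- The common extension of two embeddings. -/
def pairMap {t h : ℕ} (f g : Lf t → Lf h) : Lf (t + 1) → Lf (h + 1)
  | Lf.cons false y => Lf.cons false (f y)
  | Lf.cons true y => Lf.cons true (g y)

theorem Emb.pair {t h : ℕ} {f g : Lf t → Lf h} (hf : Emb f) (hg : Emb g) :
    Emb (pairMap f g) := by
  refine ⟨fun x y z hx => ?_, fun x y hx => ?_⟩
  · cases x with
    | cons a x => cases y with
      | cons b y => cases z with
        | cons c z =>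
          cases a <;> cases b <;> cases c <;> simp [lca_cons, pairMap] at hx ⊢
          · exact hf.1 x y z hx
          · exact hg.1 x y z hx
  · cases x with
    | cons a x => cases y with
      | cons b y =>
        cases a <;> cases b <;> simp [lca_cons, pairMap] at hx ⊢
        · exact hf.2 x y hx
        · exact hg.2 x y hx

theorem embed : ∀ (h : ℕ) (E : Lf h → Prop), (∃ x, E x) →
    ∃ (t : ℕ) (f : Lf t → Lf h), Emb f ∧ (∀ y, E (f y)) ∧ cnt E * 2 ^ h ≤ 2 ^ t * 3 ^ h
  | 0, E, hE => by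
    obtain ⟨e, he⟩ := hE
    refine ⟨0, fun x => x, ⟨fun x y z hx => by simp [lca_zero] at hx, fun x y hx => by simp at hx⟩,
      fun y => ?_, ?_⟩
    · have : y = e := by cases y; cases e; rfl
      rw [this]; exact he
    · have : cnt E ≤ 1 := by
        have h1 := cnt_mono (P := E) (Q := fun _ => True) fun _ _ => trivial
        rw [cnt_true, card_Lf 0] at h1
        simpa using h1
      simpa using this
  | h + 1, E, hE => by
    have hcard := cnt_split E
    by_cases h0 : ∃ y : Lf h, E (Lf.cons false y)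
    · by_cases h1 : ∃ y : Lf h, E (Lf.cons true y)
      · obtain ⟨t0, f0, hf0, hm0, hc0⟩ := embed h _ h0
        obtain ⟨t1, f1, hf1, hm1, hc1⟩ := embed h _ h1
        rcases lt_trichotomy t0 t1 with hlt | heq | hlt
        · refine ⟨t1, fun y => Lf.cons true (f1 y), hf1.cons true, fun y => hm1 y, ?_⟩
          have h2 : 2 * 2 ^ t0 ≤ 2 ^ t1 := by
            rw [← pow_succ']; exact Nat.pow_le_pow_right (by norm_num) hlt
          have h3 : 2 * 2 ^ t0 * 3 ^ h ≤ 2 ^ t1 * 3 ^ h := Nat.mul_le_mul_right _ h2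
          rw [hcard, pow_succ, pow_succ]
          nlinarith
        · subst heq
          refine ⟨t0 + 1, _, hf0.pair hf1, fun y => ?_, ?_⟩
          · cases y with
            | cons a y =>
              cases a
              · exact hm0 y
              · exact hm1 y
          · rw [hcard, pow_succ, pow_succ, pow_succ]
            nlinarith [Nat.zero_le (2 ^ t0 * 3 ^ h)]
        · refine ⟨t0, fun y => Lf.cons false (f0 y), hf0.cons false, fun y => hm0 y, ?_⟩
          have h2 : 2 * 2 ^ t1 ≤ 2 ^ t0 := by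
            rw [← pow_succ']; exact Nat.pow_le_pow_right (by norm_num) hlt
          have h3 : 2 * 2 ^ t1 * 3 ^ h ≤ 2 ^ t0 * 3 ^ h := Nat.mul_le_mul_right _ h2
          rw [hcard, pow_succ, pow_succ]
          nlinarith
      · obtain ⟨t, f, hf, hm, hc⟩ := embed h _ h0
        have hz : cnt (fun y : Lf h => E (Lf.cons true y)) = 0 :=
          cnt_eq_zero.2 fun y hy => h1 ⟨y, hy⟩
        refine ⟨t, fun y => Lf.cons false (f y), hf.cons false, fun y => hm y, ?_⟩
        rw [hcard, hz, add_zero, pow_succ, pow_succ]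
        nlinarith [Nat.zero_le (2 ^ t * 3 ^ h)]
    · have h1 : ∃ y : Lf h, E (Lf.cons true y) := by
        obtain ⟨x, hx⟩ := hE
        cases x with
        | cons a x =>
          cases a
          · exact absurd ⟨x, hx⟩ h0
          · exact ⟨x, hx⟩
      obtain ⟨t, f, hf, hm, hc⟩ := embed h _ h1
      have hz : cnt (fun y : Lf h => E (Lf.cons false y)) = 0 :=
        cnt_eq_zero.2 fun y hy => h0 ⟨y, hy⟩
      refine ⟨t, fun y => Lf.cons true (f y), hf.cons true, fun y => hm y, ?_⟩
      rw [hcard, hz, zero_add, pow_succ, pow_succ]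
      nlinarith [Nat.zero_le (2 ^ t * 3 ^ h)]

theorem embedNode : ∀ (v : List Bool) (h : ℕ) (E : Lf h → Prop), v.length ≤ h →
    (∀ x, E x → Under h v x) → (∃ x, E x) →
    ∃ (t : ℕ) (f : Lf t → Lf h), Emb f ∧ (∀ y, E (f y)) ∧
      cnt E * 2 ^ (h - v.length) ≤ 2 ^ t * 3 ^ (h - v.length)
  | [], h, E, _, _, hE => by simpa using embed h E hE
  | a :: v, 0, E, hv, _, _ => by simp at hv
  | a :: v, h + 1, E, hv, hu, hE => by
    have hv' : v.length ≤ h := by simpa using hv
    have hcard := cnt_cons a E fun b y hy => (hu _ hy).1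
    have hne : ∃ y : Lf h, E (Lf.cons a y) := by
      obtain ⟨x, hx⟩ := hE
      cases x with
      | cons b x =>
        have h1 := (hu _ hx).1
        subst h1
        exact ⟨x, hx⟩
    obtain ⟨t, f, hf, hm, hc⟩ := embedNode v h (fun y => E (Lf.cons a y)) hv'
      (fun y hy => (hu _ hy).2) hne
    refine ⟨t, fun y => Lf.cons a (f y), hf.cons a, fun y => hm y, ?_⟩
    rw [hcard]
    simpa using hc

/-- From `4 ^ a ≤ 2 ^ κ * 2 ^ t * 3 ^ a`, a linear lower bound for `t`. -/
theorem pow_bound (a κ t : ℕ) (h : 4 ^ a < 2 ^ κ * (2 ^ t * 3 ^ a)) : a < 3 * (t + κ) := by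
  by_contra hcon
  have hge : 3 * (t + κ) ≤ a := not_lt.mp hcon
  obtain ⟨r, rfl⟩ := Nat.exists_eq_add_of_le hge
  have h1 : 2 ^ (t + κ) * 27 ^ (t + κ) ≤ 64 ^ (t + κ) := by
    rw [← mul_pow]; exact Nat.pow_le_pow_left (by norm_num) _
  have h2 : (3 : ℕ) ^ r ≤ 4 ^ r := Nat.pow_le_pow_left (by norm_num) _
  have h3 : (4 : ℕ) ^ (3 * (t + κ) + r) = 64 ^ (t + κ) * 4 ^ r := by
    rw [pow_add, pow_mul]; norm_num
  have h4 : (3 : ℕ) ^ (3 * (t + κ) + r) = 27 ^ (t + κ) * 3 ^ r := by
    rw [pow_add, pow_mul]; norm_num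
  rw [h3, h4] at h
  have h5 : 2 ^ κ * (2 ^ t * (27 ^ (t + κ) * 3 ^ r)) = (2 ^ (t + κ) * 27 ^ (t + κ)) * 3 ^ r := by
    rw [pow_add 2 t κ]; ring
  rw [h5] at h
  exact absurd h (not_lt.mpr (Nat.mul_le_mul h1 h2))

end Pool.Agent.Lib.MP_9277c3_lc.RKT
end

section
/-!
# Word lemma, part b: separation of finitely many large sets
-/
namespace Pool.Agent.Lib.MP_9277c3_lc.RKT

open Finset

section sep

variable {X : Type} [Fintype X]

/-- A median: if few intervals `[lo x, hi x]` contain a given point, then some point has a quarter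
of all intervals on each side. -/
theorem median (A : X → Prop) (lo hi : X → ℕ)
    (hb : ∀ t, 2 * cnt (fun x => A x ∧ lo x ≤ t ∧ t ≤ hi x) ≤ cnt A) :
    ∃ T, cnt A ≤ 4 * cnt (fun x => A x ∧ hi x < T) ∧
      cnt A ≤ 4 * cnt (fun x => A x ∧ T ≤ lo x) := by
  classical
  by_cases hA : cnt A = 0
  · exact ⟨0, by omega, by omega⟩
  have hex : ∃ T, cnt A ≤ 4 * cnt (fun x => A x ∧ hi x < T) := by
    refine ⟨(univ.sup hi) + 1, ?_⟩
    have : cnt A ≤ cnt (fun x => A x ∧ hi x < (univ.sup hi) + 1) :=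
      cnt_mono fun x hx => ⟨hx, Nat.lt_succ_of_le (le_sup (f := hi) (mem_univ x))⟩
    omega
  obtain ⟨hT, hmin⟩ := Nat.find_spec hex, fun {m} => Nat.find_min hex (m := m)
  set T := Nat.find hex with hTdef
  refine ⟨T, hT, ?_⟩
  rcases Nat.eq_zero_or_pos T with h0 | hpos
  · exfalso
    have : cnt (fun x => A x ∧ hi x < T) = 0 := cnt_eq_zero.2 fun x hx => by
      have := hx.2
      omega
    omega
  · have h1 := hmin (m := T - 1) (by omega)
    have h2 := cnt_add_not A (fun x => hi x < T - 1)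
    have h3 : cnt (fun x => A x ∧ ¬hi x < T - 1) ≤
        cnt (fun x => A x ∧ lo x ≤ T - 1 ∧ T - 1 ≤ hi x) + cnt (fun x => A x ∧ T ≤ lo x) := by
      refine le_trans (cnt_mono (Q := fun x => (A x ∧ lo x ≤ T - 1 ∧ T - 1 ≤ hi x) ∨
        (A x ∧ T ≤ lo x)) fun x hx => ?_) (cnt_or_le _ _)
      rcases Nat.lt_or_ge (lo x) T with h | h
      · exact Or.inl ⟨hx.1, by omega, not_lt.mp hx.2⟩
      · exact Or.inr ⟨hx.1, h⟩
    have h4 := hb (T - 1)
    omega

/-- Two large sets contain large subsets which are separated. -/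
theorem separate (A A' : X → Prop) (lo hi : X → ℕ)
    (hb : ∀ t, 2 * cnt (fun x => A x ∧ lo x ≤ t ∧ t ≤ hi x) ≤ cnt A)
    (hb' : ∀ t, 2 * cnt (fun x => A' x ∧ lo x ≤ t ∧ t ≤ hi x) ≤ cnt A') :
    ∃ E E' : X → Prop, (∀ x, E x → A x) ∧ (∀ x, E' x → A' x) ∧ cnt A ≤ 4 * cnt E ∧
      cnt A' ≤ 4 * cnt E' ∧
      ((∀ x y, E x → E' y → hi x < lo y) ∨ ∀ x y, E x → E' y → hi y < lo x) := by
  obtain ⟨T, h1, h2⟩ := median A lo hi hb
  obtain ⟨T', h1', h2'⟩ := median A' lo hi hb'
  rcases Nat.le_total T T' with h | h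
  · refine ⟨fun x => A x ∧ hi x < T, fun x => A' x ∧ T' ≤ lo x, fun x hx => hx.1,
      fun x hx => hx.1, h1, h2', Or.inl fun x y hx hy => ?_⟩
    have := hx.2
    have := hy.2
    omega
  · refine ⟨fun x => A x ∧ T ≤ lo x, fun x => A' x ∧ hi x < T', fun x hx => hx.1,
      fun x hx => hx.1, h2, h1', Or.inr fun x y hx hy => ?_⟩
    have := hx.2
    have := hy.2
    omega

/-- The relation reached for a triple: the sets `E p.1` and `E p.2.1` are separated in the window
`p.2.2`. -/
def Sep (lo hi : ℕ → X → ℕ) (E : ℕ → X → Prop) (p : ℕ × ℕ × ℕ) : Prop :=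
  (∀ x y, E p.1 x → E p.2.1 y → hi p.2.2 x < lo p.2.2 y) ∨
    ∀ x y, E p.1 x → E p.2.1 y → hi p.2.2 y < lo p.2.2 x

omit [Fintype X] in
theorem Sep.mono {lo hi : ℕ → X → ℕ} {E E' : ℕ → X → Prop} {p : ℕ × ℕ × ℕ}
    (h : Sep lo hi E p) (hE : ∀ i x, E' i x → E i x) : Sep lo hi E' p :=
  h.imp (fun h x y hx hy => h x y (hE _ _ hx) (hE _ _ hy))
    fun h x y hx hy => h x y (hE _ _ hx) (hE _ _ hy)

theorem loop (lo hi : ℕ → X → ℕ) (A : ℕ → X → Prop) : ∀ l : List (ℕ × ℕ × ℕ),
    (∀ p ∈ l, p.1 ≠ p.2.1) →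
    (∀ p ∈ l, ∀ t, 2 * 4 ^ l.length * cnt (fun x => A p.1 x ∧ lo p.2.2 x ≤ t ∧ t ≤ hi p.2.2 x) ≤
      cnt (A p.1)) →
    (∀ p ∈ l, ∀ t, 2 * 4 ^ l.length * cnt (fun x => A p.2.1 x ∧ lo p.2.2 x ≤ t ∧ t ≤ hi p.2.2 x) ≤
      cnt (A p.2.1)) →
    ∃ E : ℕ → X → Prop, (∀ i x, E i x → A i x) ∧ (∀ i, cnt (A i) ≤ 4 ^ l.length * cnt (E i)) ∧
      ∀ p ∈ l, Sep lo hi E p
  | [], _, _, _ => ⟨A, fun _ _ h => h, fun i => by simp, fun p hp => by simp at hp⟩
  | p :: l, hne, h1, h2 => by
    classical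
    have hle : ∀ c : ℕ, 2 * 4 ^ l.length * c ≤ 2 * 4 ^ (p :: l).length * c := fun c =>
      Nat.mul_le_mul_right c (Nat.mul_le_mul_left 2 (Nat.pow_le_pow_right (by norm_num) (by simp)))
    obtain ⟨E, hE, hc, hs⟩ := loop lo hi A l (fun q hq => hne q (List.mem_cons_of_mem _ hq))
      (fun q hq t => le_trans (hle _) (h1 q (List.mem_cons_of_mem _ hq) t))
      (fun q hq t => le_trans (hle _) (h2 q (List.mem_cons_of_mem _ hq) t))
    have hpos : 0 < 4 ^ l.length := by positivity
    have key : ∀ i, (∀ t, 2 * 4 ^ (p :: l).length *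
        cnt (fun x => A i x ∧ lo p.2.2 x ≤ t ∧ t ≤ hi p.2.2 x) ≤ cnt (A i)) →
        ∀ t, 2 * cnt (fun x => E i x ∧ lo p.2.2 x ≤ t ∧ t ≤ hi p.2.2 x) ≤ cnt (E i) := by
      intro i hi' t
      have a1 := hi' t
      have a2 := hc i
      have a3 : cnt (fun x => E i x ∧ lo p.2.2 x ≤ t ∧ t ≤ hi p.2.2 x) ≤
          cnt (fun x => A i x ∧ lo p.2.2 x ≤ t ∧ t ≤ hi p.2.2 x) :=
        cnt_mono fun x hx => ⟨hE _ _ hx.1, hx.2⟩
      have a4 : (4 : ℕ) ^ (p :: l).length = 4 ^ l.length * 4 := by
        rw [List.length_cons, pow_succ]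
      rw [a4] at a1
      have a5 : 4 ^ l.length * (2 * cnt (fun x => E i x ∧ lo p.2.2 x ≤ t ∧ t ≤ hi p.2.2 x)) ≤
          4 ^ l.length * cnt (E i) := by
        have a6 := Nat.mul_le_mul_left (4 ^ l.length) a3
        nlinarith
      exact Nat.le_of_mul_le_mul_left a5 hpos
    have hp := hne p (List.mem_cons_self ..)
    obtain ⟨F, F', hF, hF', hcF, hcF', hsep⟩ := separate (E p.1) (E p.2.1) (lo p.2.2) (hi p.2.2)
      (key p.1 (h1 p (List.mem_cons_self ..))) (key p.2.1 (h2 p (List.mem_cons_self ..)))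
    refine ⟨Function.update (Function.update E p.1 F) p.2.1 F', ?_, ?_, ?_⟩
    · intro i x hx
      by_cases hi2 : i = p.2.1
      · subst hi2
        rw [Function.update_self] at hx
        exact hE _ _ (hF' x hx)
      · rw [Function.update_of_ne hi2] at hx
        by_cases hi1 : i = p.1
        · subst hi1
          rw [Function.update_self] at hx
          exact hE _ _ (hF x hx)
        · rw [Function.update_of_ne hi1] at hx
          exact hE _ _ hx
    · intro i
      have a2 := hc i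
      rw [List.length_cons, pow_succ]
      by_cases hi2 : i = p.2.1
      · subst hi2
        rw [Function.update_self]
        nlinarith
      · rw [Function.update_of_ne hi2]
        by_cases hi1 : i = p.1
        · subst hi1
          rw [Function.update_self]
          nlinarith
        · rw [Function.update_of_ne hi1]
          nlinarith [Nat.zero_le (4 ^ l.length * cnt (E i))]
    · intro q hq
      have hsub : ∀ i x, Function.update (Function.update E p.1 F) p.2.1 F' i x → E i x := by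
        intro i x hx
        by_cases hi2 : i = p.2.1
        · subst hi2
          rw [Function.update_self] at hx
          exact hF' x hx
        · rw [Function.update_of_ne hi2] at hx
          by_cases hi1 : i = p.1
          · subst hi1
            rw [Function.update_self] at hx
            exact hF x hx
          · rw [Function.update_of_ne hi1] at hx
            exact hx
      rcases List.mem_cons.1 hq with rfl | hq
      · unfold Sep
        rw [Function.update_of_ne hp, Function.update_self, Function.update_self]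
        exact hsep
      · exact (hs q hq).mono hsub

end sep

/-- A monochromatic path with two edges. -/
theorem ramsey (C : ℕ → ℕ → Finset ℕ) (W : Finset ℕ) (hC : ∀ i j, C i j ⊆ W) (n : ℕ)
    (hn : 2 ^ 2 ^ W.card < n) : ∃ i j l, i < j ∧ j < l ∧ l < n ∧ C i j = C j l := by
  classical
  by_contra hcon
  push Not at hcon
  let S : ℕ → Finset (Finset ℕ) := fun j => (range j).image fun i => C i j
  have hS : ∀ j, S j ∈ (W.powerset).powerset := by
    intro j
    rw [mem_powerset]
    intro s hs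
    obtain ⟨i, _, rfl⟩ := mem_image.1 hs
    exact mem_powerset.2 (hC i j)
  have hinj : Set.InjOn S (range n : Set ℕ) := by
    have key : ∀ j l, j < l → l < n → S j ≠ S l := by
      intro j l hjl hln heq
      have h1 : C j l ∈ S l := mem_image.2 ⟨j, mem_range.2 hjl, rfl⟩
      rw [← heq] at h1
      obtain ⟨i, hi, he⟩ := mem_image.1 h1
      exact hcon i j l (mem_range.1 hi) hjl hln he
    intro j hj l hl heq
    rw [coe_range, Set.mem_Iio] at hj hl
    rcases lt_trichotomy j l with h | h | h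
    · exact absurd heq (key j l h hl)
    · exact h
    · exact absurd heq.symm (key l j h hj)
  have hcard := card_le_card_of_injOn S (fun j _ => hS j) hinj
  rw [card_range, card_powerset, card_powerset] at hcard
  omega

/-- The list of all triples `(i, j, w)` with `i < j < n` and `w ∈ W`. -/
noncomputable def triples (n : ℕ) (W : Finset ℕ) : List (ℕ × ℕ × ℕ) :=
  ((range n ×ˢ (range n ×ˢ W)).filter fun p => p.1 < p.2.1).toList

theorem mem_triples {n : ℕ} {W : Finset ℕ} {i j w : ℕ} :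
    (i, j, w) ∈ triples n W ↔ i < j ∧ j < n ∧ w ∈ W := by
  unfold triples
  rw [mem_toList, mem_filter, mem_product, mem_product, mem_range, mem_range]
  constructor
  · rintro ⟨⟨_, h2, h3⟩, h4⟩
    exact ⟨h4, h2, h3⟩
  · rintro ⟨h1, h2, h3⟩
    exact ⟨⟨lt_trans h1 h2, h2, h3⟩, h1⟩

theorem length_triples (n : ℕ) (W : Finset ℕ) : (triples n W).length ≤ n * (n * W.card) := by
  unfold triples
  rw [length_toList]
  refine le_trans (card_filter_le _ _) ?_
  rw [card_product, card_product, card_range]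

/-- The conclusion for a block: among `n` large sets (`n > 2 ^ 2 ^ |W|`), in which no point meets
many intervals, there are `i < j < l` and `b`, `x`, `b'` in the sets `i`, `j`, `l`, such that `x` is
between `b` and `b'` in each window `w ∈ W`. -/
theorem block {X : Type} [Fintype X] (lo hi : ℕ → X → ℕ) (A : ℕ → X → Prop) (W : Finset ℕ) (n : ℕ)
    (hn : 2 ^ 2 ^ W.card < n) (hne : ∀ i < n, ∃ x, A i x)
    (hb : ∀ i < n, ∀ w ∈ W, ∀ t, 2 * 4 ^ (n * (n * W.card)) *
      cnt (fun x => A i x ∧ lo w x ≤ t ∧ t ≤ hi w x) ≤ cnt (A i)) :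
    ∃ i j l b x b', i < j ∧ j < l ∧ l < n ∧ A i b ∧ A j x ∧ A l b' ∧
      ∀ w ∈ W, (hi w b < lo w x ∧ hi w x < lo w b') ∨ (hi w b' < lo w x ∧ hi w x < lo w b) := by
  classical
  have hlen := length_triples n W
  have hle : ∀ c : ℕ, 2 * 4 ^ (triples n W).length * c ≤ 2 * 4 ^ (n * (n * W.card)) * c := fun c =>
    Nat.mul_le_mul_right c (Nat.mul_le_mul_left 2 (Nat.pow_le_pow_right (by norm_num) hlen))
  obtain ⟨E, hE, hc, hs⟩ := loop lo hi A (triples n W)
    (fun p hp => by
      obtain ⟨i, j, w⟩ := p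
      exact (mem_triples.1 hp).1.ne)
    (fun p hp t => by
      obtain ⟨i, j, w⟩ := p
      obtain ⟨h1, h2, h3⟩ := mem_triples.1 hp
      exact le_trans (hle _) (hb i (lt_trans h1 h2) w h3 t))
    (fun p hp t => by
      obtain ⟨i, j, w⟩ := p
      obtain ⟨h1, h2, h3⟩ := mem_triples.1 hp
      exact le_trans (hle _) (hb j h2 w h3 t))
  have hEne : ∀ i < n, ∃ x, E i x := by
    intro i hi'
    have h1 := cnt_pos.2 (hne i hi')
    have h2 := hc i
    by_contra hcon
    push Not at hcon
    rw [cnt_eq_zero.2 hcon] at h2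
    omega
  let C : ℕ → ℕ → Finset ℕ := fun i j => W.filter fun w => ∀ x y, E i x → E j y → hi w x < lo w y
  obtain ⟨i, j, l, hij, hjl, hl, hCe⟩ := ramsey C W (fun i j => filter_subset _ _) n hn
  obtain ⟨b, hbb⟩ := hEne i (by omega)
  obtain ⟨x, hx⟩ := hEne j (by omega)
  obtain ⟨b', hb'⟩ := hEne l hl
  refine ⟨i, j, l, b, x, b', hij, hjl, hl, hE _ _ hbb, hE _ _ hx, hE _ _ hb', fun w hw => ?_⟩
  by_cases hwC : w ∈ C i j
  · have h1 := (mem_filter.1 hwC).2
    rw [hCe] at hwC
    have h2 := (mem_filter.1 hwC).2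
    exact Or.inl ⟨h1 b x hbb hx, h2 x b' hx hb'⟩
  · have h1 := hs (i, j, w) (mem_triples.2 ⟨hij, by omega, hw⟩)
    have h2 := hs (j, l, w) (mem_triples.2 ⟨hjl, hl, hw⟩)
    have h3 : ∀ x y, E i x → E j y → hi w y < lo w x := by
      rcases h1 with h1 | h1
      · exact absurd (mem_filter.2 ⟨hw, h1⟩) hwC
      · exact h1
    rw [hCe] at hwC
    have h4 : ∀ x y, E j x → E l y → hi w y < lo w x := by
      rcases h2 with h2 | h2
      · exact absurd (mem_filter.2 ⟨hw, h2⟩) hwC
      · exact h2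
    exact Or.inr ⟨h4 x b' hx hb', h3 b x hbb hx⟩

end Pool.Agent.Lib.MP_9277c3_lc.RKT
end

section
/-!
# Word lemma, part c: one leaf which is good in many blocks
-/
namespace Pool.Agent.Lib.MP_9277c3_lc.RKT

open Finset

theorem Under.of_append : ∀ {h : ℕ} {v u : List Bool} {x : Lf h}, Under h (v ++ u) x → Under h v x
  | _, [], _, _, _ => by simp [Under]
  | 0, _ :: _, _, _, hx => by simp [Under] at hx
  | h + 1, a :: v, u, Lf.cons b x, hx => by
    simp only [List.cons_append, Under] at hx ⊢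
    exact ⟨hx.1, Under.of_append hx.2⟩

/-- The relation between a leaf `x` and two leaves `b`, `b'` which leave the path to `x` at depths
between `d` and `d + n`: in all windows of `W` the intervals of `b` and `b'` are on different sides
of the interval of `x`. -/
def Gd {h : ℕ} (lo hi : ℕ → Lf h → ℕ) (W : Finset ℕ) (d n : ℕ) (x b b' : Lf h) : Prop :=
  d ≤ lca h x b ∧ lca h x b < lca h x b' ∧ lca h x b' < d + n ∧
    ∀ w ∈ W, (hi w b < lo w x ∧ hi w x < lo w b') ∨ (hi w b' < lo w x ∧ hi w x < lo w b)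

/-- The `i`-th subtree of the caterpillar at the node `v`. -/
def cat (v : List Bool) (i : ℕ) : List Bool := v ++ (List.replicate i false ++ [true])

theorem length_cat (v : List Bool) (i : ℕ) : (cat v i).length = v.length + (i + 1) := by
  simp [cat]

theorem lca_cat {h : ℕ} {v : List Bool} {i j : ℕ} (hij : i < j) {x y : Lf h}
    (hx : Under h (cat v i) x) (hy : Under h (cat v j) y) :
    lca h x y = v.length + i ∧ lca h y x = v.length + i := by
  obtain ⟨k, rfl⟩ := Nat.exists_eq_add_of_lt hij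
  have e1 : cat v i = (v ++ List.replicate i false) ++ true :: [] := by simp [cat]
  have e2 : cat v (i + k + 1) = (v ++ List.replicate i false) ++
      false :: (List.replicate k false ++ [true]) := by
    unfold cat
    rw [show i + k + 1 = i + (k + 1) by ring, List.replicate_add, List.replicate_succ]
    simp
  rw [e1] at hx
  rw [e2] at hy
  refine ⟨?_, ?_⟩
  · rw [lca_under h _ _ _ true false x y (by decide) hx hy]; simp
  · rw [lca_under h _ _ _ false true y x (by decide) hy hx]; simp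

theorem node_block {h : ℕ} (lo hi : ℕ → Lf h → ℕ) (W : Finset ℕ) (n : ℕ)
    (hn : 2 ^ 2 ^ W.card < n) (v : List Bool) (hv : v.length + n ≤ h)
    (hb : ∀ u : List Bool, u.length ≤ v.length + n → ∀ w ∈ W, ∀ t,
      4 * 4 ^ (n * (n * W.card)) * cnt (fun x => Under h u x ∧ lo w x ≤ t ∧ t ≤ hi w x) ≤
        2 ^ (h - u.length)) :
    2 ^ (h - v.length) ≤
      2 ^ (n + 1) * cnt (fun x => Under h v x ∧ ∃ b b', Gd lo hi W v.length n x b b') := by
  by_contra hcon
  rw [not_le] at hcon
  set P : Lf h → Prop := fun x => ∃ b b', Gd lo hi W v.length n x b b' with hP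
  have hH : ∀ i < n, cnt (fun x => Under h (cat v i) x) = 2 ^ (h - (cat v i).length) := by
    intro i hi'
    exact cnt_under h _ (by rw [length_cat]; omega)
  have hhalf : ∀ i < n, cnt (fun x => Under h (cat v i) x) <
      2 * cnt (fun x => Under h (cat v i) x ∧ ¬P x) := by
    intro i hi'
    have h1 := cnt_add_not (fun x => Under h (cat v i) x) P
    have h2 : cnt (fun x => Under h (cat v i) x ∧ P x) ≤ cnt (fun x => Under h v x ∧ P x) :=
      cnt_mono fun x hx => ⟨Under.of_append hx.1, hx.2⟩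
    have h3 : 2 * cnt (fun x => Under h (cat v i) x ∧ P x) < cnt (fun x => Under h (cat v i) x) := by
      rw [hH i hi', length_cat]
      have h4 : 2 ^ n * (2 * cnt (fun x => Under h (cat v i) x ∧ P x)) <
          2 ^ n * 2 ^ (h - v.length - n) := by
        rw [← pow_add, show n + (h - v.length - n) = h - v.length by omega]
        refine lt_of_le_of_lt ?_ hcon
        rw [pow_succ, mul_assoc]
        exact Nat.mul_le_mul_left _ (Nat.mul_le_mul_left _ h2)
      have h5 := Nat.lt_of_mul_lt_mul_left h4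
      refine lt_of_lt_of_le h5 (Nat.pow_le_pow_right (by norm_num) (by omega))
    omega
  obtain ⟨i, j, l, b, x, b', hij, hjl, hl, hbA, hxA, hb'A, hw⟩ := block lo hi
    (fun i x => Under h (cat v i) x ∧ ¬P x) W n hn
    (fun i hi' => by
      apply cnt_pos.1
      have := hhalf i hi'
      omega)
    (fun i hi' w hw t => by
      have h1 := hb (cat v i) (by rw [length_cat]; omega) w hw t
      rw [← hH i hi'] at h1
      have h2 := hhalf i hi'
      have h3 : cnt (fun x => (Under h (cat v i) x ∧ ¬P x) ∧ lo w x ≤ t ∧ t ≤ hi w x) ≤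
          cnt (fun x => Under h (cat v i) x ∧ lo w x ≤ t ∧ t ≤ hi w x) :=
        cnt_mono fun x hx => ⟨hx.1.1, hx.2⟩
      have h4 : 2 * 4 ^ (n * (n * W.card)) *
          cnt (fun x => (Under h (cat v i) x ∧ ¬P x) ∧ lo w x ≤ t ∧ t ≤ hi w x) ≤
          2 * 4 ^ (n * (n * W.card)) *
          cnt (fun x => Under h (cat v i) x ∧ lo w x ≤ t ∧ t ≤ hi w x) :=
        Nat.mul_le_mul_left _ h3
      have h5 : 4 * 4 ^ (n * (n * W.card)) *
          cnt (fun x => Under h (cat v i) x ∧ lo w x ≤ t ∧ t ≤ hi w x) =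
          2 * (2 * 4 ^ (n * (n * W.card)) *
          cnt (fun x => Under h (cat v i) x ∧ lo w x ≤ t ∧ t ≤ hi w x)) := by ring
      rw [h5] at h1
      omega)
  have e1 := (lca_cat hij hbA.1 hxA.1).2
  have e2 := (lca_cat hjl hxA.1 hb'A.1).1
  exact hxA.2 ⟨b, b', by rw [e1]; omega, by rw [e1, e2]; omega, by rw [e2]; omega, hw⟩

theorem cnt_eq_sum {X : Type} [Fintype X] (P : X → Prop) [DecidablePred P] :
    cnt P = ∑ x, if P x then 1 else 0 := by
  unfold cnt
  rw [Set.ncard_eq_toFinset_card', sum_boole]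
  simp

theorem cnt_sum {X : Type} [Fintype X] (P : ℕ → X → Prop) (B : ℕ)
    [∀ β x, Decidable (P β x)] :
    ∑ β ∈ range B, cnt (P β) = ∑ x, ((range B).filter fun β => P β x).card := by
  rw [sum_congr rfl fun β _ => cnt_eq_sum (P β), sum_comm]
  apply sum_congr rfl
  intro x _
  rw [card_filter]

theorem good_leaf {h : ℕ} (lo hi : ℕ → Lf h → ℕ) (W : Finset ℕ) (n B : ℕ)
    [∀ β x, Decidable (∃ b b', Gd lo hi W (β * n) n x b b')]
    (hn : 2 ^ 2 ^ W.card < n) (hB : B * n ≤ h)
    (hb : ∀ u : List Bool, u.length ≤ B * n → ∀ w ∈ W, ∀ t,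
      4 * 4 ^ (n * (n * W.card)) * cnt (fun x => Under h u x ∧ lo w x ≤ t ∧ t ≤ hi w x) ≤
        2 ^ (h - u.length)) :
    ∃ x : Lf h, B ≤ 2 ^ (n + 1) *
      ((range B).filter fun β => ∃ b b', Gd lo hi W (β * n) n x b b').card := by
  have h1 : ∀ β ∈ range B, 2 ^ h ≤ 2 ^ (n + 1) *
      cnt (fun x => ∃ b b', Gd lo hi W (β * n) n x b b') := by
    intro β hβ
    have hβ' : (β + 1) * n ≤ B * n := Nat.mul_le_mul_right n (mem_range.1 hβ)
    have hβ'' : β * n + n ≤ B * n := by linarith [hβ', add_one_mul β n]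
    apply density_sum _ (β * n) h _ (by omega)
    intro v hv
    have := node_block lo hi W n hn v (by omega) (fun u hu => hb u (by omega))
    rw [hv] at this
    exact this
  have h2 : B * 2 ^ h ≤ 2 ^ (n + 1) *
      ∑ x : Lf h, ((range B).filter fun β => ∃ b b', Gd lo hi W (β * n) n x b b').card := by
    rw [← cnt_sum (fun β x => ∃ b b', Gd lo hi W (β * n) n x b b') B, mul_sum]
    refine le_trans ?_ (sum_le_sum h1)
    rw [sum_const, card_range, smul_eq_mul]
  by_contra hcon
  push Not at hcon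
  have h3 : ∑ x : Lf h, 2 ^ (n + 1) *
      ((range B).filter fun β => ∃ b b', Gd lo hi W (β * n) n x b b').card <
      ∑ _x : Lf h, B := sum_lt_sum_of_nonempty ⟨default, mem_univ _⟩ fun x _ => hcon x
  rw [← mul_sum, sum_const, card_univ, card_Lf, smul_eq_mul] at h3
  rw [mul_comm B] at h2
  omega

theorem chain_of_small {h : ℕ} (lo hi : ℕ → Lf h → ℕ) (W : Finset ℕ) (n B : ℕ)
    (hlh : ∀ w ∈ W, ∀ x, lo w x ≤ hi w x)
    (hn : 2 ^ 2 ^ W.card < n) (hB : B * n ≤ h)
    (hb : ∀ u : List Bool, u.length ≤ B * n → ∀ w ∈ W, ∀ t,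
      4 * 4 ^ (n * (n * W.card)) * cnt (fun x => Under h u x ∧ lo w x ≤ t ∧ t ≤ hi w x) ≤
        2 ^ (h - u.length)) :
    ∃ (x : Lf h) (m : ℕ) (b b' : ℕ → Lf h) (σ : Finset ℕ),
      B ≤ 2 ^ (n + 1) * (2 ^ W.card * m) ∧ Chain h m x b b' ∧
      ∀ i < m, ∀ w ∈ W, (w ∈ σ → hi w (b i) < lo w x ∧ hi w x < lo w (b' i)) ∧
        (w ∉ σ → hi w (b' i) < lo w x ∧ hi w x < lo w (b i)) := by
  classical
  obtain ⟨x, hx⟩ := good_leaf lo hi W n B hn hB hb
  set S := (range B).filter fun β => ∃ b b', Gd lo hi W (β * n) n x b b' with hS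
  have hex : ∀ β, ∃ p : Lf h × Lf h, β ∈ S → Gd lo hi W (β * n) n x p.1 p.2 := by
    intro β
    by_cases hβ : β ∈ S
    · obtain ⟨b, b', hbb⟩ := (mem_filter.1 hβ).2
      exact ⟨(b, b'), fun _ => hbb⟩
    · exact ⟨(default, default), fun h => absurd h hβ⟩
  choose f hf using hex
  let sg : ℕ → Finset ℕ := fun β => W.filter fun w => hi w (f β).1 < lo w x
  have hmaps : ∀ β ∈ S, sg β ∈ W.powerset := fun β _ => mem_powerset.2 (filter_subset _ _)
  obtain ⟨σ, hσ⟩ : ∃ σ, S.card ≤ 2 ^ W.card * (S.filter fun β => sg β = σ).card := by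
    by_contra hcon
    push Not at hcon
    have h1 := card_eq_sum_card_fiberwise (f := sg) (s := S) (t := W.powerset) (fun β hβ => hmaps β hβ)
    have h2 : ∑ σ ∈ W.powerset, 2 ^ W.card * (S.filter fun β => sg β = σ).card <
        ∑ _σ ∈ W.powerset, S.card :=
      sum_lt_sum_of_nonempty ⟨∅, empty_mem_powerset W⟩ fun σ _ => hcon σ
    rw [← mul_sum, ← h1, sum_const, card_powerset, smul_eq_mul] at h2
    exact lt_irrefl _ h2
  set S' := S.filter fun β => sg β = σ with hS'
  let m := S'.card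
  let e := S'.orderEmbOfFin (rfl : S'.card = m)
  let β : ℕ → ℕ := fun i => if hi' : i < m then e ⟨i, hi'⟩ else 0
  have hβ : ∀ i < m, β i ∈ S' := by
    intro i hi'
    simp only [β, hi', dif_pos]
    exact orderEmbOfFin_mem S' rfl ⟨i, hi'⟩
  have hmono : ∀ i, i + 1 < m → β i < β (i + 1) := by
    intro i hi'
    have h1 : i < m := by omega
    simp only [β, hi', h1, dif_pos]
    exact e.strictMono (by simp [Fin.lt_def])
  have hG : ∀ i < m, Gd lo hi W (β i * n) n x (f (β i)).1 (f (β i)).2 :=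
    fun i hi' => hf _ (mem_filter.1 (hβ i hi')).1
  have hlt : ∀ i < m, β i + 1 ≤ B := by
    intro i hi'
    have := (mem_filter.1 (mem_filter.1 (hβ i hi')).1).1
    exact mem_range.1 this
  refine ⟨x, m, fun i => (f (β i)).1, fun i => (f (β i)).2, σ, ?_, ⟨?_, ?_, ?_⟩, ?_⟩
  · exact le_trans hx (Nat.mul_le_mul_left _ hσ)
  · intro i hi'; exact (hG i hi').2.1
  · intro i hi'
    have h1 := (hG i hi').2.2.1
    have h2 := Nat.mul_le_mul_right n (hlt i hi')
    have h3 := add_one_mul (β i) n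
    beta_reduce
    omega
  · intro i hi'
    have h1 := (hG i (by omega)).2.2.1
    have h2 := (hG (i + 1) hi').1
    have h3 := Nat.mul_le_mul_right n (Nat.succ_le_of_lt (hmono i hi'))
    have h4 : (β i).succ * n = β i * n + n := Nat.succ_mul _ _
    beta_reduce
    omega
  · intro i hi' w hw
    have h1 := (hG i hi').2.2.2 w hw
    have h2 : sg (β i) = σ := (mem_filter.1 (hβ i hi')).2
    have h3 := hlh w hw x
    have h4 := hlh w hw (f (β i)).1
    refine ⟨fun hwσ => ?_, fun hwσ => ?_⟩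
    · rw [← h2] at hwσ
      have h5 := (mem_filter.1 hwσ).2
      rcases h1 with h1 | h1
      · exact h1
      · omega
    · rcases h1 with h1 | h1
      · exfalso
        apply hwσ
        rw [← h2]
        exact mem_filter.2 ⟨hw, h1.1⟩
      · exact h1

end Pool.Agent.Lib.MP_9277c3_lc.RKT
end

section
/-!
# Read-k-times branching programs: splicing two walks with the same record, and counting
-/
namespace Pool.Agent.Lib.MP_9277c3_lc.RKT.M5

open Finset Pool.Agent.Lib.MP_9277c3_lc Pool.Agent.Lib.MP_9277c3_lc.RKT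

/-! ### walks -/

theorem walk_append {α : Type} {n : ℕ} (B : NBP α n) {a b c : Fin B.size}
    {ls ls' : List (Option (Fin n × α))} (h : B.Walk a ls b) (h' : B.Walk b ls' c) :
    B.Walk a (ls ++ ls') c := by
  induction h with
  | nil u => exact h'
  | cons u l v ls w h1 h2 ih => exact NBP.Walk.cons u l v _ _ h1 (ih h')

theorem seg {α : Type} {n : ℕ} (B : NBP α n) (T : ℕ) (u : ℕ → Fin B.size)
    (lab : ℕ → Option (Fin n × α))
    (hedge : ∀ p, 1 ≤ p → p ≤ T → B.edge (u (p - 1)) (lab p) (u p)) (a b : ℕ) (hab : a ≤ b) :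
    b ≤ T → ∃ ls, B.Walk (u a) ls (u b) ∧ ∀ x, x ∈ ls ↔ ∃ p, a < p ∧ p ≤ b ∧ lab p = x := by
  induction b, hab using Nat.le_induction with
  | base =>
    intro _
    refine ⟨[], NBP.Walk.nil _, fun x => ⟨fun h => absurd h (List.not_mem_nil), ?_⟩⟩
    rintro ⟨p, h1, h2, _⟩
    omega
  | succ b hab ih =>
    intro hb
    obtain ⟨ls, h1, h2⟩ := ih (by omega)
    refine ⟨ls ++ [lab (b + 1)], walk_append B h1 (NBP.Walk.cons _ _ _ _ _
      (hedge (b + 1) (by omega) hb) (NBP.Walk.nil _)), fun x => ?_⟩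
    rw [List.mem_append, h2, List.mem_singleton]
    constructor
    · rintro (⟨p, h3, h4, h5⟩ | h3)
      · exact ⟨p, h3, by omega, h5⟩
      · exact ⟨b + 1, by omega, le_rfl, h3.symm⟩
    · rintro ⟨p, h3, h4, h5⟩
      rcases Nat.lt_or_ge p (b + 1) with h6 | h6
      · exact Or.inl ⟨p, h3, by omega, h5⟩
      · have h7 : p = b + 1 := by omega
        rw [h7] at h5
        exact Or.inr h5.symm

/-! ### the enumeration of the cuts -/

theorem exists_enum (k : ℕ) : ∀ (D : Finset ℕ) (T : ℕ), D.card = k → D ⊆ Icc 1 T →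
    ∃ e : ℕ → ℕ, e 0 = 0 ∧ e (k + 1) = T + 1 ∧ (∀ j ≤ k, e j < e (j + 1)) ∧
      ∀ j ≤ k, ∀ d ∈ D, ¬ (e j < d ∧ d < e (j + 1)) := by
  induction k with
  | zero =>
    intro D T hD hT
    refine ⟨fun j => if j = 0 then 0 else T + 1, by simp, by simp, ?_, ?_⟩
    · intro j hj
      have : j = 0 := by omega
      subst this
      simp
    · intro j _ d hd
      rw [card_eq_zero.mp hD] at hd
      exact absurd hd (notMem_empty d)
  | succ k ih =>
    intro D T hD hT
    have hne : D.Nonempty := card_pos.mp (by omega)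
    set M := D.max' hne with hM
    have hMD : M ∈ D := D.max'_mem hne
    have hM1 := mem_Icc.mp (hT hMD)
    obtain ⟨e, h0, h1, h2, h3⟩ := ih (D.erase M) (M - 1) (by rw [card_erase_of_mem hMD]; omega) (by
      intro d hd
      have h4 := mem_erase.mp hd
      have h5 := mem_Icc.mp (hT h4.2)
      have h6 := D.le_max' d h4.2
      rw [← hM] at h6
      have h7 := h4.1
      exact mem_Icc.mpr ⟨h5.1, by omega⟩)
    have hM' : M - 1 + 1 = M := by omega
    rw [hM'] at h1
    refine ⟨fun j => if j ≤ k + 1 then e j else T + 1, by simp [h0], by simp, ?_, ?_⟩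
    · intro j hj
      rcases Nat.lt_or_ge j (k + 1) with h4 | h4
      · simp only [if_pos (show j ≤ k + 1 by omega), if_pos (show j + 1 ≤ k + 1 by omega)]
        exact h2 j (by omega)
      · have h5 : j = k + 1 := by omega
        subst h5
        simp only [le_refl, if_true, if_neg (show ¬ (k + 1 + 1 ≤ k + 1) by omega)]
        omega
    · intro j hj d hd
      rcases Nat.lt_or_ge j (k + 1) with h4 | h4
      · simp only [if_pos (show j ≤ k + 1 by omega), if_pos (show j + 1 ≤ k + 1 by omega)]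
        by_cases h5 : d = M
        · intro h6
          have h7 : e (j + 1) ≤ M := by
            rw [← h1]

            have h8 : ∀ i, j + 1 + i ≤ k + 1 → e (j + 1) ≤ e (j + 1 + i) := by
              intro i
              induction i with
              | zero => intro _; exact le_rfl
              | succ i ih2 =>
                intro hi
                have h9 := ih2 (by omega)
                have h10 := h2 (j + 1 + i) (by omega)
                have h11 : j + 1 + (i + 1) = j + 1 + i + 1 := by ring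
                rw [h11]
                omega
            have h9 := h8 (k + 1 - (j + 1)) (by omega)
            have h10 : j + 1 + (k + 1 - (j + 1)) = k + 1 := by omega
            rw [h10] at h9
            exact h9
          omega
        · exact h3 j (by omega) d (mem_erase.mpr ⟨h5, hd⟩)
      · have h5 : j = k + 1 := by omega
        subst h5
        simp only [le_refl, if_true, if_neg (show ¬ (k + 1 + 1 ≤ k + 1) by omega)]
        rintro ⟨h6, _⟩
        have h7 := D.le_max' d hd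
        rw [← hM] at h7
        omega

/-! ### the data of a word -/

/-- The extension of a finite sequence of leaves. -/
def ext {h m : ℕ} (b : Fin m → Lf h) : ℕ → Lf h :=
  fun i => if hi : i < m then b ⟨i, hi⟩ else default

theorem ext_eq {h m : ℕ} (b : Fin m → Lf h) (i : ℕ) (hi : i < m) : ext b i = b ⟨i, hi⟩ := by
  rw [ext, dif_pos hi]

theorem chain_ext {h m : ℕ} {l : Lf h} {b b' : ℕ → Lf h} (hc : Chain h m l b b') :
    Chain h m l (ext fun i : Fin m => b i) (ext fun i : Fin m => b' i) := by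
  obtain ⟨h1, h2, h3⟩ := hc
  refine ⟨fun i hi => ?_, fun i hi => ?_, fun i hi => ?_⟩
  · rw [ext_eq _ i hi, ext_eq _ i hi]; exact h1 i hi
  · rw [ext_eq _ i hi]; exact h2 i hi
  · rw [ext_eq _ i (by omega), ext_eq _ (i + 1) hi]; exact h3 i hi

theorem chain_le {h m m' : ℕ} {l : Lf h} {b b' : ℕ → Lf h} (hc : Chain h m l b b') (hm : m' ≤ m) :
    Chain h m' l b b' :=
  ⟨fun i hi => hc.1 i (by omega), fun i hi => hc.2.1 i (by omega), fun i hi => hc.2.2 i (by omega)⟩

/-- An accepting walk for the word of `w`, its cuts, the colours of the segments and the chain. -/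
structure Dat {α : Type} {n : ℕ} (B : NBP α n) (C h m : ℕ) {V : Type} (leafOf : Fin n → Lf h)
    (pos : Lf h → V → Fin n) (g : Fin n → V → α) (w : Lf h → V) where
  T : ℕ
  u : ℕ → Fin B.size
  lab : ℕ → Option (Fin n × α)
  occ : Fin n → Finset ℕ
  s : ℕ
  e : ℕ → ℕ
  c : ℕ → Bool
  l : Lf h
  b : Fin m → Lf h
  b' : Fin m → Lf h
  hu : u 0 = B.source
  hT : u T = B.sink
  hedge : ∀ p, 1 ≤ p → p ≤ T → B.edge (u (p - 1)) (lab p) (u p)
  hlab : ∀ p, 1 ≤ p → p ≤ T → ∀ i a, lab p = some (i, a) → g i (w (leafOf i)) = a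
  hreads : ∀ a b i, a ≤ b → b ≤ T → B.Reads (u a) i (u b) → ∃ p ∈ occ i, a < p ∧ p ≤ b
  hs : s ≤ C
  he0 : e 0 = 0
  heT : e (s + 1) = T + 1
  hmono : ∀ j ≤ s, e j < e (j + 1)
  hchain : Chain h m l (ext b) (ext b')
  htrue : ∀ (i : Fin m) (j : ℕ), j ≤ s → ∀ p, e j < p → p < e (j + 1) →
    p ∈ occ (pos (b i) (w (b i))) → c j = true
  hfalse : ∀ (i : Fin m) (j : ℕ), j ≤ s → ∀ p, e j < p → p < e (j + 1) →
    p ∈ occ (pos (b' i) (w (b' i))) → c j = false

theorem exists_dat {α : Type} {n : ℕ} (B : NBP α n) (C h m k : ℕ) {V : Type}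
    (leafOf : Fin n → Lf h) (pos : Lf h → V → Fin n) (g : Fin n → V → α) (w : Lf h → V)
    (hM1 : SpecM1)
    (hM2 : ∀ (T : ℕ) (occ : Lf h → Finset ℕ),
      (∀ x, (occ x).card ≤ k) → (∀ x, occ x ⊆ Finset.Icc 1 T) →
      ∃ (D : Finset ℕ) (col : ℕ → Bool) (l : Lf h) (m : ℕ) (b b' : ℕ → Lf h),
        D ⊆ Finset.Icc 1 T ∧ D.card ≤ C ∧ h ≤ C * (m + 1) ∧ Chain h m l b b' ∧
        (∀ p q, p ≤ q → (∀ d ∈ D, ¬(p ≤ d ∧ d ≤ q)) → col p = col q) ∧
        (∀ i < m, ∀ p ∈ occ (b i), p ∉ D → col p = true) ∧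
        ∀ i < m, ∀ p ∈ occ (b' i), p ∉ D → col p = false)
    (hm : ∀ m', h ≤ C * (m' + 1) → m ≤ m')
    (hB : B.ReadTimes k) (hacc : B.Accepts fun i => g i (w (leafOf i))) :
    Nonempty (Dat B C h m leafOf pos g w) := by
  obtain ⟨T, u, lab, occ, h1, h2, h3, h4, h5, h6, h7⟩ := hM1 α n k B hB _ hacc
  obtain ⟨D, col, l, m', b, b', g1, g2, g3, g4, g5, g6, g7⟩ := hM2 T
    (fun x => occ (pos x (w x))) (fun x => h6 _) (fun x => h5 _)
  obtain ⟨e, e1, e2, e3, e4⟩ := exists_enum D.card D T rfl g1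
  have hmm : m ≤ m' := hm m' g3
  have hseg : ∀ j ≤ D.card, ∀ p, e j < p → p < e (j + 1) → p ∉ D ∧ col p = col (e j + 1) := by
    intro j hj p hp1 hp2
    refine ⟨fun hpD => e4 j hj p hpD ⟨hp1, hp2⟩, ?_⟩
    refine (g5 (e j + 1) p (by omega) ?_).symm
    rintro d hd ⟨hd1, hd2⟩
    exact e4 j hj d hd ⟨by omega, by omega⟩
  refine ⟨⟨T, u, lab, occ, D.card, e, fun j => col (e j + 1), l, fun i : Fin m => b i,
    fun i : Fin m => b' i, h1, h2, h3, fun p hp1 hp2 i a hl => h4 p hp1 hp2 i a hl, h7, g2, e1, e2,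
    e3, chain_ext (chain_le g4 hmm), ?_, ?_⟩⟩
  · intro i j hj p hp1 hp2 hpo
    obtain ⟨q1, q2⟩ := hseg j hj p hp1 hp2
    rw [← q2]
    exact g6 i (lt_of_lt_of_le i.2 hmm) p hpo q1
  · intro i j hj p hp1 hp2 hpo
    obtain ⟨q1, q2⟩ := hseg j hj p hp1 hp2
    rw [← q2]
    exact g7 i (lt_of_lt_of_le i.2 hmm) p hpo q1

/-- The type of the records. -/
abbrev Rcd (S n : ℕ) (α : Type) (C h m : ℕ) : Type :=
  Fin (C + 1) × (Fin C → Fin S × Fin S × Option (Fin n × α)) × (Fin (C + 1) → Bool) × Lf h ×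
    (Fin m → Lf h) × (Fin m → Lf h)

/-- The record of the data. -/
def Dat.rcd {α : Type} {n : ℕ} {B : NBP α n} {C h m : ℕ} {V : Type} {leafOf : Fin n → Lf h}
    {pos : Lf h → V → Fin n} {g : Fin n → V → α} {w : Lf h → V}
    (d : Dat B C h m leafOf pos g w) : Rcd B.size n α C h m :=
  (⟨d.s, by have := d.hs; omega⟩,
    fun j => (d.u (d.e (j + 1) - 1), d.u (d.e (j + 1)), d.lab (d.e (j + 1))),
    fun j => d.c j, d.l, d.b, d.b')

/-! ### splicing -/

theorem splice {α : Type} {n : ℕ} (B : NBP α n) (C h m : ℕ) {V : Type}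
    (leafOf : Fin n → Lf h) (pos : Lf h → V → Fin n) (g : Fin n → V → α)
    (hg : ∀ i c c', g i c ≠ g i c' → i = pos (leafOf i) c ∨ i = pos (leafOf i) c')
    (w w' : Lf h → V) (d : Dat B C h m leafOf pos g w) (d' : Dat B C h m leafOf pos g w')
    (hr : d.rcd = d'.rcd)
    (hout : ∀ x, (∀ i : Fin m, x ≠ d.b i ∧ x ≠ d.b' i) → w x = w' x) :
    B.Accepts fun i => g i (mix m (ext d.b') w w' (leafOf i)) := by
  -- the parts of the record
  have hr1 : d.s = d'.s := by
    have := congrArg (fun r => (r.1 : Fin (C + 1)).val) hr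
    exact this
  have hr2 : ∀ j, j < d.s → d.u (d.e (j + 1) - 1) = d'.u (d'.e (j + 1) - 1) ∧
      d.u (d.e (j + 1)) = d'.u (d'.e (j + 1)) ∧ d.lab (d.e (j + 1)) = d'.lab (d'.e (j + 1)) := by
    intro j hj
    have hjC : j < C := lt_of_lt_of_le hj d.hs
    have h1 := congrFun (congrArg (fun r => r.2.1) hr) ⟨j, hjC⟩
    have h2 : (d.u (d.e (j + 1) - 1), d.u (d.e (j + 1)), d.lab (d.e (j + 1)))
        = (d'.u (d'.e (j + 1) - 1), d'.u (d'.e (j + 1)), d'.lab (d'.e (j + 1))) := h1
    simp only [Prod.mk.injEq] at h2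
    exact h2
  have hr3 : ∀ j, j ≤ d.s → d.c j = d'.c j := by
    intro j hj
    have hjC : j < C + 1 := by have := d.hs; omega
    exact congrFun (congrArg (fun r => r.2.2.1) hr) ⟨j, hjC⟩
  have hr5 : d.b = d'.b := congrArg (fun r => r.2.2.2.2.1) hr
  have hr6 : d.b' = d'.b' := congrArg (fun r => r.2.2.2.2.2) hr
  -- the nodes at the ends of the segments
  have hst : ∀ j, j ≤ d.s → d.u (d.e j) = d'.u (d'.e j) := by
    intro j hj
    rcases Nat.eq_zero_or_pos j with h0 | h0
    · subst h0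
      rw [d.he0, d'.he0, d.hu, d'.hu]
    · obtain ⟨i, rfl⟩ := Nat.exists_eq_add_of_le' h0
      exact (hr2 i (by omega)).2.1
  have hen : ∀ j, j ≤ d.s → d.u (d.e (j + 1) - 1) = d'.u (d'.e (j + 1) - 1) := by
    intro j hj
    rcases Nat.lt_or_ge j d.s with h0 | h0
    · exact (hr2 j h0).1
    · have h1 : j = d.s := by omega
      subst h1
      rw [d.heT]
      conv_rhs => rw [hr1, d'.heT]
      rw [Nat.add_sub_cancel, Nat.add_sub_cancel, d.hT, d'.hT]
  -- bounds
  have hmonoL : ∀ (x : Lf h → V) (f : Dat B C h m leafOf pos g x) (j : ℕ), j ≤ f.s →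
      f.e (j + 1) ≤ f.T + 1 := by
    intro x f j hj
    have h1 : ∀ i, j + i ≤ f.s → f.e (j + 1) ≤ f.e (j + i + 1) := by
      intro i
      induction i with
      | zero => intro _; exact le_rfl
      | succ i ih =>
        intro hi
        have h2 := ih (by omega)
        have h3 := f.hmono (j + (i + 1)) hi
        have h4 : j + (i + 1) = j + i + 1 := by ring
        rw [h4] at h3 ⊢
        omega
    have h2 := h1 (f.s - j) (by omega)
    have h3 : j + (f.s - j) + 1 = f.s + 1 := by omega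
    rw [h3, f.heT] at h2
    exact h2
  -- a single step reads
  have hstep : ∀ (x : Lf h → V) (f : Dat B C h m leafOf pos g x) (p : ℕ) (i : Fin n) (a : α),
      1 ≤ p → p ≤ f.T → f.lab p = some (i, a) → p ∈ f.occ i := by
    intro x f p i a hp1 hp2 hl
    have h1 : B.Reads (f.u (p - 1)) i (f.u p) := by
      refine ⟨[f.lab p], NBP.Walk.cons _ _ _ _ _ (f.hedge p hp1 hp2) (NBP.Walk.nil _), a, ?_⟩
      rw [hl]
      exact List.mem_singleton.mpr rfl
    obtain ⟨p', h2, h3, h4⟩ := f.hreads (p - 1) p i (by omega) hp2 h1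
    have h5 : p' = p := by omega
    rw [← h5]
    exact h2
  -- reading inside a segment is a property of the end nodes
  have hread : ∀ (x : Lf h → V) (f : Dat B C h m leafOf pos g x) (j p : ℕ) (i : Fin n) (a : α),
      j ≤ f.s → f.e j < p → p < f.e (j + 1) → f.lab p = some (i, a) →
      B.Reads (f.u (f.e j)) i (f.u (f.e (j + 1) - 1)) := by
    intro x f j p i a hj hp1 hp2 hl
    have hb := hmonoL x f j hj
    obtain ⟨ls, h1, h2⟩ := seg B f.T f.u f.lab f.hedge (f.e j) (f.e (j + 1) - 1)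
      (by have := f.hmono j hj; omega) (by omega)
    exact ⟨ls, h1, a, (h2 _).mpr ⟨p, hp1, by omega, hl⟩⟩
  -- the labels of the word of the mixture
  have hA : ∀ j, j ≤ d.s → d.c j = true → ∀ p, d.e j < p → p < d.e (j + 1) → ∀ i a,
      d.lab p = some (i, a) → g i (mix m (ext d.b') w w' (leafOf i)) = a := by
    intro j hj hc p hp1 hp2 i a hl
    have hpT : p ≤ d.T := by have := hmonoL w d j hj; omega
    have h1 := d.hlab p (by omega) hpT i a hl
    by_cases h2 : ∃ i', i' ∈ Finset.range m ∧ leafOf i = ext d.b' i'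
    · rw [mix, if_pos h2]
      obtain ⟨i', hi', hy⟩ := h2
      have hi'm := Finset.mem_range.mp hi'
      rw [ext_eq _ i' hi'm] at hy
      by_contra hne
      have h3 : g i (w (leafOf i)) ≠ g i (w' (leafOf i)) := by
        rw [h1]; exact fun h => hne h.symm
      rcases hg i _ _ h3 with h4 | h4
      · have h5 := hstep w d p i a (by omega) hpT hl
        rw [h4, hy] at h5
        have h6 := d.hfalse ⟨i', hi'm⟩ j hj p hp1 hp2 h5
        rw [hc] at h6
        exact Bool.noConfusion h6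
      · have h5 := hread w d j p i a hj hp1 hp2 hl
        rw [hst j hj, hen j hj] at h5
        have hb := hmonoL w' d' j (by omega)
        obtain ⟨p', h6, h7, h8⟩ := d'.hreads _ _ i
          (by have := d'.hmono j (by omega); omega) (by omega) h5
        rw [h4, hy, hr6] at h6
        have h9 := d'.hfalse ⟨i', hi'm⟩ j (by omega) p' h7
          (by have := d'.hmono j (by omega); omega) h6
        rw [← hr3 j hj, hc] at h9
        exact Bool.noConfusion h9
    · rw [mix, if_neg h2]
      exact h1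
  have hF : ∀ j, j ≤ d.s → d.c j = false → ∀ p, d'.e j < p → p < d'.e (j + 1) → ∀ i a,
      d'.lab p = some (i, a) → g i (mix m (ext d.b') w w' (leafOf i)) = a := by
    intro j hj hc p hp1 hp2 i a hl
    have hj' : j ≤ d'.s := by omega
    have hpT : p ≤ d'.T := by have := hmonoL w' d' j hj'; omega
    have h1 := d'.hlab p (by omega) hpT i a hl
    by_cases h2 : ∃ i', i' ∈ Finset.range m ∧ leafOf i = ext d.b' i'
    · rw [mix, if_pos h2]
      exact h1
    · rw [mix, if_neg h2]
      by_contra hne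
      have h3 : g i (w (leafOf i)) ≠ g i (w' (leafOf i)) := by
        rw [h1]; exact hne
      have h2' : ∀ i' : Fin m, leafOf i ≠ d.b' i' := by
        intro i' hi'
        exact h2 ⟨i', Finset.mem_range.mpr i'.2, by rw [ext_eq _ _ i'.2]; exact hi'⟩
      have h4 : ∃ i' : Fin m, leafOf i = d.b i' := by
        by_contra hno
        push Not at hno
        exact h3 (by rw [hout (leafOf i) (fun i' => ⟨hno i', h2' i'⟩)])
      obtain ⟨i', hy⟩ := h4
      rcases hg i _ _ h3 with h4 | h4
      · have h5 := hread w' d' j p i a hj' hp1 hp2 hl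
        rw [← hst j hj, ← hen j hj] at h5
        have hb := hmonoL w d j hj
        obtain ⟨p', h6, h7, h8⟩ := d.hreads _ _ i
          (by have := d.hmono j hj; omega) (by omega) h5
        rw [h4, hy] at h6
        have h9 := d.htrue i' j hj p' h7 (by have := d.hmono j hj; omega) h6
        rw [hc] at h9
        exact Bool.noConfusion h9
      · have h5 := hstep w' d' p i a (by omega) hpT hl
        rw [h4, hy, hr5] at h5
        have h6 := d'.htrue i' j hj' p hp1 hp2 h5
        rw [← hr3 j hj, hc] at h6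
        exact Bool.noConfusion h6
  -- one segment
  have hsegm : ∀ j, j ≤ d.s → ∃ ls, B.Walk (d.u (d.e j)) ls (d.u (d.e (j + 1) - 1)) ∧
      ∀ i a, some (i, a) ∈ ls → g i (mix m (ext d.b') w w' (leafOf i)) = a := by
    intro j hj
    cases hc : d.c j with
    | true =>
      have hb := hmonoL w d j hj
      obtain ⟨ls, h1, h2⟩ := seg B d.T d.u d.lab d.hedge (d.e j) (d.e (j + 1) - 1)
        (by have := d.hmono j hj; omega) (by omega)
      refine ⟨ls, h1, fun i a hia => ?_⟩
      obtain ⟨p, h3, h4, h5⟩ := (h2 _).mp hia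
      exact hA j hj hc p h3 (by have := d.hmono j hj; omega) i a h5
    | false =>
      have hj' : j ≤ d'.s := by omega
      have hb := hmonoL w' d' j hj'
      obtain ⟨ls, h1, h2⟩ := seg B d'.T d'.u d'.lab d'.hedge (d'.e j) (d'.e (j + 1) - 1)
        (by have := d'.hmono j hj'; omega) (by omega)
      rw [hst j hj, hen j hj]
      refine ⟨ls, h1, fun i a hia => ?_⟩
      obtain ⟨p, h3, h4, h5⟩ := (h2 _).mp hia
      exact hF j hj hc p h3 (by have := d'.hmono j hj'; omega) i a h5
  -- induction over the cuts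
  have hind : ∀ j, j ≤ d.s → ∃ ls, B.Walk B.source ls (d.u (d.e j)) ∧
      ∀ i a, some (i, a) ∈ ls → g i (mix m (ext d.b') w w' (leafOf i)) = a := by
    intro j
    induction j with
    | zero =>
      intro _
      rw [d.he0, d.hu]
      exact ⟨[], NBP.Walk.nil _, fun i a h => absurd h (List.not_mem_nil)⟩
    | succ j ih =>
      intro hj
      obtain ⟨ls, h1, h2⟩ := ih (by omega)
      obtain ⟨ls', h3, h4⟩ := hsegm j (by omega)
      have hb := hmonoL w d j (by omega)
      have hb2 := hmonoL w d (j + 1) hj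
      have hb3 := d.hmono (j + 1) hj
      have hb4 := d.hmono j (by omega)
      have h5 := d.hedge (d.e (j + 1)) (by omega) (by omega)
      refine ⟨ls ++ ls' ++ [d.lab (d.e (j + 1))], walk_append B (walk_append B h1 h3)
        (NBP.Walk.cons _ _ _ _ _ h5 (NBP.Walk.nil _)), fun i a hia => ?_⟩
      rw [List.mem_append, List.mem_append, List.mem_singleton] at hia
      rcases hia with (hia | hia) | hia
      · exact h2 i a hia
      · exact h4 i a hia
      · have h6 := d.hlab (d.e (j + 1)) (by omega) (by omega) i a hia.symm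
        have hia' := hia.symm
        rw [(hr2 j (by omega)).2.2] at hia'
        have hj' : j + 1 ≤ d'.s := by omega
        have hb5 := hmonoL w' d' (j + 1) hj'
        have hb6 := d'.hmono (j + 1) hj'
        have hb7 := d'.hmono j (by omega)
        have h7 := d'.hlab (d'.e (j + 1)) (by omega) (by omega) i a hia'
        rw [mix]
        split_ifs
        · exact h7
        · exact h6
  obtain ⟨ls, h1, h2⟩ := hind d.s le_rfl
  obtain ⟨ls', h3, h4⟩ := hsegm d.s le_rfl
  rw [d.heT, Nat.add_sub_cancel, d.hT] at h3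
  refine ⟨ls ++ ls', walk_append B h1 h3, fun i a hia => ?_⟩
  rw [List.mem_append] at hia
  rcases hia with hia | hia
  · exact h2 i a hia
  · exact h4 i a hia

/-! ### the leaves of a chain are distinct -/

theorem chain_lt {h m : ℕ} {l : Lf h} {b b' : ℕ → Lf h} (hc : Chain h m l b b') (i i' : ℕ)
    (hi : i < i') : i' < m → lca h l (b' i) < lca h l (b i') := by
  induction i', hi using Nat.le_induction with
  | base => exact fun h' => hc.2.2 i h'
  | succ j hj ih =>
    intro hj'
    have h1 := ih (by omega)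
    have h2 := hc.1 j (by omega)
    have h3 := hc.2.2 j hj'
    omega

theorem chain_card {h m : ℕ} {l : Lf h} {b b' : Fin m → Lf h}
    (hc : Chain h m l (ext b) (ext b')) :
    (univ.image b ∪ univ.image b').card = 2 * m := by
  have hlt : ∀ i i' : Fin m, i < i' → lca h l (b' i) < lca h l (b i') := by
    intro i i' hi
    have h1 := chain_lt hc i i' hi i'.2
    rw [ext_eq _ _ i.2, ext_eq _ _ i'.2] at h1
    exact h1
  have hle : ∀ i : Fin m, lca h l (b i) < lca h l (b' i) := by
    intro i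
    have h1 := hc.1 i i.2
    rw [ext_eq _ _ i.2, ext_eq _ _ i.2] at h1
    exact h1
  have hb : Function.Injective b := by
    intro i i' hii
    rcases lt_trichotomy i i' with h1 | h1 | h1
    · have h2 := hlt i i' h1
      have h3 := hle i
      rw [hii] at h3
      omega
    · exact h1
    · have h2 := hlt i' i h1
      have h3 := hle i'
      rw [← hii] at h3
      omega
  have hb' : Function.Injective b' := by
    intro i i' hii
    rcases lt_trichotomy i i' with h1 | h1 | h1
    · have h2 := hlt i i' h1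
      have h3 := hle i'
      rw [hii] at h2
      omega
    · exact h1
    · have h2 := hlt i' i h1
      have h3 := hle i
      rw [← hii] at h2
      omega
  have hd : Disjoint (univ.image b) (univ.image b') := by
    rw [Finset.disjoint_left]
    intro x hx hx'
    obtain ⟨i, -, hi⟩ := mem_image.mp hx
    obtain ⟨i', -, hi'⟩ := mem_image.mp hx'
    have h0 : b i = b' i' := hi.trans hi'.symm
    rcases lt_trichotomy i i' with h1 | h1 | h1
    · have h2 := hlt i i' h1
      have h3 := hle i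
      have h4 := hle i'
      rw [h0] at h3
      omega
    · have h3 := hle i
      rw [h0, h1] at h3
      omega
    · have h2 := hlt i' i h1
      rw [h0] at h2
      omega
  rw [card_union_of_disjoint hd, card_image_of_injective _ hb, card_image_of_injective _ hb',
    card_univ, Fintype.card_fin]
  ring

theorem card_Lf : ∀ h : ℕ, Fintype.card (Lf h) = 2 ^ h
  | 0 => rfl
  | h + 1 => by
    rw [← Fintype.card_congr (Lf.equiv h), Fintype.card_prod, card_Lf h, Fintype.card_bool, pow_succ]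
    ring

/-! ### counting -/

theorem card_rcd (S n : ℕ) (α : Type) [Fintype α] (C h m : ℕ) :
    Fintype.card (Rcd S n α C h m) = (C + 1) * (S * S * (1 + n * Fintype.card α)) ^ C * 2 ^ (C + 1) *
      (2 ^ h) ^ (2 * m + 1) := by
  rw [Fintype.card_prod, Fintype.card_prod, Fintype.card_prod, Fintype.card_prod, Fintype.card_prod,
    Fintype.card_fun, Fintype.card_fun, Fintype.card_fun, Fintype.card_prod, Fintype.card_prod,
    Fintype.card_option, Fintype.card_prod, Fintype.card_fin, Fintype.card_fin, Fintype.card_fin,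
    Fintype.card_fin, Fintype.card_fin, Fintype.card_bool, card_Lf]
  ring

theorem count {α : Type} [Fintype α] {n : ℕ} (B : NBP α n) (C h m q : ℕ) [Fact q.Prime]
    (leafOf : Fin n → Lf h) (pos : Lf h → ZMod q → Fin n) (g : Fin n → ZMod q → α)
    (hg : ∀ i c c', g i c ≠ g i c' → i = pos (leafOf i) c ∨ i = pos (leafOf i) c')
    (t : ZMod q) (Good : Finset (Lf h → ZMod q))
    (hGood : ∀ (m : ℕ) (l : Lf h) (b b' : ℕ → Lf h) (t : ZMod q) (S : Finset (Lf h → ZMod q)),
        Chain h m l b b' → S ⊆ Good →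
        (∀ w ∈ S, ∀ w' ∈ S, ∀ x, (∀ i < m, x ≠ b i ∧ x ≠ b' i) → w x = w' x) →
        (∀ w ∈ S, ∀ w' ∈ S, ev op h (mix m b' w w') = t) → S.card ≤ q ^ m)
    (hdat : ∀ w : Lf h → ZMod q, ev op h w = t → Nonempty (Dat B C h m leafOf pos g w))
    (hacc : ∀ w : Lf h → ZMod q, B.Accepts (fun i => g i (w (leafOf i))) ↔ ev op h w = t) :
    (Good.filter fun w => ev op h w = t).card ≤
      q ^ m * q ^ (2 ^ h - 2 * m) * Fintype.card (Rcd B.size n α C h m) ∧
    ((Good.filter fun w => ev op h w = t).Nonempty → 2 * m ≤ 2 ^ h) := by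
  classical
  set S := Good.filter fun w => ev op h w = t with hS
  let r0 : Rcd B.size n α C h m := (0, fun _ => (B.source, B.source, none), fun _ => false,
    default, fun _ => default, fun _ => default)
  let rc : (Lf h → ZMod q) → Rcd B.size n α C h m :=
    fun w => if hw : ev op h w = t then (Classical.choice (hdat w hw)).rcd else r0
  have hrc : ∀ w (hw : ev op h w = t), rc w = (Classical.choice (hdat w hw)).rcd := by
    intro w hw
    exact dif_pos hw
  have hSt : ∀ w ∈ S, ev op h w = t := fun w hw => (mem_filter.mp hw).2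
  have hSG : S ⊆ Good := filter_subset _ _
  refine ⟨?_, ?_⟩
  · refine (card_le_mul_card_image (f := rc) S (q ^ m * q ^ (2 ^ h - 2 * m)) ?_).trans
      (Nat.mul_le_mul_left _ (card_le_univ _))
    intro r hr
    obtain ⟨w₀, hw₀, hr₀⟩ := mem_image.mp hr
    set d₀ := Classical.choice (hdat w₀ (hSt w₀ hw₀)) with hd₀
    have hr1 : d₀.rcd = r := by rw [← hr₀, hrc w₀ (hSt w₀ hw₀)]
    have hch := d₀.hchain
    set L := univ.image d₀.b ∪ univ.image d₀.b' with hL
    have hLc := chain_card hch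
    rw [← hL] at hLc
    refine (card_le_mul_card_image (f := fun w => (fun x : {x // x ∉ L} => w x))
      (S.filter fun w => rc w = r) (q ^ m) ?_).trans ?_
    · intro f _
      refine hGood m d₀.l (ext d₀.b) (ext d₀.b') t _ hch ?_ ?_ ?_
      · exact (filter_subset _ _).trans ((filter_subset _ _).trans hSG)
      · intro w hw w' hw' x hx
        have h1 := (mem_filter.mp hw).2
        have h2 := (mem_filter.mp hw').2
        have hxL : x ∉ L := by
          intro hxL
          rcases mem_union.mp hxL with h3 | h3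
          · obtain ⟨i, -, hi⟩ := mem_image.mp h3
            have h4 := (hx i i.2).1
            rw [ext_eq _ _ i.2] at h4
            exact h4 hi.symm
          · obtain ⟨i, -, hi⟩ := mem_image.mp h3
            have h4 := (hx i i.2).2
            rw [ext_eq _ _ i.2] at h4
            exact h4 hi.symm
        exact congrFun (h1.trans h2.symm) ⟨x, hxL⟩
      · intro w hw w' hw'
        have h1 := (mem_filter.mp hw).2
        have h2 := (mem_filter.mp hw').2
        have h3 := mem_filter.mp (mem_filter.mp hw).1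
        have h4 := mem_filter.mp (mem_filter.mp hw').1
        have e1 := hSt w h3.1
        have e2 := hSt w' h4.1
        have h5 : (Classical.choice (hdat w e1)).rcd = d₀.rcd := by
          rw [← hrc w e1, h3.2, hr1]
        have h6 : (Classical.choice (hdat w e1)).rcd = (Classical.choice (hdat w' e2)).rcd := by
          rw [h5, ← hrc w' e2, h4.2, hr1]
        have hb : (Classical.choice (hdat w e1)).b = d₀.b := congrArg (fun r => r.2.2.2.2.1) h5
        have hb' : (Classical.choice (hdat w e1)).b' = d₀.b' := congrArg (fun r => r.2.2.2.2.2) h5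
        have h7 := splice B C h m leafOf pos g hg w w' (Classical.choice (hdat w e1))
          (Classical.choice (hdat w' e2)) h6 (by
          intro x hx
          rw [hb, hb'] at hx
          have hxL : x ∉ L := by
            intro hxL
            rcases mem_union.mp hxL with h3 | h3
            · obtain ⟨i, -, hi⟩ := mem_image.mp h3
              exact (hx i).1 hi.symm
            · obtain ⟨i, -, hi⟩ := mem_image.mp h3
              exact (hx i).2 hi.symm
          exact congrFun (h1.trans h2.symm) ⟨x, hxL⟩)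
        rw [hb'] at h7
        exact (hacc _).mp h7
    · refine Nat.mul_le_mul_left _ ((card_le_univ _).trans ?_)
      rw [Fintype.card_fun, ZMod.card]
      refine Nat.pow_le_pow_right (Fact.out : q.Prime).pos ?_
      rw [Fintype.card_subtype_compl, card_Lf]
      have h8 : Fintype.card {x // x ∈ L} = 2 * m := by rw [Fintype.card_coe, hLc]
      rw [h8]
  · rintro ⟨w₀, hw₀⟩
    have hch := (Classical.choice (hdat w₀ (hSt w₀ hw₀))).hchain
    have h1 := chain_card hch
    rw [← h1, ← card_Lf h]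
    exact card_le_univ _

end Pool.Agent.Lib.MP_9277c3_lc.RKT.M5

namespace Pool.Agent.Lib.MP_9277c3_lc.RKT

open Finset Pool.Agent.Lib.MP_9277c3_lc

/-- M5: the counting inequality. -/
theorem bound (hM1 : SpecM1) (hM3 : SpecM3) {α : Type} [Fintype α] (C k n h q : ℕ) [Fact q.Prime]
    (hh : 8 ≤ h) (hq : 2 ^ (4 * h) ≤ q)
    (hM2 : ∀ (h T : ℕ) (occ : Lf h → Finset ℕ),
      (∀ x, (occ x).card ≤ k) → (∀ x, occ x ⊆ Finset.Icc 1 T) →
      ∃ (D : Finset ℕ) (col : ℕ → Bool) (l : Lf h) (m : ℕ) (b b' : ℕ → Lf h),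
        D ⊆ Finset.Icc 1 T ∧ D.card ≤ C ∧ h ≤ C * (m + 1) ∧ Chain h m l b b' ∧
        (∀ p q, p ≤ q → (∀ d ∈ D, ¬(p ≤ d ∧ d ≤ q)) → col p = col q) ∧
        (∀ i < m, ∀ p ∈ occ (b i), p ∉ D → col p = true) ∧
        ∀ i < m, ∀ p ∈ occ (b' i), p ∉ D → col p = false)
    (B : NBP α n) (hB : B.ReadTimes k)
    (henc : ∀ t : ZMod q, ∃ (leafOf : Fin n → Lf h) (pos : Lf h → ZMod q → Fin n)
      (g : Fin n → ZMod q → α),
        (∀ i c c', g i c ≠ g i c' → i = pos (leafOf i) c ∨ i = pos (leafOf i) c') ∧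
        ∀ w : Lf h → ZMod q, B.Accepts (fun i => g i (w (leafOf i))) ↔ ev op h w = t) :
    Bound (Fintype.card α) C n B.size h (h / C - 1) q := by
  classical
  obtain ⟨Good, hG1, hG2⟩ := hM3 q h hh hq
  have hq0 : 0 < q := (Fact.out : q.Prime).pos
  set m := h / C - 1 with hm
  -- a popular value
  obtain ⟨t, -, ht⟩ : ∃ t ∈ (univ : Finset (ZMod q)),
      Good.card ≤ q * (Good.filter fun w => ev op h w = t).card := by
    by_contra hno
    push Not at hno
    have h1 : Good.card = ∑ t : ZMod q, (Good.filter fun w => ev op h w = t).card :=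
      card_eq_sum_card_fiberwise (fun w _ => mem_coe.mpr (mem_univ _))
    have h2 : ∑ t : ZMod q, q * (Good.filter fun w => ev op h w = t).card
        < ∑ _t : ZMod q, Good.card := by
      apply sum_lt_sum_of_nonempty univ_nonempty
      intro t ht
      exact hno t ht
    rw [← mul_sum, ← h1, sum_const, card_univ, ZMod.card, smul_eq_mul] at h2
    exact lt_irrefl _ h2
  obtain ⟨leafOf, pos, g, hg, hacc⟩ := henc t
  have hmm : ∀ m', h ≤ C * (m' + 1) → m ≤ m' := by
    intro m' hm'
    have h1 : h / C ≤ m' + 1 := by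
      apply Nat.div_le_of_le_mul
      exact hm'
    omega
  obtain ⟨hc1, hc2⟩ := M5.count B C h m q leafOf pos g hg t Good hG2
    (fun w hw => M5.exists_dat B C h m k leafOf pos g w hM1 (fun T occ h1 h2 => hM2 h T occ h1 h2)
      hmm hB ((hacc w).mpr hw)) hacc
  have hpos : 0 < q ^ 2 ^ h := pow_pos hq0 _
  have hne : (Good.filter fun w => ev op h w = t).Nonempty := by
    rw [← card_pos]
    rcases Nat.eq_zero_or_pos (Good.filter fun w => ev op h w = t).card with h0 | h0
    · rw [h0] at ht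
      omega
    · exact h0
  have h2m := hc2 hne
  rw [M5.card_rcd] at hc1
  unfold Bound
  set R := (C + 1) * (B.size * B.size * (1 + n * Fintype.card α)) ^ C * 2 ^ (C + 1) *
    (2 ^ h) ^ (2 * m + 1) with hR
  have h3 : q ^ (2 * m) * q ^ (2 ^ h - 2 * m) = q ^ 2 ^ h := by
    rw [← pow_add]
    congr 1
    omega
  have h4 : q ^ 2 ^ h ≤ 2 * (q * (q ^ m * q ^ (2 ^ h - 2 * m) * R)) :=
    hG1.trans (Nat.mul_le_mul_left _ (ht.trans (Nat.mul_le_mul_left _ hc1)))
  rw [← h3] at h4
  have h5 : 0 < q ^ m * q ^ (2 ^ h - 2 * m) := by positivity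
  have h6 : (q ^ m * q ^ (2 ^ h - 2 * m)) * q ^ m ≤ (q ^ m * q ^ (2 ^ h - 2 * m)) * (2 * q * R) := by
    calc (q ^ m * q ^ (2 ^ h - 2 * m)) * q ^ m = q ^ (2 * m) * q ^ (2 ^ h - 2 * m) := by
          rw [two_mul, pow_add]; ring
      _ ≤ _ := h4
      _ = _ := by ring
  exact Nat.le_of_mul_le_mul_left h6 h5

/-- The final statement from the modules, with a positive constant. -/
theorem final_pos (hM1 : SpecM1) (hM2 : SpecM2) (hM3 : SpecM3) (hM4 : SpecM4) (hM6 : SpecM6) :
    ∃ (α : Type) (_ : Fintype α) (M : DPDA α),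
    (∀ q c X q' mv β, M.next q c X = some (q', mv, β) → mv = Move.right) ∧
    ∀ k : ℕ, ∃ C : ℕ, 0 < C ∧ ∀ n, C ≤ n → ∀ B : NBP α n, B.ReadTimes k →
      (∀ x : Fin n → α, B.Accepts x ↔ M.Accepts (List.ofFn x)) →
      n ^ (Nat.log 2 n / C) ≤ B.size := by
  obtain ⟨α, hα, M, hM, hM4'⟩ := hM4
  refine ⟨α, hα, M, hM, fun k => ?_⟩
  obtain ⟨C₂, hC₂⟩ := hM2 k
  obtain ⟨C', hC'⟩ := hM6 (Fintype.card α) (C₂ + 1) (by omega)
  have hpos : 0 < C' := by
    by_contra h0
    obtain ⟨h, q, -, -, -, h1, -⟩ := hC' 0 (by omega)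
    have h2 : 0 < 2 ^ h * (q + 2) ^ 3 := by positivity
    omega
  refine ⟨C', hpos, fun n hn B hB hacc => ?_⟩
  obtain ⟨h, q, hq, hh, hq2, hn2, hS⟩ := hC' n hn
  have : Fact q.Prime := ⟨hq⟩
  apply hS
  apply bound hM1 hM3 (C₂ + 1) k n h q hh hq2 _ B hB _
  · intro h T occ h1 h2
    obtain ⟨D, col, l, m, b, b', g1, g2, g3, g4, g5, g6, g7⟩ := hC₂ h T occ h1 h2
    exact ⟨D, col, l, m, b, b', g1, by omega, by nlinarith, g4, g5, g6, g7⟩
  · intro t
    obtain ⟨leafOf, pos, g, hg, hg2⟩ := hM4' (ZMod q) h n op t (by omega)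
      (by rw [ZMod.card]; exact hq.two_le) (by rw [ZMod.card]; exact hn2)
    exact ⟨leafOf, pos, g, hg, fun w => (hacc _).trans (hg2 w)⟩

/-- The final statement from the modules. -/
theorem final (hM1 : SpecM1) (hM2 : SpecM2) (hM3 : SpecM3) (hM4 : SpecM4) (hM6 : SpecM6) :
    Final := by
  obtain ⟨α, hα, M, hM, h⟩ := final_pos hM1 hM2 hM3 hM4 hM6
  refine ⟨α, hα, M, hM, fun k => ?_⟩
  obtain ⟨C, -, hC⟩ := h k
  exact ⟨C, hC⟩

end Pool.Agent.Lib.MP_9277c3_lc.RKT
end

section
/-!
# Read-k-times branching programs: M6, the arithmetic (helper1)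
-/
namespace Pool.Agent.Lib.MP_9277c3_lc.RKT

/-- The exponents. -/
theorem m6_exp {A C h l m K a : ℕ} (hC : 1 ≤ C) (hl : l ≤ 20 * h + 19)
    (hm : h + 1 ≤ C * m + 2 * C) (hK : 3200 * C ^ 2 ≤ K) (ha : K * a ≤ (l + 1) * l)
    (hh : C * (5 + 2 * C + 3 + C * (40 + A)) + 4 * C + 1 ≤ h) :
    2 * C * a + 5 * h + 2 * C + 3 + C * (l + 1 + A) ≤ 2 * h * m := by
  have h1 : 1 ≤ h := by omega
  have h2 : (l + 1) * l ≤ (40 * h) * (40 * h) := Nat.mul_le_mul (by omega) (by omega)
  have h3 : 2 * C ^ 2 * a ≤ h ^ 2 := by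
    have : 3200 * C ^ 2 * a ≤ 1600 * h ^ 2 := by
      calc 3200 * C ^ 2 * a ≤ K * a := Nat.mul_le_mul_right _ hK
        _ ≤ 40 * h * (40 * h) := ha.trans h2
        _ = 1600 * h ^ 2 := by ring
    nlinarith
  have h4 : C * (5 * h + 2 * C + 3 + C * (l + 1 + A)) + 4 * C * h ≤ h ^ 2 := by
    have e1 : l + 1 + A ≤ (40 + A) * h := by nlinarith
    have e2 : 5 * h + 2 * C + 3 + C * (l + 1 + A) ≤ (5 + 2 * C + 3 + C * (40 + A)) * h := by
      nlinarith [Nat.mul_le_mul_left C e1]
    calc C * (5 * h + 2 * C + 3 + C * (l + 1 + A)) + 4 * C * h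
        ≤ C * ((5 + 2 * C + 3 + C * (40 + A)) * h) + 4 * C * h :=
          Nat.add_le_add_right (Nat.mul_le_mul_left _ e2) _
      _ = (C * (5 + 2 * C + 3 + C * (40 + A)) + 4 * C) * h := by ring
      _ ≤ h * h := Nat.mul_le_mul_right _ (by omega)
      _ = h ^ 2 := by ring
  have h5 : 2 * h * (h + 1) ≤ 2 * h * (C * m + 2 * C) := Nat.mul_le_mul_left _ hm
  have h6 : C * (2 * C * a + 5 * h + 2 * C + 3 + C * (l + 1 + A)) ≤ C * (2 * h * m) := by
    nlinarith
  exact Nat.le_of_mul_le_mul_left h6 (by omega)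

/-- The counting inequality gives the bound. -/
theorem m6_bound {A C n S h m q l a : ℕ} (hC : 1 ≤ C) (hn : 1 ≤ n) (hl2 : n ≤ 2 ^ (l + 1))
    (hq1 : 2 ^ (4 * h) ≤ q) (hq3 : q ≤ 2 ^ (4 * h + 1)) (hb : Bound A C n S h m q)
    (hexp : 2 * C * a + 5 * h + 2 * C + 3 + C * (l + 1 + A) ≤ 2 * h * m) : 2 ^ a ≤ S := by
  by_contra hS
  rw [not_le] at hS
  unfold Bound at hb
  have h1 : (2 ^ (4 * h)) ^ m ≤ q ^ m := Nat.pow_le_pow_left hq1 m
  have h2 : 1 + n * A ≤ 2 ^ (l + 1 + A) := by
    have : A + 1 ≤ 2 ^ A := Nat.lt_two_pow_self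
    calc 1 + n * A ≤ n * (A + 1) := by nlinarith
      _ ≤ 2 ^ (l + 1) * 2 ^ A := Nat.mul_le_mul hl2 this
      _ = 2 ^ (l + 1 + A) := by rw [← pow_add]
  have h3 : C + 1 ≤ 2 ^ C := Nat.lt_two_pow_self
  have hS2 : S * S * (1 + n * A) < 2 ^ (2 * a + (l + 1 + A)) := by
    have h5 : S * S < 2 ^ a * 2 ^ a := Nat.mul_lt_mul'' hS hS
    calc S * S * (1 + n * A) < 2 ^ a * 2 ^ a * (1 + n * A) :=
          Nat.mul_lt_mul_of_pos_right h5 (by omega)
      _ ≤ 2 ^ a * 2 ^ a * 2 ^ (l + 1 + A) := Nat.mul_le_mul_left _ h2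
      _ = 2 ^ (2 * a + (l + 1 + A)) := by rw [← pow_add, ← pow_add]; congr 1; ring
  have h6 : (S * S * (1 + n * A)) ^ C < 2 ^ (C * (2 * a + (l + 1 + A))) := by
    calc (S * S * (1 + n * A)) ^ C < (2 ^ (2 * a + (l + 1 + A))) ^ C :=
          Nat.pow_lt_pow_left hS2 (by omega)
      _ = 2 ^ (C * (2 * a + (l + 1 + A))) := by rw [← pow_mul]; congr 1; ring
  have h7 : q ^ m < 2 ^ (2 * h * m + (2 * C * a + 5 * h + 2 * C + 3 + C * (l + 1 + A))) := by
    calc q ^ m ≤ 2 * q * ((C + 1) * (S * S * (1 + n * A)) ^ C * 2 ^ (C + 1) *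
          (2 ^ h) ^ (2 * m + 1)) := hb
      _ ≤ 2 * 2 ^ (4 * h + 1) * ((C + 1) * (S * S * (1 + n * A)) ^ C * 2 ^ (C + 1) *
          (2 ^ h) ^ (2 * m + 1)) := Nat.mul_le_mul_right _ (by omega)
      _ ≤ 2 * 2 ^ (4 * h + 1) * (2 ^ C * (S * S * (1 + n * A)) ^ C * 2 ^ (C + 1) *
          (2 ^ h) ^ (2 * m + 1)) := by gcongr
      _ < 2 * 2 ^ (4 * h + 1) * (2 ^ C * 2 ^ (C * (2 * a + (l + 1 + A))) * 2 ^ (C + 1) *
          (2 ^ h) ^ (2 * m + 1)) := by gcongr
      _ = 2 ^ (2 * h * m + (2 * C * a + 5 * h + 2 * C + 3 + C * (l + 1 + A))) := by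
          rw [← pow_mul, ← pow_add, ← pow_add, ← pow_add, ← pow_succ', ← pow_add]
          congr 1
          ring
  have h8 : 2 ^ (4 * h * m) ≤ q ^ m := by rw [pow_mul]; exact h1
  have h10 := (Nat.pow_lt_pow_iff_right (by norm_num : 1 < 2)).1 (lt_of_le_of_lt h8 h7)
  have h11 : 4 * h * m = 2 * h * m + 2 * h * m := by ring
  omega

theorem specM6 : SpecM6 := by
  intro A C hC
  obtain ⟨H0, hH0⟩ : ∃ H0, H0 = C * (5 + 2 * C + 3 + C * (40 + A)) + 4 * C + 9 := ⟨_, rfl⟩
  obtain ⟨K, hK⟩ : ∃ K, K = 3200 * C ^ 2 + 2 ^ (20 * H0) := ⟨_, rfl⟩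
  refine ⟨K, ?_⟩
  intro n hn
  have hpos : 0 < 2 ^ (20 * H0) := by positivity
  have hn0 : n ≠ 0 := by omega
  obtain ⟨l, hl⟩ : ∃ l, l = Nat.log 2 n := ⟨_, rfl⟩
  have hl1 : 2 ^ l ≤ n := by rw [hl]; exact Nat.pow_log_le_self 2 hn0
  have hl2 : n < 2 ^ (l + 1) := by rw [hl]; exact Nat.lt_pow_succ_log_self (by norm_num) n
  have hl3 : 20 * H0 ≤ l := by
    rw [hl]
    apply Nat.le_log_of_pow_le (by norm_num)
    omega
  obtain ⟨h, hh⟩ : ∃ h, h = l / 20 := ⟨_, rfl⟩
  have hh1 : H0 ≤ h := by omega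
  have hh2 : 20 * h ≤ l := by omega
  have hh3 : l ≤ 20 * h + 19 := by omega
  have h9 : 9 ≤ H0 := by rw [hH0]; exact Nat.le_add_left _ _
  obtain ⟨q, hq, hq1, hq2⟩ := Nat.exists_prime_lt_and_le_two_mul (2 ^ (4 * h)) (by positivity)
  have hq3 : q ≤ 2 ^ (4 * h + 1) := by rw [pow_succ]; omega
  refine ⟨h, q, hq, by omega, hq1.le, ?_, ?_⟩
  · have h1 : q + 2 ≤ 2 ^ (4 * h + 2) := by
      have : 2 ≤ 2 ^ (4 * h + 1) := by
        calc 2 = 2 ^ 1 := by norm_num
          _ ≤ 2 ^ (4 * h + 1) := Nat.pow_le_pow_right (by norm_num) (by omega)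
      rw [pow_succ 2 (4 * h + 1)]
      omega
    calc 2 ^ h * (q + 2) ^ 3 ≤ 2 ^ h * (2 ^ (4 * h + 2)) ^ 3 :=
          Nat.mul_le_mul_left _ (Nat.pow_le_pow_left h1 3)
      _ = 2 ^ (13 * h + 6) := by rw [← pow_mul, ← pow_add]; congr 1; ring
      _ ≤ 2 ^ l := Nat.pow_le_pow_right (by norm_num) (by omega)
      _ ≤ n := hl1
  · intro S hb
    rw [← hl]
    have hCh : C ≤ h := by
      have : C ≤ H0 := by rw [hH0]; nlinarith
      omega
    have hm1 : h + 1 ≤ C * (h / C - 1) + 2 * C := by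
      have h1 : h < C * (h / C + 1) := Nat.lt_mul_div_succ h (show 0 < C by omega)
      have h2 : 1 ≤ h / C := (Nat.one_le_div_iff (by omega)).2 hCh
      obtain ⟨m, hm⟩ : ∃ m, h / C = m + 1 := ⟨h / C - 1, by omega⟩
      rw [hm] at h1 ⊢
      rw [Nat.add_sub_cancel]
      nlinarith
    have ha1 : K * ((l + 1) * (l / K)) ≤ (l + 1) * l := by
      calc K * ((l + 1) * (l / K)) = (l + 1) * (K * (l / K)) := by ring
        _ ≤ (l + 1) * l := Nat.mul_le_mul_left _ (Nat.mul_div_le l K)
    have hexp := m6_exp (A := A) (K := K) (a := (l + 1) * (l / K)) hC hh3 hm1 (by omega) ha1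
      (by omega)
    -- the target
    calc n ^ (l / K) ≤ (2 ^ (l + 1)) ^ (l / K) := Nat.pow_le_pow_left hl2.le _
      _ = 2 ^ ((l + 1) * (l / K)) := by rw [← pow_mul]
      _ ≤ S := m6_bound hC (by omega) hl2.le hq1.le hq3 hb hexp

end Pool.Agent.Lib.MP_9277c3_lc.RKT
end
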