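import Pool.Agent.Lib.MP_9277c3_lc.RKT.Defs
import Pool.Agent.Lib.MP_9277c3_lc.RO.Upper
import Pool.Agent.Lib.MP_9277c3_lc.RKT.M6
import Pool.Agent.Lib.MP_9277c3_lc.RKT.M2
import Pool.Agent.Lib.MP_9277c3_lc.RKT.M3
import Pool.Agent.Lib.MP_9277c3_lc.RKT.M4

section
/-!
# Read-k-times branching programs: the upper bound

Every context-free language has read-once nondeterministic programs of size `n ^ O(log n)`.
-/
namespace Pool.Agent.Lib.MP_9277c3_lc.RKT

open Pool.Agent.Lib.MP_9277c3_lc

/-- A finite set can be numbered such that a given potential decreases weakly. -/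
theorem exists_numbering (X : Type) [Finite X] (Φ : X → ℕ) :
    ∃ e : X ≃ Fin (Nat.card X), ∀ u v, Φ v < Φ u → e u < e v := by
  let c : X ≃ Fin (Nat.card X) := Finite.equivFin X
  let f : Fin (Nat.card X) → ℕᵒᵈ := fun i => OrderDual.toDual (Φ (c.symm i))
  let σ := Tuple.sort f
  have hσ : Monotone (f ∘ σ) := Tuple.monotone_sort f
  refine ⟨c.trans σ.symm, fun u v huv => ?_⟩
  by_contra hcon
  have h1 : (c.trans σ.symm) v ≤ (c.trans σ.symm) u := not_lt.1 hcon
  have h2 := hσ h1
  simp only [Function.comp_apply, Equiv.trans_apply, Equiv.apply_symm_apply, f,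
    Equiv.symm_apply_apply, OrderDual.toDual_le_toDual] at h2
  omega

section
variable {α : Type} {n : ℕ} (B : RO.NBP α n) (e : B.Node ≃ Fin (Nat.card B.Node))
  (he : ∀ u l v, B.edge u l v → e u < e v) (z : B.Node)

/-- The program with numbered nodes. -/
noncomputable def conv : NBP α n where
  size := Nat.card B.Node
  edge u l v := B.edge (e.symm u) l (e.symm v)
  acyclic u l v h := by simpa using he _ _ _ h
  source := e B.start
  sink := e z

theorem conv_walk {p q : Fin (conv B e he z).size} {ls : List (Option (Fin n × α))}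
    (h : (conv B e he z).Walk p ls q) : B.Path (e.symm p) (ls.filterMap id) (e.symm q) := by
  induction h with
  | nil u => exact RO.NBP.Path.nil _
  | cons u l v ls w h _ ih =>
    cases l with
    | none => exact RO.NBP.Path.free _ _ _ _ h ih
    | some t => exact RO.NBP.Path.test _ _ _ _ _ h ih

theorem conv_path {ls : List (Option (Fin n × α))}
    (h : (conv B e he z).Walk (conv B e he z).source ls (conv B e he z).sink) :
    B.Path B.start (ls.filterMap id) z := by
  have h3 := conv_walk B e he z h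
  change B.Path (e.symm (e B.start)) _ (e.symm (e z)) at h3
  rw [Equiv.symm_apply_apply, Equiv.symm_apply_apply] at h3
  exact h3

theorem walk_conv {p q : B.Node} {t : List (Fin n × α)} (h : B.Path p t q) :
    ∃ ls : List (Option (Fin n × α)), ls.filterMap id = t ∧
      (conv B e he z).Walk (e p) ls (e q) := by
  induction h with
  | nil p => exact ⟨[], rfl, NBP.Walk.nil _⟩
  | free p q r l h _ ih =>
    obtain ⟨ls, h1, h2⟩ := ih
    refine ⟨none :: ls, by simpa using h1, NBP.Walk.cons _ _ _ _ _ ?_ h2⟩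
    change B.edge (e.symm (e p)) none (e.symm (e q))
    rw [Equiv.symm_apply_apply, Equiv.symm_apply_apply]
    exact h
  | test p q r t l h _ ih =>
    obtain ⟨ls, h1, h2⟩ := ih
    refine ⟨some t :: ls, by simpa using h1, NBP.Walk.cons _ _ _ _ _ ?_ h2⟩
    change B.edge (e.symm (e p)) (some t) (e.symm (e q))
    rw [Equiv.symm_apply_apply, Equiv.symm_apply_apply]
    exact h

theorem mem_filterMap_id {β : Type} (ls : List (Option β)) (t : β) :
    t ∈ ls.filterMap id ↔ some t ∈ ls := by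
  rw [List.mem_filterMap]
  constructor
  · rintro ⟨a, h1, h2⟩
    rw [← show a = some t from h2]
    exact h1
  · exact fun h => ⟨_, h, rfl⟩

theorem conv_accepts (hz : B.accept = {z}) (x : Fin n → α) :
    (conv B e he z).Accepts x ↔ B.Accepts x := by
  constructor
  · rintro ⟨ls, h1, h2⟩
    refine ⟨_, z, conv_path B e he z h1, by rw [hz]; rfl, ?_⟩
    rintro ⟨i, a⟩ ht
    exact h2 i a ((mem_filterMap_id _ _).1 ht)
  · rintro ⟨t, q, h1, h2, h3⟩
    rw [hz] at h2
    have h2' : q = z := h2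
    subst h2'
    obtain ⟨ls, h4, h5⟩ := walk_conv B e he q h1
    refine ⟨ls, h5, fun i a h => h3 (i, a) ?_⟩
    rw [← h4, mem_filterMap_id]
    exact h

theorem countP_le (ls : List (Option (Fin n × α))) (i : Fin n)
    (h : ((ls.filterMap id).map Prod.fst).Nodup) :
    ls.countP (fun l => l.map Prod.fst = some i) ≤ 1 := by
  have h1 : ls.countP (fun l => l.map Prod.fst = some i) =
      ((ls.filterMap id).map Prod.fst).count i := by
    clear h
    induction ls with
    | nil => simp
    | cons a ls ih =>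
      cases a with
      | none => simpa using ih
      | some t =>
        rw [List.countP_cons, ih]
        simp [List.count_cons]
  rw [h1]
  exact List.nodup_iff_count_le_one.1 h i

end

/-- The potential of an item. -/
def pot (s : ℕ) : ℕ := if s = 0 then 1 else 2 * s - 1

/-- The potential of a list of items. -/
def Pot {T : Type} (g : ContextFreeGrammar T) (Q : Finset (List (Symbol T g.NT))) (n : ℕ)
    (l : List (RO.Item g Q n)) : ℕ := (l.map fun I => pot (I.2.2 - I.2.1)).sum

theorem Pot_edge {T : Type} (g : ContextFreeGrammar T) (Q : Finset (List (Symbol T g.NT)))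
    (n : ℕ) {l l' : List (RO.Item g Q n)} {o : Option (Fin n × T)} (h : RO.Edge g Q n l o l') :
    Pot g Q n l' < Pot g Q n l := by
  cases h with
  | pop γ i l h => simp [Pot, pot]
  | test γ i a l h =>
    simp [Pot, pot]
  | left γ β₁ β₂ i m j l h1 h2 h =>
    have h1' : (i : ℕ) < m := h1
    have h2' : (m : ℕ) < j := h2
    simp only [Pot, List.map_cons, List.sum_cons, pot]
    rw [if_neg (by omega), if_neg (by omega), if_neg (by omega)]
    omega
  | right γ β₁ β₂ i m j l h1 h2 h =>
    have h1' : (i : ℕ) < m := h1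
    have h2' : (m : ℕ) < j := h2
    simp only [Pot, List.map_cons, List.sum_cons, pot]
    rw [if_neg (by omega), if_neg (by omega), if_neg (by omega)]
    omega

/-- Every context-free language over a finite alphabet has read-once nondeterministic programs of
size `n ^ O(log n)`. -/
theorem upper {T : Type} [Finite T] (L : Language T) (hL : L.IsContextFree) : ∃ C : ℕ, ∀ n : ℕ,
    ∃ B : NBP T n, B.ReadTimes 1 ∧ (∀ x : Fin n → T, B.Accepts x ↔ List.ofFn x ∈ L) ∧
      B.size ≤ (n + 2) ^ (C * (Nat.log 2 n + 1)) := by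
  obtain ⟨C, hC⟩ := RO.upper' L hL
  refine ⟨C, fun n => ?_⟩
  obtain ⟨g, Q, D, S, hD, h1, h2, h3⟩ := hC n
  have : Finite (RO.Stack g Q n D) := (RO.prog g Q n D S hD).finite_node
  obtain ⟨e, he⟩ := exists_numbering (RO.Stack g Q n D) fun p => Pot g Q n p.1
  have he' : ∀ u l v, (RO.prog g Q n D S hD).edge u l v → e u < e v := fun u l v h =>
    he _ _ (Pot_edge g Q n h)
  let z : (RO.prog g Q n D S hD).Node := (⟨[], Nat.zero_le _⟩ : RO.Stack g Q n D)
  refine ⟨conv (RO.prog g Q n D S hD) e he' z, ?_, ?_, h3⟩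
  · intro ls hls i
    refine countP_le ls i ?_
    exact h2 _ (conv_path (RO.prog g Q n D S hD) e he' z hls)
  · intro x
    rw [conv_accepts (RO.prog g Q n D S hD) e he' z rfl]
    exact h1 x

end Pool.Agent.Lib.MP_9277c3_lc.RKT
end

section
/-!
# Read-k-times branching programs: the bounds with real exponents
-/
namespace Pool.Agent.Lib.MP_9277c3_lc.RKT

open Pool.Agent.Lib.MP_9277c3_lc Filter

/-- The lower bound. -/
theorem lower : ∃ (α : Type) (_ : Fintype α) (M : DPDA α),
    (∀ q c X q' mv β, M.next q c X = some (q', mv, β) → mv = Move.right) ∧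
    ∀ k : ℕ, ∃ c : ℝ, 0 < c ∧ ∀ᶠ n : ℕ in atTop, ∀ B : NBP α n, B.ReadTimes k →
      (∀ x : Fin n → α, B.Accepts x ↔ M.Accepts (List.ofFn x)) →
      (n : ℝ) ^ (c * Real.log n) ≤ B.size := by
  obtain ⟨α, hα, M, hM, h⟩ := final_pos specM1 specM2 specM3 A4.specM4 specM6
  refine ⟨α, hα, M, hM, fun k => ?_⟩
  obtain ⟨C, hC0, hC⟩ := h k
  have hC1 : (0 : ℝ) < C := by exact_mod_cast hC0
  refine ⟨1 / (2 * C), by positivity, ?_⟩
  filter_upwards [eventually_ge_atTop C, eventually_ge_atTop 2,
    (Real.tendsto_log_atTop.comp tendsto_natCast_atTop_atTop).eventually_ge_atTop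
      (2 * (1 + (C : ℝ)))] with n hn hn2 hlog B hB hacc
  simp only [Function.comp_apply] at hlog
  have h1 : ((n ^ (Nat.log 2 n / C) : ℕ) : ℝ) ≤ B.size := by exact_mod_cast hC n hn B hB hacc
  refine le_trans ?_ h1
  push_cast
  rw [← Real.rpow_natCast]
  have hn1 : (1 : ℝ) ≤ n := by exact_mod_cast (by omega : 1 ≤ n)
  have hn0 : (0 : ℝ) < n := by linarith
  apply Real.rpow_le_rpow_of_exponent_le hn1
  have h2 : Real.log n ≤ (Nat.log 2 n : ℝ) + 1 := by
    have h3 : (n : ℝ) < 2 ^ (Nat.log 2 n + 1) := by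
      exact_mod_cast Nat.lt_pow_succ_log_self (by norm_num : 1 < 2) n
    have h4 : Real.log n ≤ Real.log (2 ^ (Nat.log 2 n + 1)) :=
      Real.log_le_log hn0 h3.le
    rw [Real.log_pow] at h4
    have h5 : Real.log 2 ≤ 1 := by
      have := Real.log_two_lt_d9
      linarith
    push_cast at h4
    have h6 : (0 : ℝ) ≤ (Nat.log 2 n : ℝ) + 1 := by positivity
    nlinarith
  have h3 : (Nat.log 2 n : ℝ) ≤ C * ((Nat.log 2 n / C : ℕ) : ℝ) + C := by
    have h4 : Nat.log 2 n ≤ C * (Nat.log 2 n / C) + C := by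
      have := Nat.lt_mul_div_succ (Nat.log 2 n) hC0
      rw [Nat.mul_add, Nat.mul_one] at this
      exact this.le
    exact_mod_cast h4
  rw [one_div, inv_mul_le_iff₀ (by positivity)]
  nlinarith

/-- The upper bound. -/
theorem upper_real (α : Type) [Finite α] (L : Language α) (hL : L.IsContextFree) :
    ∃ C : ℝ, ∀ n : ℕ, 2 ≤ n → ∃ B : NBP α n, B.ReadTimes 1 ∧
      (∀ x : Fin n → α, B.Accepts x ↔ List.ofFn x ∈ L) ∧
      (B.size : ℝ) ≤ (n : ℝ) ^ (C * Real.log n) := by
  obtain ⟨C, hC⟩ := upper L hL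
  refine ⟨8 * C, fun n hn => ?_⟩
  obtain ⟨B, h1, h2, h3⟩ := hC n
  refine ⟨B, h1, h2, ?_⟩
  have hn1 : (1 : ℝ) ≤ n := by exact_mod_cast (by omega : 1 ≤ n)
  have hn0 : (0 : ℝ) < n := by linarith
  have h4 : n + 2 ≤ n ^ 2 := by nlinarith
  have hlog1 : 1 ≤ Nat.log 2 n := by
    apply Nat.le_log_of_pow_le (by norm_num)
    omega
  have h5 : B.size ≤ n ^ (2 * (C * (2 * Nat.log 2 n))) := by
    calc B.size ≤ (n + 2) ^ (C * (Nat.log 2 n + 1)) := h3
      _ ≤ (n ^ 2) ^ (C * (Nat.log 2 n + 1)) := Nat.pow_le_pow_left h4 _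
      _ ≤ (n ^ 2) ^ (C * (2 * Nat.log 2 n)) :=
          Nat.pow_le_pow_right (by positivity) (Nat.mul_le_mul_left _ (by omega))
      _ = n ^ (2 * (C * (2 * Nat.log 2 n))) := by rw [← pow_mul]
  have h6 : (B.size : ℝ) ≤ (n : ℝ) ^ (2 * (C * (2 * Nat.log 2 n))) := by exact_mod_cast h5
  refine h6.trans ?_
  rw [← Real.rpow_natCast]
  apply Real.rpow_le_rpow_of_exponent_le hn1
  push_cast
  have h7 : (Nat.log 2 n : ℝ) ≤ 2 * Real.log n := by
    have h8 : (2 : ℝ) ^ (Nat.log 2 n) ≤ n := by
      exact_mod_cast Nat.pow_log_le_self 2 (by omega : n ≠ 0)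
    have h9 : Real.log ((2 : ℝ) ^ (Nat.log 2 n)) ≤ Real.log n :=
      Real.log_le_log (by positivity) h8
    rw [Real.log_pow] at h9
    have h10 : (1 / 2 : ℝ) ≤ Real.log 2 := by
      have := Real.log_two_gt_d9
      linarith
    have h11 : (0 : ℝ) ≤ Nat.log 2 n := Nat.cast_nonneg _
    nlinarith
  have hC0 : (0 : ℝ) ≤ C := Nat.cast_nonneg _
  nlinarith

end Pool.Agent.Lib.MP_9277c3_lc.RKT
end
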