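import Pool.Agent.Lib.MP_9277c3_lc.RKT.Defs

/-!
# Read-k-times branching programs: the statements of the modules
-/

namespace Pool.Agent.Lib.MP_9277c3_lc.RKT

open Pool.Agent.Lib.MP_9277c3_lc

/-- M1: an accepting walk and the virtual occurrences of the positions on it. The step `p`
(`1 ≤ p ≤ T`) goes from `u (p - 1)` to `u p`. -/
def SpecM1 : Prop :=
  ∀ (α : Type) (n k : ℕ) (B : NBP α n), B.ReadTimes k → ∀ x : Fin n → α, B.Accepts x →
    ∃ (T : ℕ) (u : ℕ → Fin B.size) (lab : ℕ → Option (Fin n × α)) (occ : Fin n → Finset ℕ),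
      u 0 = B.source ∧ u T = B.sink ∧
      (∀ p, 1 ≤ p → p ≤ T → B.edge (u (p - 1)) (lab p) (u p)) ∧
      (∀ p, 1 ≤ p → p ≤ T → ∀ i a, lab p = some (i, a) → x i = a) ∧
      (∀ i, occ i ⊆ Finset.Icc 1 T) ∧ (∀ i, (occ i).card ≤ k) ∧
      ∀ a b i, a ≤ b → b ≤ T → B.Reads (u a) i (u b) → ∃ p ∈ occ i, a < p ∧ p ≤ b

/-- M2: the word lemma. Each leaf has at most `k` occurrences in `1, ..., T`. There are at most `C`
cuts `D`, a colouring of the segments, a leaf `l` and a chain for `l` of length proportional to `h`,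
such that (outside of `D`) the leaves `b i` occur only in segments of colour `true` and the leaves
`b' i` only in segments of colour `false`. -/
def SpecM2 : Prop :=
  ∀ k : ℕ, ∃ C : ℕ, ∀ (h T : ℕ) (occ : Lf h → Finset ℕ),
    (∀ x, (occ x).card ≤ k) → (∀ x, occ x ⊆ Finset.Icc 1 T) →
    ∃ (D : Finset ℕ) (col : ℕ → Bool) (l : Lf h) (m : ℕ) (b b' : ℕ → Lf h),
      D ⊆ Finset.Icc 1 T ∧ D.card ≤ C ∧ h ≤ C * (m + 1) ∧ Chain h m l b b' ∧
      (∀ p q, p ≤ q → (∀ d ∈ D, ¬(p ≤ d ∧ d ≤ q)) → col p = col q) ∧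
      (∀ i < m, ∀ p ∈ occ (b i), p ∉ D → col p = true) ∧
      ∀ i < m, ∀ p ∈ occ (b' i), p ∉ D → col p = false

/-- M3: more than half of all `w` are nondegenerate, and a family of nondegenerate `w`, which agree
outside of the chain and all whose mixtures have the value `t`, has at most `q ^ m` members. -/
def SpecM3 : Prop :=
  ∀ (q h : ℕ) [Fact q.Prime], 8 ≤ h → 2 ^ (4 * h) ≤ q →
    ∃ Good : Finset (Lf h → ZMod q), q ^ 2 ^ h ≤ 2 * Good.card ∧
      ∀ (m : ℕ) (l : Lf h) (b b' : ℕ → Lf h) (t : ZMod q) (S : Finset (Lf h → ZMod q)),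
        Chain h m l b b' → S ⊆ Good →
        (∀ w ∈ S, ∀ w' ∈ S, ∀ x, (∀ i < m, x ≠ b i ∧ x ≠ b' i) → w x = w' x) →
        (∀ w ∈ S, ∀ w' ∈ S, ev op h (mix m b' w w') = t) → S.card ≤ q ^ m

/-- M4: the pushdown automaton. For each finite set `V` of values, operation `F`, target `t` and
length `n` at least `2 ^ h * (|V| + 2) ^ 3` there is an encoding of the maps `w` from the leaves to
`V` by words of length `n`: the letter at position `i` depends only on the value at the leaf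
`leafOf i`, and it is the same for two values `c`, `c'`, unless `i` is `pos (leafOf i) c` or
`pos (leafOf i) c'`. -/
def SpecM4 : Prop :=
  ∃ (α : Type) (_ : Fintype α) (M : DPDA α),
    (∀ q c X q' mv β, M.next q c X = some (q', mv, β) → mv = Move.right) ∧
    ∀ (V : Type) [Fintype V] [DecidableEq V] (h n : ℕ) (F : V → V → V) (t : V),
      1 ≤ h → 2 ≤ Fintype.card V → 2 ^ h * (Fintype.card V + 2) ^ 3 ≤ n →
      ∃ (leafOf : Fin n → Lf h) (pos : Lf h → V → Fin n) (g : Fin n → V → α),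
        (∀ i c c', g i c ≠ g i c' → i = pos (leafOf i) c ∨ i = pos (leafOf i) c') ∧
        ∀ w : Lf h → V, M.Accepts (List.ofFn fun i => g i (w (leafOf i))) ↔ ev F h w = t

/-- M5: the counting inequality. `A` is the number of letters, `C` the constant of M2 for `k`. -/
def Bound (A C n S h m q : ℕ) : Prop :=
  q ^ m ≤ 2 * q * ((C + 1) * (S * S * (1 + n * A)) ^ C * 2 ^ (C + 1) * (2 ^ h) ^ (2 * m + 1))

/-- M6: arithmetic. -/
def SpecM6 : Prop :=
  ∀ A C : ℕ, 1 ≤ C → ∃ C' : ℕ, ∀ n, C' ≤ n → ∃ h q : ℕ, q.Prime ∧ 8 ≤ h ∧ 2 ^ (4 * h) ≤ q ∧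
    2 ^ h * (q + 2) ^ 3 ≤ n ∧
    ∀ S, Bound A C n S h (h / C - 1) q → n ^ (Nat.log 2 n / C') ≤ S

/-- The final statement. -/
def Final : Prop :=
  ∃ (α : Type) (_ : Fintype α) (M : DPDA α),
    (∀ q c X q' mv β, M.next q c X = some (q', mv, β) → mv = Move.right) ∧
    ∀ k : ℕ, ∃ C : ℕ, ∀ n, C ≤ n → ∀ B : NBP α n, B.ReadTimes k →
      (∀ x : Fin n → α, B.Accepts x ↔ M.Accepts (List.ofFn x)) → n ^ (Nat.log 2 n / C) ≤ B.size

end Pool.Agent.Lib.MP_9277c3_lc.RKT
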